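import Mathlib

/-!
Definitions for the combinatorial core of a normal representation with symmetric atoms (helper127).
`C` is the set of atoms (colours), `B` the domain of the representation.
-/

namespace Pool.Agent.H127_SB

universe u v

/-- Colouring `c` of the pairs of points of `B` by colours in `C`; `e` is the colour of the diagonal, `T` is
the set of allowed triangles, `EP` the extension property (homogeneity and full universality). -/
structure Core (C : Type u) (B : Type v) where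
  e : C
  T : C → C → C → Prop
  c : B → B → C
  c_eq : ∀ x y, c x y = e ↔ x = y
  c_symm : ∀ x y, c x y = c y x
  tri : ∀ x y z, T (c x y) (c y z) (c x z)
  T_swap : ∀ {p q r}, T p q r → T q p r
  T_rot : ∀ {p q r}, T p q r → T p r q
  T_e : ∀ {p q}, T e p q → p = q
  T_refl : ∀ p, T e p p
  EP : ∀ (n : ℕ) (w : Fin n → B) (q : Fin n → C),
    (∀ i j, T (q i) (c (w i) (w j)) (q j)) → ∃ b, ∀ i, c b (w i) = q i

namespace Core

variable {C : Type u} {B : Type v} (K : Core C B)

/-- Algebraic form of primitivity. -/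
def Prim : Prop := ∀ E : Set C, K.e ∈ E → (∀ p q r, p ∈ E → q ∈ E → K.T p q r → r ∈ E) →
  (∀ p ∈ E, p = K.e) ∨ (∀ p, p ∈ E)

/-- All 1-cycles. -/
def OneCyc : Prop := ∀ p, K.T p p p

/-- Conservative maps `B^ι → B`: the polymorphisms. -/
def Cons {ι : Type*} (f : (ι → B) → B) : Prop :=
  ∀ X Y : ι → B, ∃ i, K.c (f X) (f Y) = K.c (X i) (Y i)

/-- The position `(X, Y)` has all its colours in `{s, t}`. -/
def In2 {ι : Type*} (s t : C) (X Y : ι → B) : Prop := ∀ i, K.c (X i) (Y i) = s ∨ K.c (X i) (Y i) = t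

/-- `f` is canonical on the set `{s, t}`. -/
def CanonOn {ι : Type*} (s t : C) (f : (ι → B) → B) : Prop :=
  ∀ X Y X' Y' : ι → B, K.In2 s t X Y → (∀ i, K.c (X i) (Y i) = K.c (X' i) (Y' i)) →
    K.c (f X) (f Y) = K.c (f X') (f Y')

/-- All polymorphisms of finite arity are canonical on `{s, t}`. -/
def AllCanon (s t : C) : Prop := ∀ (n : ℕ) (f : (Fin n → B) → B), K.Cons f → K.CanonOn s t f

/-- Some binary polymorphism is a semilattice operation on `{s, t}` with top `s`. -/
def SL (s t : C) : Prop := ∃ f : (Fin 2 → B) → B, K.Cons f ∧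
  ∀ X Y : Fin 2 → B, ((K.c (X 0) (Y 0) = s ∧ K.c (X 1) (Y 1) = t) ∨
    (K.c (X 0) (Y 0) = t ∧ K.c (X 1) (Y 1) = s)) → K.c (f X) (f Y) = s

/-- The ternary map `f` is a majority operation on `{s, t}`. -/
def MajOn (s t : C) (f : (Fin 3 → B) → B) : Prop :=
  ∀ X Y : Fin 3 → B, K.In2 s t X Y → ∀ i j : Fin 3, i ≠ j → K.c (X i) (Y i) = K.c (X j) (Y j) →
    K.c (f X) (f Y) = K.c (X i) (Y i)

/-- The instances are solved by the `(k, l)`-consistency procedure for some `k ≤ l`: if there is a nonempty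
family of partial solutions on the sets of at most `l` variables with the `k`-agreement property, then there
is a solution. -/
def Solved : Prop := ∃ k l : ℕ, k ≤ l ∧ ∀ (X : Type) [Fintype X] [DecidableEq X] (L : X → X → Set C)
  (H : Finset X → Set (X → B)),
  (∀ W : Finset X, W.card ≤ l → (H W).Nonempty) →
  (∀ W : Finset X, W.card ≤ l → ∀ h ∈ H W, ∀ x ∈ W, ∀ y ∈ W, K.c (h x) (h y) ∈ L x y) →
  (∀ W W' U : Finset X, W.card ≤ l → W'.card ≤ l → U ⊆ W → U ⊆ W' → U.card ≤ k →
    ∀ h ∈ H W, ∃ h' ∈ H W', ∀ x ∈ U, h' x = h x) →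
  ∃ φ : X → B, ∀ x y, K.c (φ x) (φ y) ∈ L x y

/-- A network on `W`. -/
structure Net {W : Type*} (D : W → W → C) : Prop where
  diag : ∀ x, D x x = K.e
  symm : ∀ x y, D x y = D y x
  tri : ∀ x y z, K.T (D x y) (D y z) (D x z)

end Core

end Pool.Agent.H127_SB
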