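import Mathlib
import Pool.Agent.H127_SB.Defs

/-!
Basic extension lemmas for the combinatorial core (helper127).
-/

namespace Pool.Agent.H127_SB

universe u v w

variable {C : Type u} {B : Type v}

namespace Core

theorem T_rev (K : Core C B) {p q r : C} (h : K.T p q r) : K.T r q p :=
  K.T_swap (K.T_rot (K.T_swap h))

theorem c_self (K : Core C B) (x : B) : K.c x x = K.e := (K.c_eq x x).2 rfl

theorem ep' (K : Core C B) {ι : Type w} [Finite ι] (w : ι → B) (q : ι → C)
    (h : ∀ i j, K.T (q i) (K.c (w i) (w j)) (q j)) : ∃ b, ∀ i, K.c b (w i) = q i := by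
  classical
  obtain ⟨n, ⟨f⟩⟩ := Finite.exists_equiv_fin ι
  obtain ⟨b, hb⟩ := K.EP n (fun i => w (f.symm i)) (fun i => q (f.symm i)) (fun i j => h _ _)
  refine ⟨b, fun i => ?_⟩
  have := hb (f i)
  simpa using this

theorem fh1 (K : Core C B) {ι : Type w} [Finite ι] (w w' : ι → B)
    (h : ∀ i j, K.c (w' i) (w' j) = K.c (w i) (w j)) (b : B) :
    ∃ b', ∀ i, K.c b' (w' i) = K.c b (w i) := by
  apply K.ep'
  intro i j
  rw [h]
  exact K.tri _ _ _

theorem fh (K : Core C B) {V : Type w} [Finite V] (S : Set V) (w w0 : V → B)
    (h : ∀ x ∈ S, ∀ y ∈ S, K.c (w0 x) (w0 y) = K.c (w x) (w y)) :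
    ∃ w' : V → B, (∀ x ∈ S, w' x = w0 x) ∧ ∀ x y, K.c (w' x) (w' y) = K.c (w x) (w y) := by
  classical
  have key : ∀ F : Finset V, ∃ w' : V → B, (∀ x ∈ S, w' x = w0 x) ∧
      ∀ x y, (x ∈ S ∨ x ∈ F) → (y ∈ S ∨ y ∈ F) → K.c (w' x) (w' y) = K.c (w x) (w y) := by
    intro F
    induction F using Finset.induction_on with
    | empty =>
      refine ⟨w0, fun _ _ => rfl, fun x y hx hy => ?_⟩
      simp at hx hy
      exact h x hx y hy
    | insert a F ha ih =>
      obtain ⟨w', h1, h2⟩ := ih
      by_cases haS : a ∈ S
      · refine ⟨w', h1, fun x y hx hy => h2 x y ?_ ?_⟩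
        · rcases hx with hx | hx
          · exact Or.inl hx
          · rcases Finset.mem_insert.1 hx with rfl | hx
            · exact Or.inl haS
            · exact Or.inr hx
        · rcases hy with hy | hy
          · exact Or.inl hy
          · rcases Finset.mem_insert.1 hy with rfl | hy
            · exact Or.inl haS
            · exact Or.inr hy
      · obtain ⟨b', hb'⟩ := K.fh1 (fun x : {x : V // x ∈ S ∨ x ∈ F} => w x.1)
          (fun x : {x : V // x ∈ S ∨ x ∈ F} => w' x.1) (fun i j => h2 _ _ i.2 j.2) (w a)
        refine ⟨Function.update w' a b', ?_, ?_⟩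
        · intro x hx
          have : x ≠ a := by rintro rfl; exact haS hx
          rw [Function.update_of_ne this]
          exact h1 x hx
        · have hmem : ∀ x, x ≠ a → (x ∈ S ∨ x ∈ insert a F) → (x ∈ S ∨ x ∈ F) := by
            intro x hxa hx
            rcases hx with hx | hx
            · exact Or.inl hx
            · rcases Finset.mem_insert.1 hx with rfl | hx
              · exact absurd rfl hxa
              · exact Or.inr hx
          intro x y hx hy
          by_cases hxa : x = a
          · subst hxa
            by_cases hya : y = x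
            · subst hya
              simp [K.c_self]
            · rw [Function.update_self, Function.update_of_ne hya]
              exact hb' ⟨y, hmem y hya hy⟩
          · by_cases hya : y = a
            · subst hya
              rw [Function.update_self, Function.update_of_ne hxa, K.c_symm, K.c_symm (w x)]
              exact hb' ⟨x, hmem x hxa hx⟩
            · rw [Function.update_of_ne hxa, Function.update_of_ne hya]
              exact h2 x y (hmem x hxa hx) (hmem y hya hy)
  cases nonempty_fintype V
  obtain ⟨w', h1, h2⟩ := key Finset.univ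
  exact ⟨w', h1, fun x y => h2 x y (Or.inr (Finset.mem_univ _)) (Or.inr (Finset.mem_univ _))⟩

end Core

end Pool.Agent.H127_SB
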