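import Mathlib
import Pool.Agent.H127_SB.Basic

/-!
Realisation of countable networks and compactness (helper127).
-/

namespace Pool.Agent.H127_SB

universe u v w

variable {C : Type u} {B : Type v}

/-- Recursive choice of a sequence. -/
theorem exists_seq {B : Type v} [Nonempty B] (P : (n : ℕ) → (ℕ → B) → B → Prop)
    (hloc : ∀ n (f g : ℕ → B) b, (∀ m, m < n → f m = g m) → P n f b → P n g b)
    (h : ∀ n (f : ℕ → B), (∀ m, m < n → P m f (f m)) → ∃ b, P n f b) :
    ∃ f : ℕ → B, ∀ n, P n f (f n) := by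
  classical
  let F : (n : ℕ) → ((m : ℕ) → m < n → B) → B := fun n r =>
    Classical.epsilon (fun b => P n (fun m => if hm : m < n then r m hm else Classical.arbitrary B) b)
  let f : ℕ → B := fun n => (Nat.lt_wfRel.wf).fix (C := fun _ => B) F n
  have hf : ∀ n, f n = Classical.epsilon (fun b => P n f b) := by
    intro n
    have h1 : f n = F n (fun m _ => f m) := WellFounded.fix_eq _ _ _
    rw [h1]
    show Classical.epsilon _ = Classical.epsilon _
    congr 1
    funext b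
    apply propext
    constructor
    · apply hloc
      intro m hm
      simp [hm]
    · apply hloc
      intro m hm
      simp [hm]
  refine ⟨f, fun n => ?_⟩
  induction n using Nat.strong_induction_on with
  | _ n ih =>
    rw [hf n]
    exact Classical.epsilon_spec (h n f ih)

theorem compactness {W : Type w} {C : Type u} [Finite C] (Good : Finset W → (W → W → C) → Prop)
    (hloc : ∀ F D D', (∀ x ∈ F, ∀ y ∈ F, D x y = D' x y) → Good F D → Good F D')
    (hanti : ∀ F F' D, F ⊆ F' → Good F' D → Good F D)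
    (hex : ∀ F, ∃ D, Good F D) : ∃ D, ∀ F, Good F D := by
  classical
  choose D hD using hex
  let U : Ultrafilter (Finset W) := Ultrafilter.of Filter.atTop
  have hU : (U : Filter (Finset W)) ≤ Filter.atTop := Ultrafilter.of_le _
  have h1 : ∀ x y : W, ∃ k : C, ∀ᶠ F in (U : Filter (Finset W)), D F x y = k := by
    intro x y
    by_contra hcon
    push Not at hcon
    have h2 : ∀ k : C, ∀ᶠ F in (U : Filter (Finset W)), D F x y ≠ k := hcon
    have h3 : ∀ᶠ F in (U : Filter (Finset W)), ∀ k : C, D F x y ≠ k := by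
      rw [Filter.eventually_all]
      exact h2
    obtain ⟨F, hF⟩ := h3.exists
    exact hF _ rfl
  choose D0 hD0 using h1
  refine ⟨D0, fun F => ?_⟩
  have h4 : ∀ᶠ F' in (U : Filter (Finset W)), ∀ p : F × F, D F' p.1 p.2 = D0 p.1 p.2 := by
    rw [Filter.eventually_all]
    intro p
    exact hD0 _ _
  have h5 : ∀ᶠ F' in (U : Filter (Finset W)), F ⊆ F' := hU (Filter.eventually_ge_atTop F)
  obtain ⟨F', h6, h7⟩ := (h4.and h5).exists
  have h8 := hanti F F' (D F') h7 (hD F')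
  refine hloc F (D F') D0 ?_ h8
  intro x hx y hy
  exact h6 (⟨x, hx⟩, ⟨y, hy⟩)

namespace Core

theorem nonempty (K : Core C B) : Nonempty B := by
  obtain ⟨b, _⟩ := K.EP 0 Fin.elim0 Fin.elim0 (fun i => i.elim0)
  exact ⟨b⟩

theorem realize (K : Core C B) {W : Type w} [Countable W] (D : W → W → C) (hD : K.Net D)
    (Q : B → Prop)
    (hQ : ∀ (n : ℕ) (w : Fin n → B), (∀ i, Q (w i)) → ∀ b, ∃ b', Q b' ∧ ∀ i, K.c b' (w i) = K.c b (w i))
    (S : Finset W) (φ0 : W → B) (hS : ∀ x ∈ S, Q (φ0 x))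
    (h : ∀ x ∈ S, ∀ y ∈ S, K.c (φ0 x) (φ0 y) = D x y) :
    ∃ φ : W → B, (∀ x ∈ S, φ x = φ0 x) ∧ (∀ x, Q (φ x)) ∧ ∀ x y, K.c (φ x) (φ y) = D x y := by
  classical
  have := K.nonempty
  rcases isEmpty_or_nonempty W with hW | hW
  · exact ⟨φ0, fun _ _ => rfl, fun x => (hW.false x).elim, fun x => (hW.false x).elim⟩
  obtain ⟨g, hg⟩ := exists_surjective_nat W
  have hQ' : ∀ {ι : Type w} [Finite ι] (w : ι → B), (∀ i, Q (w i)) → ∀ b, ∃ b', Q b' ∧
      ∀ i, K.c b' (w i) = K.c b (w i) := by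
    intro ι _ w hw b
    obtain ⟨n, ⟨f⟩⟩ := Finite.exists_equiv_fin ι
    obtain ⟨b', h1, h2⟩ := hQ n (fun i => w (f.symm i)) (fun i => hw _) b
    refine ⟨b', h1, fun i => ?_⟩
    have := h2 (f i)
    simpa using this
  obtain ⟨ψ, hψ⟩ := exists_seq (B := B)
    (fun n f b => Q b ∧ (∀ x ∈ S, K.c b (φ0 x) = D (g n) x) ∧ ∀ m, m < n → K.c b (f m) = D (g n) (g m))
    (by
      intro n f f' b hff hb
      refine ⟨hb.1, hb.2.1, fun m hm => ?_⟩
      rw [← hff m hm]
      exact hb.2.2 m hm)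
    (by
      intro n f hf
      -- base points
      let ι := {x // x ∈ S} ⊕ Fin n
      let w : {x // x ∈ S} ⊕ Fin n → B := Sum.elim (fun x => φ0 x.1) (fun m => f m.1)
      let pt : {x // x ∈ S} ⊕ Fin n → W := Sum.elim (fun x => x.1) (fun m => g m.1)
      have hw : ∀ i j, K.c (w i) (w j) = D (pt i) (pt j) := by
        rintro (i | i) (j | j)
        · exact h _ i.2 _ j.2
        · show K.c (φ0 i.1) (f j.1) = D i.1 (g j.1)
          rw [K.c_symm, hD.symm]
          exact (hf j.1 j.2).2.1 _ i.2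
        · exact (hf i.1 i.2).2.1 _ j.2
        · show K.c (f i.1) (f j.1) = D (g i.1) (g j.1)
          rcases lt_trichotomy i.1 j.1 with hij | hij | hij
          · rw [K.c_symm, hD.symm]
            exact (hf j.1 j.2).2.2 _ hij
          · rw [hij, K.c_self, hD.diag]
          · exact (hf i.1 i.2).2.2 _ hij
      have hQw : ∀ i, Q (w i) := by
        rintro (i | i)
        · exact hS _ i.2
        · exact (hf i.1 i.2).1
      obtain ⟨b, hb⟩ := K.ep' w (fun i => D (g n) (pt i)) (by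
        intro i j
        rw [hw]
        exact hD.tri _ _ _)
      obtain ⟨b', hb1, hb2⟩ := hQ' (ι := ULift.{w} ({x // x ∈ S} ⊕ Fin n)) (fun i => w i.down)
        (fun i => hQw _) b
      refine ⟨b', hb1, fun x hx => ?_, fun m hm => ?_⟩
      · have h3 := hb2 ⟨Sum.inl ⟨x, hx⟩⟩
        have h4 := hb (Sum.inl ⟨x, hx⟩)
        exact h3.trans h4
      · have h3 := hb2 ⟨Sum.inr ⟨m, hm⟩⟩
        have h4 := hb (Sum.inr ⟨m, hm⟩)
        exact h3.trans h4)
  choose idx hidx using hg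
  have hcc : ∀ n m, K.c (ψ n) (ψ m) = D (g n) (g m) := by
    intro n m
    rcases lt_trichotomy n m with hnm | hnm | hnm
    · rw [K.c_symm, hD.symm]
      exact (hψ m).2.2 n hnm
    · rw [hnm, K.c_self, hD.diag]
    · exact (hψ n).2.2 m hnm
  refine ⟨fun x => ψ (idx x), fun x hx => ?_, fun x => (hψ _).1, fun x y => ?_⟩
  · have := (hψ (idx x)).2.1 x hx
    rw [hidx, hD.diag, K.c_eq] at this
    exact this
  · rw [hcc, hidx, hidx]

theorem sat_of_finite (K : Core C B) [Finite C] {W : Type w} [Countable W] (Λ : W → W → Set C)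
    (F0 : Finset W) (P : (W → W → C) → Prop)
    (hP : ∀ D D', (∀ x ∈ F0, ∀ y ∈ F0, D x y = D' x y) → P D → P D')
    (h : ∀ F : Finset W, F0 ⊆ F → ∃ g : W → B,
      (∀ x ∈ F, ∀ y ∈ F, K.c (g x) (g y) ∈ Λ x y) ∧ P (fun x y => K.c (g x) (g y))) :
    ∃ g : W → B, (∀ x y, K.c (g x) (g y) ∈ Λ x y) ∧ P (fun x y => K.c (g x) (g y)) := by
  classical
  have := K.nonempty
  obtain ⟨D, hD⟩ := compactness (W := W) (C := C)
    (fun F D => F0 ⊆ F → (∀ x ∈ F, ∀ y ∈ F, ∀ z ∈ F, D x x = K.e ∧ D x y = D y x ∧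
      K.T (D x y) (D y z) (D x z) ∧ D x y ∈ Λ x y) ∧ P D)
    (by
      intro F D D' hDD hG hF0
      obtain ⟨h1, h2⟩ := hG hF0
      refine ⟨fun x hx y hy z hz => ?_, hP D D' (fun x hx y hy => hDD x (hF0 hx) y (hF0 hy)) h2⟩
      rw [← hDD x hx x hx, ← hDD x hx y hy, ← hDD y hy x hx, ← hDD y hy z hz, ← hDD x hx z hz]
      exact h1 x hx y hy z hz)
    (by
      intro F F' D hFF hG hF0
      obtain ⟨h1, h2⟩ := hG (hF0.trans hFF)
      exact ⟨fun x hx y hy z hz => h1 x (hFF hx) y (hFF hy) z (hFF hz), h2⟩)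
    (by
      intro F
      obtain ⟨g, hg1, hg2⟩ := h (F ∪ F0) Finset.subset_union_right
      refine ⟨fun x y => K.c (g x) (g y), fun _ => ⟨fun x hx y hy z hz => ⟨K.c_self _, K.c_symm _ _,
        K.tri _ _ _, hg1 x (Finset.mem_union_left _ hx) y (Finset.mem_union_left _ hy)⟩, hg2⟩⟩)
  have hmem : ∀ x y z : W, F0 ⊆ F0 ∪ {x, y, z} := fun x y z => Finset.subset_union_left
  have hall : ∀ x y z : W, D x x = K.e ∧ D x y = D y x ∧
      K.T (D x y) (D y z) (D x z) ∧ D x y ∈ Λ x y := by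
    intro x y z
    exact (hD (F0 ∪ {x, y, z}) (hmem x y z)).1 x (by simp) y (by simp) z (by simp)
  have hPD : P D := (hD F0 (Finset.Subset.refl _)).2
  obtain ⟨φ, _, _, hφ⟩ := K.realize D ⟨fun x => (hall x x x).1, fun x y => (hall x y y).2.1,
    fun x y z => (hall x y z).2.2.1⟩ (fun _ => True) (fun n w _ b => ⟨b, trivial, fun _ => rfl⟩)
    ∅ (fun _ => Classical.arbitrary B) (by simp) (by simp)
  refine ⟨φ, fun x y => ?_, ?_⟩
  · rw [hφ]; exact (hall x y y).2.2.2
  · exact hP D _ (fun x _ y _ => (hφ x y).symm) hPD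

theorem emb (K : Core C B) [Countable B] {ι : Type w} [Finite ι] (w w' : ι → B)
    (h : ∀ i j, K.c (w' i) (w' j) = K.c (w i) (w j)) :
    ∃ f : B → B, (∀ x y, K.c (f x) (f y) = K.c x y) ∧ ∀ i, f (w i) = w' i := by
  classical
  cases nonempty_fintype ι
  -- choose, for a point of the range of `w`, an index
  let φ0 : B → B := fun x => if hx : ∃ i, w i = x then w' hx.choose else x
  have hφ0 : ∀ i, φ0 (w i) = w' i := by
    intro i
    have hx : ∃ j, w j = w i := ⟨i, rfl⟩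
    have h1 : φ0 (w i) = w' hx.choose := by simp only [φ0]; rw [dif_pos hx]
    rw [h1, ← K.c_eq, h, K.c_eq]
    exact hx.choose_spec
  obtain ⟨φ, h1, _, h3⟩ := K.realize (W := B) (fun x y => K.c x y)
    ⟨K.c_self, K.c_symm, K.tri⟩ (fun _ => True) (fun n w _ b => ⟨b, trivial, fun _ => rfl⟩)
    (Finset.univ.image w) φ0 (by simp) (by
      intro x hx y hy
      obtain ⟨i, -, rfl⟩ := Finset.mem_image.1 hx
      obtain ⟨j, -, rfl⟩ := Finset.mem_image.1 hy
      rw [hφ0, hφ0]; exact h i j)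
  refine ⟨φ, h3, fun i => ?_⟩
  rw [h1 _ (Finset.mem_image_of_mem _ (Finset.mem_univ i)), hφ0]

end Core

end Pool.Agent.H127_SB
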