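import Mathlib
import Pool.Agent.H127_SB.Realize

/-!
Walks, the path lemma, no algebraicity, local primitivity (helper127).
-/

namespace Pool.Agent.H127_SB

universe u v w

variable {C : Type u} {B : Type v}

namespace Core

/-- Walks of length `n` all of whose steps have colour `q`. -/
def Walk (K : Core C B) (q : C) : ℕ → B → B → Prop
  | 0, x, y => x = y
  | n + 1, x, y => ∃ z, Walk K q n x z ∧ K.c z y = q

theorem T_mid (K : Core C B) (x y z : B) : K.T (K.c x z) (K.c z y) (K.c x y) := K.tri x z y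

/-- One more point over three given ones. -/
theorem ep3 (K : Core C B) (x y : B) (p q : C) (h : K.T p (K.c x y) q) (hx : K.T p K.e p)
    (hy : K.T q K.e q) : ∃ b, K.c b x = p ∧ K.c b y = q := by
  obtain ⟨b, hb⟩ := K.ep' (ι := Bool) (fun i => cond i x y) (fun i => cond i p q) (by
    rintro (_ | _) (_ | _)
    · simp only [cond_false, K.c_self]; exact hy
    · simp only [cond_false, cond_true]; rw [K.c_symm]; exact K.T_rev h
    · simp only [cond_false, cond_true]; exact h
    · simp only [cond_true, K.c_self]; exact hx)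
  exact ⟨b, hb true, hb false⟩

theorem T_pep (K : Core C B) (p : C) : K.T p K.e p := K.T_swap (K.T_refl p)

theorem T_ppe (K : Core C B) (p : C) : K.T p p K.e := K.T_rot (K.T_pep p)

/-- Given a pair and an allowed triangle over it, the third point exists. -/
theorem third (K : Core C B) (x y : B) (p q : C) (h : K.T p q (K.c x y)) :
    ∃ z, K.c x z = p ∧ K.c z y = q := by
  obtain ⟨b, h1, h2⟩ := K.ep3 x y p q (K.T_rot h) (K.T_pep p) (K.T_pep q)
  exact ⟨b, by rw [K.c_symm]; exact h1, h2⟩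

theorem e_of_T_pp (K : Core C B) {p q : C} (h : K.T K.e p q) : p = q := K.T_e h

theorem Walk_color (K : Core C B) (q : C) : ∀ (n : ℕ) (x y x' y' : B), K.c x y = K.c x' y' →
    K.Walk q n x y → K.Walk q n x' y' := by
  intro n
  induction n with
  | zero =>
    intro x y x' y' h hw
    simp only [Walk] at *
    subst hw
    rw [K.c_self] at h
    exact (K.c_eq _ _).1 h.symm
  | succ n ih =>
    intro x y x' y' h hw
    obtain ⟨z, h1, h2⟩ := hw
    obtain ⟨z', h3⟩ := K.fh1 (ι := Bool) (fun i => cond i x y) (fun i => cond i x' y') (by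
      rintro (_ | _) (_ | _)
      · simp [K.c_self]
      · simp only [cond_false, cond_true]; rw [K.c_symm, ← h, K.c_symm]
      · simp only [cond_false, cond_true]; exact h.symm
      · simp [K.c_self]) z
    refine ⟨z', ih x z x' z' ?_ h1, ?_⟩
    · have := h3 true
      simp only [cond_true] at this
      rw [K.c_symm, ← this, K.c_symm]
    · have := h3 false
      simp only [cond_false] at this
      rw [this, h2]

theorem Walk_trans (K : Core C B) (q : C) : ∀ (m n : ℕ) (x y z : B), K.Walk q n x y →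
    K.Walk q m y z → K.Walk q (n + m) x z := by
  intro m
  induction m with
  | zero => intro n x y z h1 h2; simp only [Walk] at h2; subst h2; exact h1
  | succ m ih =>
    intro n x y z h1 h2
    obtain ⟨w, h3, h4⟩ := h2
    exact ⟨w, ih n x y w h1 h3, h4⟩

theorem Walk_succ (K : Core C B) (h1 : K.OneCyc) (q : C) (n : ℕ) (hn : 1 ≤ n) (x y : B)
    (h : K.Walk q n x y) : K.Walk q (n + 1) x y := by
  obtain ⟨n, rfl⟩ : ∃ k, n = k + 1 := ⟨n - 1, by omega⟩
  obtain ⟨z, h2, h3⟩ := h
  obtain ⟨z', h4, h5⟩ := K.third z y q q (by rw [h3]; exact h1 q)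
  exact ⟨z', ⟨z, h2, h4⟩, h5⟩

theorem Walk_mono (K : Core C B) (h1 : K.OneCyc) (q : C) (n m : ℕ) (hn : 1 ≤ n) (hnm : n ≤ m)
    (x y : B) (h : K.Walk q n x y) : K.Walk q m x y := by
  induction m, hnm using Nat.le_induction with
  | base => exact h
  | succ m hm ih => exact K.Walk_succ h1 q m (by omega) x y ih

theorem walk_all (K : Core C B) [Finite C] (hP : K.Prim) (h1 : K.OneCyc) (q : C) (hq : q ≠ K.e) :
    ∃ m0, ∀ m, m0 ≤ m → ∀ x y, K.Walk q m x y := by
  classical
  -- colours of pairs joined by a walk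
  have hE := hP {p | ∃ n, 1 ≤ n ∧ ∀ x y, K.c x y = p → K.Walk q n x y} ?_ ?_
  · rcases hE with hE | hE
    · exact absurd (hE q ⟨1, le_refl _, fun x y hxy => ⟨x, rfl, hxy⟩⟩) hq
    · choose N hN1 hN2 using hE
      obtain ⟨M, hM⟩ := (Set.finite_range N).bddAbove
      refine ⟨M, fun m hm x y => ?_⟩
      exact K.Walk_mono h1 q (N (K.c x y)) m (hN1 _) ((hM ⟨_, rfl⟩).trans hm) x y
        (hN2 _ x y rfl)
  · refine ⟨2, by norm_num, fun x y hxy => ?_⟩
    obtain rfl := (K.c_eq _ _).1 hxy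
    obtain ⟨z, hz1, hz2⟩ := K.third x x q q (by rw [K.c_self]; exact K.T_ppe q)
    exact ⟨z, ⟨x, rfl, hz1⟩, hz2⟩
  · rintro p p' r ⟨n, hn, h3⟩ ⟨n', hn', h4⟩ hT
    refine ⟨n + n', by omega, fun x y hxy => ?_⟩
    obtain ⟨z, hz1, hz2⟩ := K.third x y p p' (by rw [hxy]; exact hT)
    exact K.Walk_trans q n' n x z y (h3 x z hz1) (h4 z y hz2)

/-- A walk as a sequence of points. -/
theorem Walk_seq (K : Core C B) (q : C) : ∀ (n : ℕ) (x y : B), K.Walk q n x y →
    ∃ b : ℕ → B, b 0 = x ∧ b n = y ∧ ∀ i, i < n → K.c (b i) (b (i + 1)) = q := by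
  intro n
  induction n with
  | zero => intro x y h; exact ⟨fun _ => x, rfl, h, fun i hi => absurd hi (by omega)⟩
  | succ n ih =>
    intro x y h
    obtain ⟨z, h1, h2⟩ := h
    obtain ⟨b, hb0, hbn, hb⟩ := ih x z h1
    refine ⟨Function.update b (n + 1) y, ?_, ?_, ?_⟩
    · rw [Function.update_of_ne (by omega)]; exact hb0
    · rw [Function.update_self]
    · intro i hi
      rcases Nat.lt_succ_iff_lt_or_eq.1 hi with h3 | h3
      · rw [Function.update_of_ne (by omega), Function.update_of_ne (by omega)]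
        exact hb i h3
      · subst h3
        rw [Function.update_self, Function.update_of_ne (by omega), hbn, h2]

/-- `z` is joined to `y` by a chain of `i` steps following the types of `β` over `w`. -/
def Chain (K : Core C B) {ι : Type w} (w : ι → B) (β : ℕ → B) (c0 : C) : ℕ → B → B → Prop
  | 0, z, y => z = y ∧ ∀ i, K.c y (w i) = K.c (β 0) (w i)
  | n + 1, z, y => ∃ y', Chain K w β c0 n z y' ∧ K.c y' y = c0 ∧
      ∀ i, K.c y (w i) = K.c (β (n + 1)) (w i)

theorem Chain_end (K : Core C B) {ι : Type w} (w : ι → B) (β : ℕ → B) (c0 : C) (n : ℕ) (z y : B)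
    (h : K.Chain w β c0 n z y) : ∀ i, K.c y (w i) = K.c (β n) (w i) := by
  cases n with
  | zero => exact h.2
  | succ n => obtain ⟨_, _, _, h3⟩ := h; exact h3

theorem Chain_start (K : Core C B) {ι : Type w} (w : ι → B) (β : ℕ → B) (c0 : C) (n : ℕ) :
    ∀ (z y : B), K.Chain w β c0 n z y → ∀ i, K.c z (w i) = K.c (β 0) (w i) := by
  induction n with
  | zero => intro z y h; obtain ⟨rfl, h⟩ := h; exact h
  | succ n ih => intro z y h; obtain ⟨y', h1, _, _⟩ := h; exact ih z y' h1

/-- The chain relation depends only on the type. -/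
theorem Chain_color (K : Core C B) {ι : Type w} [Finite ι] (w : ι → B) (β : ℕ → B) (c0 : C)
    (n : ℕ) : ∀ (z y z' y' : B), (∀ i, K.c z' (w i) = K.c z (w i)) →
      (∀ i, K.c y' (w i) = K.c y (w i)) → K.c z' y' = K.c z y →
      K.Chain w β c0 n z y → K.Chain w β c0 n z' y' := by
  induction n with
  | zero =>
    intro z y z' y' h1 h2 h3 h
    obtain ⟨rfl, h4⟩ := h
    rw [K.c_self, K.c_eq] at h3
    refine ⟨h3, fun i => ?_⟩
    rw [h2, h4]
  | succ n ih =>
    intro z y z' y' h1 h2 h3 h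
    obtain ⟨y1, h4, h5, h6⟩ := h
    obtain ⟨y1', h7⟩ := K.fh1 (ι := ι ⊕ Bool) (Sum.elim w (fun i => cond i z y))
      (Sum.elim w (fun i => cond i z' y')) (by
        rintro (i | i | i) (j | j | j) <;>
        simp only [Sum.elim_inl, Sum.elim_inr, cond_true, cond_false, K.c_self]
        · rw [K.c_symm, h2, K.c_symm]
        · rw [K.c_symm, h1, K.c_symm]
        · exact h2 j
        · rw [K.c_symm, h3, K.c_symm]
        · exact h1 j
        · exact h3) y1
    refine ⟨y1', ih z y1 z' y1' h1 (fun i => h7 (Sum.inl i)) ?_ h4, ?_, fun i => ?_⟩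
    · have := h7 (Sum.inr true)
      simp only [Sum.elim_inr, cond_true] at this
      rw [K.c_symm, this, K.c_symm]
    · have := h7 (Sum.inr false)
      simp only [Sum.elim_inr, cond_false] at this
      rw [this, h5]
    · rw [h2, h6]

/-- Predecessor in the chain. -/
theorem Chain_pred (K : Core C B) {ι : Type w} [Finite ι] (w : ι → B) (β : ℕ → B) (c0 : C)
    (n : ℕ) (hβ : K.c (β n) (β (n + 1)) = c0) (y y' : B)
    (hy : ∀ i, K.c y (w i) = K.c (β (n + 1)) (w i)) (hy' : ∀ i, K.c y' (w i) = K.c (β (n + 1)) (w i))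
    (hyy : K.T c0 (K.c y y') c0) :
    ∃ v, (∀ i, K.c v (w i) = K.c (β n) (w i)) ∧ K.c v y = c0 ∧ K.c v y' = c0 := by
  obtain ⟨v, hv⟩ := K.ep' (ι := ι ⊕ Bool) (Sum.elim w (fun i => cond i y y'))
    (Sum.elim (fun i => K.c (β n) (w i)) (fun _ => c0)) (by
      have key : ∀ (z : B) (hz : ∀ i, K.c z (w i) = K.c (β (n + 1)) (w i)) (i : ι),
          K.T (K.c (β n) (w i)) (K.c (w i) z) c0 := by
        intro z hz i
        rw [K.c_symm (w i), hz, K.c_symm (β (n + 1)), ← hβ]
        exact K.tri _ _ _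
      rintro (i | i | i) (j | j | j) <;>
      simp only [Sum.elim_inl, Sum.elim_inr, cond_true, cond_false, K.c_self]
      · exact K.tri _ _ _
      · exact key y' hy' i
      · exact key y hy i
      · rw [K.c_symm]; exact K.T_rev (key y' hy' j)
      · exact K.T_pep _
      · rw [K.c_symm]; exact hyy
      · rw [K.c_symm]; exact K.T_rev (key y hy j)
      · exact hyy
      · exact K.T_pep _)
  exact ⟨v, fun i => hv (Sum.inl i), hv (Sum.inr true), hv (Sum.inr false)⟩

theorem Chain_exists (K : Core C B) {ι : Type w} [Finite ι] (w : ι → B) (β : ℕ → B) (c0 : C)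
    (m : ℕ) (hβ : ∀ i, i < m → K.c (β i) (β (i + 1)) = c0) (n : ℕ) (hn : n ≤ m) :
    ∀ v, (∀ i, K.c v (w i) = K.c (β n) (w i)) → ∃ z, K.Chain w β c0 n z v := by
  induction n with
  | zero => intro v hv; exact ⟨v, rfl, hv⟩
  | succ n ih =>
    intro v hv
    obtain ⟨y, hy1, hy2, _⟩ := K.Chain_pred w β c0 n (hβ n (by omega)) v v hv hv (by
      rw [K.c_self]; exact K.T_pep _)
    obtain ⟨z, hz⟩ := ih (by omega) y hy1
    exact ⟨z, y, hz, hy2, hv⟩

theorem path_lemma (K : Core C B) [Finite C] (hP : K.Prim) (h1 : K.OneCyc) {ι : Type w} [Finite ι]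
    (w : ι → B) (b : B) (θ : Set C) (he : K.e ∈ θ)
    (hθ : ∀ g1 g2 g3, g1 ∈ θ → g2 ∈ θ → (∀ i, K.T (K.c b (w i)) g3 (K.c b (w i))) →
      K.T g1 g2 g3 → g3 ∈ θ)
    (c0 : C) (hc0 : c0 ≠ K.e)
    (h2 : ∀ g, (∀ i, K.T (K.c b (w i)) g (K.c b (w i))) → K.T c0 c0 g → g ∈ θ) :
    ∀ g, (∀ i, K.T (K.c b (w i)) g (K.c b (w i))) → g ∈ θ := by
  intro f0 hf0
  -- `b'` with the type of `b` and colour `f0` to `b`
  obtain ⟨b', hb'⟩ := K.ep' (ι := Option ι) (fun i => i.elim b w)
    (fun i => i.elim f0 (fun i => K.c b (w i))) (by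
      rintro (_ | i) (_ | j) <;> simp only [Option.elim, K.c_self]
      · exact K.T_pep _
      · exact K.T_swap (hf0 j)
      · rw [K.c_symm (w i) b]; exact K.T_rot (hf0 i)
      · rw [K.c_symm b (w i)] ; rw [K.c_symm (w i) b]; exact K.tri _ _ _)
  have hb'f : K.c b' b = f0 := hb' none
  have hb'w : ∀ i, K.c b' (w i) = K.c b (w i) := fun i => hb' (some i)
  obtain ⟨m0, hm0⟩ := K.walk_all hP h1 c0 hc0
  obtain ⟨β, hβ0, hβm, hβ⟩ := K.Walk_seq c0 m0 b' b (hm0 m0 le_rfl b' b)
  -- points of the type of `β 0` are related by colours fixing the type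
  have hS : ∀ z z' : B, (∀ i, K.c z (w i) = K.c (β 0) (w i)) → (∀ i, K.c z' (w i) = K.c (β 0) (w i)) →
      ∀ i, K.T (K.c b (w i)) (K.c z z') (K.c b (w i)) := by
    intro z z' hz hz' i
    have e1 : K.c z (w i) = K.c b (w i) := by rw [hz, hβ0, hb'w]
    have e2 : K.c z' (w i) = K.c b (w i) := by rw [hz', hβ0, hb'w]
    have := K.tri (w i) z z'
    rw [K.c_symm (w i) z, e1, K.c_symm (w i) z', e2] at this
    exact this
  -- the claim
  have claim : ∀ n, n ≤ m0 → ∀ z z' y, K.Chain w β c0 n z y → K.Chain w β c0 n z' y →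
      K.c z z' ∈ θ := by
    intro n
    induction n using Nat.strong_induction_on with
    | _ n ih =>
      intro hn z z' y hz hz'
      match n, ih, hn, hz, hz' with
      | 0, _, _, hz, hz' =>
        obtain ⟨rfl, _⟩ := hz
        obtain ⟨rfl, _⟩ := hz'
        rw [K.c_self]; exact he
      | 1, _, _, hz, hz' =>
        obtain ⟨y1, ⟨rfl, h3⟩, h4, _⟩ := hz
        obtain ⟨y1', ⟨rfl, h3'⟩, h4', _⟩ := hz'
        apply h2 _ (hS _ _ h3 h3')
        have := K.tri z y z'
        rw [h4, K.c_symm y z', h4'] at this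
        exact this
      | n + 2, ih, hn, hz, hz' =>
        obtain ⟨y1, h3, h4, _⟩ := hz
        obtain ⟨y1', h3', h4', _⟩ := hz'
        obtain ⟨v, hv1, hv2, hv3⟩ := K.Chain_pred w β c0 n (hβ n (by omega)) y1 y1'
          (K.Chain_end w β c0 _ _ _ h3) (K.Chain_end w β c0 _ _ _ h3') (by
            have := K.tri y y1 y1'
            rw [K.c_symm y y1, h4, K.c_symm y y1', h4'] at this
            exact this)
        obtain ⟨z'', hz''⟩ := K.Chain_exists w β c0 m0 hβ n (by omega) v hv1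
        have h5 := ih (n + 1) (by omega) (by omega) z z'' y1 h3
          ⟨v, hz'', hv2, K.Chain_end w β c0 _ _ _ h3⟩
        have h6 := ih (n + 1) (by omega) (by omega) z'' z' y1'
          ⟨v, hz'', hv3, K.Chain_end w β c0 _ _ _ h3'⟩ h3'
        exact hθ _ _ _ h5 h6 (hS _ _ (K.Chain_start w β c0 _ _ _ h3)
          (K.Chain_start w β c0 _ _ _ h3')) (K.tri _ _ _)
  -- the chain given by `β`
  have hchain : ∀ n, n ≤ m0 → K.Chain w β c0 n b' (β n) := by
    intro n
    induction n with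
    | zero => intro _; exact ⟨hβ0.symm, fun _ => rfl⟩
    | succ n ih => intro hn; exact ⟨β n, ih (by omega), hβ n (by omega), fun _ => rfl⟩
  have h3 := hchain m0 le_rfl
  rw [hβm] at h3
  -- the end class
  by_contra hcon
  obtain ⟨z', hz'⟩ := K.ep' (ι := ι ⊕ Bool) (Sum.elim w (fun i => cond i b b'))
    (Sum.elim (fun i => K.c b (w i)) (fun _ => f0)) (by
      rintro (i | i | i) (j | j | j) <;>
      simp only [Sum.elim_inl, Sum.elim_inr, cond_true, cond_false, K.c_self]
      · exact K.tri _ _ _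
      · rw [K.c_symm (w i), hb'w]; exact K.T_rot (hf0 i)
      · rw [K.c_symm (w i)]; exact K.T_rot (hf0 i)
      · rw [hb'w]; exact K.T_rev (K.T_rot (hf0 j))
      · exact K.T_pep _
      · rw [hb'f]; exact h1 _
      · exact K.T_rev (K.T_rot (hf0 j))
      · rw [K.c_symm, hb'f]; exact h1 _
      · exact K.T_pep _)
  have hz'w : ∀ i, K.c z' (w i) = K.c b (w i) := fun i => hz' (Sum.inl i)
  have hz'b : K.c z' b = f0 := hz' (Sum.inr true)
  have hz'b' : K.c z' b' = f0 := hz' (Sum.inr false)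
  have h4 := K.Chain_color w β c0 m0 b' b z' b (fun i => by rw [hz'w, hb'w]) (fun _ => rfl)
    (by rw [hz'b, hb'f]) h3
  have h5 := claim m0 le_rfl b' z' b h3 h4
  rw [K.c_symm, hz'b'] at h5
  exact hcon h5

theorem sap (K : Core C B) [Finite C] (hP : K.Prim) (h1 : K.OneCyc) (hB : ∃ x y : B, x ≠ y)
    {ι : Type w} [Finite ι] (w : ι → B) (b : B) (hb : ∀ i, b ≠ w i) :
    ∃ b', b' ≠ b ∧ ∀ i, K.c b' (w i) = K.c b (w i) := by
  classical
  have key : ∀ F : Finset ι, ∃ b', b' ≠ b ∧ ∀ i ∈ F, K.c b' (w i) = K.c b (w i) := by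
    intro F
    induction F using Finset.induction_on with
    | empty =>
      obtain ⟨x, y, hxy⟩ := hB
      by_cases hx : x = b
      · exact ⟨y, fun h => hxy (hx.trans h.symm), by simp⟩
      · exact ⟨x, hx, by simp⟩
    | insert a F ha ih =>
      obtain ⟨b1, hb1, hb1'⟩ := ih
      by_contra hcon
      push Not at hcon
      have h3 := K.path_lemma hP h1 (ι := {i // i ∈ F}) (fun i => w i.1) b {K.e} rfl
        (by
          intro g1 g2 g3 hg1 hg2 _ hT
          simp only [Set.mem_singleton_iff] at hg1 hg2 ⊢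
          subst hg1; subst hg2
          exact (K.T_e hT).symm)
        (K.c b (w a)) (fun h => hb a ((K.c_eq _ _).1 h))
        (by
          intro g hg hT
          by_contra hge
          obtain ⟨b2, hb2⟩ := K.ep' (ι := Option {i // i ∈ insert a F})
            (fun i => i.elim b (fun i => w i.1))
            (fun i => i.elim g (fun i => K.c b (w i.1))) (by
              have hg' : ∀ i : {i // i ∈ insert a F}, K.T (K.c b (w i.1)) g (K.c b (w i.1)) := by
                rintro ⟨i, hi⟩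
                rcases Finset.mem_insert.1 hi with rfl | hi
                · exact K.T_rot hT
                · exact hg ⟨i, hi⟩
              rintro (_ | i) (_ | j) <;> simp only [Option.elim, K.c_self]
              · exact K.T_pep _
              · exact K.T_swap (hg' j)
              · rw [K.c_symm (w i.1) b]; exact K.T_rot (hg' i)
              · exact K.tri _ _ _)
          have hb2b : b2 ≠ b := by
            intro h
            have := hb2 none
            simp only [Option.elim] at this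
            rw [h, K.c_self] at this
            exact hge this.symm
          obtain ⟨i, hi, hne⟩ := hcon b2 hb2b
          exact hne (hb2 (some ⟨i, hi⟩)))
      have h4 := h3 (K.c b1 b) (by
        rintro ⟨i, hi⟩
        have := K.tri (w i) b1 b
        rw [K.c_symm (w i) b1, hb1' i hi, K.c_symm (w i) b] at this
        exact this)
      exact hb1 ((K.c_eq _ _).1 h4)
  cases nonempty_fintype ι
  obtain ⟨b', h3, h4⟩ := key Finset.univ
  exact ⟨b', h3, fun i => h4 i (Finset.mem_univ i)⟩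

theorem lp (K : Core C B) [Finite C] (hP : K.Prim) (h1 : K.OneCyc) (γ : C)
    (hγ : ∃ x y, K.c x y = γ) (θ : Set C) (he : K.e ∈ θ)
    (hθ : ∀ g1 g2 g3, g1 ∈ θ → g2 ∈ θ → K.T γ g3 γ → K.T g1 g2 g3 → g3 ∈ θ)
    (t : C) (ht : t ≠ K.e) (htθ : t ∈ θ) :
    ∀ g, K.T γ g γ → g ∈ θ := by
  obtain ⟨x, y, rfl⟩ := hγ
  intro g hg
  exact K.path_lemma hP h1 (ι := Unit) (fun _ => y) x θ he
    (fun g1 g2 g3 h3 h4 h5 h6 => hθ g1 g2 g3 h3 h4 (h5 ()) h6) t ht
    (fun g h3 h4 => hθ t t g htθ htθ (h3 ()) h4) g (fun _ => hg)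

theorem emb_avoid (K : Core C B) [Finite C] [Countable B] (hP : K.Prim) (h1 : K.OneCyc)
    (hB : ∃ x y : B, x ≠ y) {ι : Type w} [Finite ι] (w w' : ι → B)
    (h : ∀ i j, K.c (w' i) (w' j) = K.c (w i) (w j)) (v : B) (hv : ∀ i, w' i ≠ v) :
    ∃ f : B → B, (∀ x y, K.c (f x) (f y) = K.c x y) ∧ (∀ i, f (w i) = w' i) ∧ ∀ x, f x ≠ v := by
  classical
  cases nonempty_fintype ι
  let φ0 : B → B := fun x => if hx : ∃ i, w i = x then w' hx.choose else x
  have hφ0 : ∀ i, φ0 (w i) = w' i := by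
    intro i
    have hx : ∃ j, w j = w i := ⟨i, rfl⟩
    have h1 : φ0 (w i) = w' hx.choose := by simp only [φ0]; rw [dif_pos hx]
    rw [h1, ← K.c_eq, h, K.c_eq]
    exact hx.choose_spec
  obtain ⟨φ, h2, h3, h4⟩ := K.realize (W := B) (fun x y => K.c x y)
    ⟨K.c_self, K.c_symm, K.tri⟩ (fun x => x ≠ v) (by
      intro n w hw b
      by_cases hbv : b = v
      · subst hbv
        obtain ⟨b', h5, h6⟩ := K.sap hP h1 hB w b (fun i => (hw i).symm)
        exact ⟨b', h5, h6⟩
      · exact ⟨b, hbv, fun _ => rfl⟩)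
    (Finset.univ.image w) φ0 (by
      intro x hx
      obtain ⟨i, -, rfl⟩ := Finset.mem_image.1 hx
      rw [hφ0]; exact hv i) (by
      intro x hx y hy
      obtain ⟨i, -, rfl⟩ := Finset.mem_image.1 hx
      obtain ⟨j, -, rfl⟩ := Finset.mem_image.1 hy
      rw [hφ0, hφ0]; exact h i j)
  refine ⟨φ, h4, fun i => ?_, h3⟩
  rw [h2 _ (Finset.mem_image_of_mem _ (Finset.mem_univ i)), hφ0]

end Core

end Pool.Agent.H127_SB
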