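import Mathlib
import Pool.Agent.H127_SB.Path

/-!
The hardness lemma: affine action on two colours contradicts solvability by consistency (helper127).
-/

namespace Pool.Agent.H127_SB

universe u v w

variable {C : Type u} {B : Type v}

namespace Core

open Classical in
/-- Indicator of the colour `t`. -/
noncomputable def ind (K : Core C B) (t : C) (x y : B) : ZMod 2 := if K.c x y = t then 1 else 0

/-- `f` acts on `{s, t}` as an idempotent affine map. -/
def AffOn (K : Core C B) (s t : C) {n : ℕ} (f : (Fin n → B) → B) : Prop :=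
  ∃ S : Finset (Fin n), (S.card : ZMod 2) = 1 ∧ ∀ X Y : Fin n → B, K.In2 s t X Y →
    K.ind t (f X) (f Y) = ∑ i ∈ S, K.ind t (X i) (Y i)

/-- A gadget forcing the parity `ε`. -/
theorem gadget (K : Core C B) [Finite C] [Countable B] (s t : C) (hst : s ≠ t)
    (h : ∀ (n : ℕ) (f : (Fin n → B) → B), K.Cons f → K.AffOn s t f)
    (J : Type) [Fintype J] (ε : ZMod 2) :
    ∃ (m : ℕ) (L : Fin m → Fin m → Set C) (base : J → Bool → Fin m),
      (∀ g : J → Bool → B, (∀ j, K.c (g j false) (g j true) = s ∨ K.c (g j false) (g j true) = t) →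
        (∑ j, K.ind t (g j false) (g j true) = ε) →
        ∃ φ : Fin m → B, (∀ x y, K.c (φ x) (φ y) ∈ L x y) ∧ ∀ j b, φ (base j b) = g j b) ∧
      (∀ φ : Fin m → B, (∀ x y, K.c (φ x) (φ y) ∈ L x y) →
        (∀ j, K.c (φ (base j false)) (φ (base j true)) = s ∨
          K.c (φ (base j false)) (φ (base j true)) = t) ∧
        ∑ j, K.ind t (φ (base j false)) (φ (base j true)) = ε) := by
  classical
  -- good assignments and their types
  let Ok : (J × Bool → B) → Prop := fun g =>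
    (∀ j, K.c (g (j, false)) (g (j, true)) = s ∨ K.c (g (j, false)) (g (j, true)) = t) ∧
    ∑ j, K.ind t (g (j, false)) (g (j, true)) = ε
  let Θ := {τ : (J × Bool) → (J × Bool) → C // ∃ g : J × Bool → B, (∀ x y, K.c (g x) (g y) = τ x y) ∧ Ok g}
  have : Finite Θ := Subtype.finite
  obtain ⟨N, ⟨eqv⟩⟩ := Finite.exists_equiv_fin Θ
  choose gs0 hgs1 hgs2 using fun i : Θ => i.2
  let gs : Fin N → (J × Bool → B) := fun i => gs0 (eqv.symm i)
  have hgsOk : ∀ i, Ok (gs i) := fun i => hgs2 _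
  have hgsAll : ∀ g, Ok g → ∃ i, ∀ x y, K.c (gs i x) (gs i y) = K.c (g x) (g y) := by
    intro g hg
    refine ⟨eqv ⟨fun x y => K.c (g x) (g y), g, fun _ _ => rfl, hg⟩, fun x y => ?_⟩
    simp only [gs, Equiv.symm_apply_apply]
    exact hgs1 _ x y
  let Pt : J × Bool → (Fin N → B) := fun x i => gs i x
  let F0 : Finset (Fin N → B) := Finset.univ.image Pt
  let Λ : (Fin N → B) → (Fin N → B) → Set C := fun X Y => {γ | ∃ i, γ = K.c (X i) (Y i)}
  have hPt : ∀ x, Pt x ∈ F0 := fun x => Finset.mem_image_of_mem _ (Finset.mem_univ _)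
  -- some finite set forces the parity
  have main : ∃ F : Finset (Fin N → B), F0 ⊆ F ∧ ∀ φ : (Fin N → B) → B,
      (∀ X ∈ F, ∀ Y ∈ F, K.c (φ X) (φ Y) ∈ Λ X Y) →
      ∑ j, K.ind t (φ (Pt (j, false))) (φ (Pt (j, true))) = ε := by
    by_contra hcon
    push Not at hcon
    obtain ⟨f, hf1, hf2⟩ := K.sat_of_finite Λ F0
      (fun D => ∑ j, (if D (Pt (j, false)) (Pt (j, true)) = t then (1 : ZMod 2) else 0) ≠ ε)
      (by
        intro D D' hDD hD
        have : ∀ j, D' (Pt (j, false)) (Pt (j, true)) = D (Pt (j, false)) (Pt (j, true)) :=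
          fun j => (hDD _ (hPt _) _ (hPt _)).symm
        simpa only [this] using hD)
      (by
        intro F hF
        obtain ⟨φ, h1, h2⟩ := hcon F hF
        exact ⟨φ, h1, h2⟩)
    apply hf2
    obtain ⟨S, hS, hfS⟩ := h N f (fun X Y => hf1 X Y)
    have h3 : ∀ j, (if K.c (f (Pt (j, false))) (f (Pt (j, true))) = t then (1 : ZMod 2) else 0) =
        ∑ i ∈ S, K.ind t (gs i (j, false)) (gs i (j, true)) := by
      intro j
      have := hfS (Pt (j, false)) (Pt (j, true)) (fun i => (hgsOk i).1 j)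
      simpa only [ind] using this
    simp only [h3]
    rw [Finset.sum_comm]
    rw [Finset.sum_congr rfl (fun i _ => (hgsOk i).2)]
    rw [Finset.sum_const, nsmul_eq_mul, hS, one_mul]
  obtain ⟨F, hF0, hF⟩ := main
  let E : F ≃ Fin F.card := F.equivFin
  refine ⟨F.card, fun x y => Λ (E.symm x).1 (E.symm y).1, fun j b => E ⟨Pt (j, b), hF0 (hPt _)⟩,
    ?_, ?_⟩
  · intro g hg1 hg2
    obtain ⟨i, hi⟩ := hgsAll (fun x => g x.1 x.2) ⟨hg1, hg2⟩
    obtain ⟨w', h1, h2⟩ := K.fh (V := Fin F.card ⊕ (J × Bool)) (Set.range Sum.inr)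
      (Sum.elim (fun x => (E.symm x).1 i) (fun x => gs i x))
      (Sum.elim (fun x => (E.symm x).1 i) (fun x => g x.1 x.2)) (by
        rintro _ ⟨x, rfl⟩ _ ⟨y, rfl⟩
        simp only [Sum.elim_inr]
        exact (hi x y).symm)
    refine ⟨fun x => w' (Sum.inl x), fun x y => ?_, fun j b => ?_⟩
    · refine ⟨i, ?_⟩
      exact h2 (Sum.inl x) (Sum.inl y)
    · have h3 := h2 (Sum.inl (E ⟨Pt (j, b), hF0 (hPt _)⟩)) (Sum.inr (j, b))
      simp only [Sum.elim_inl, Sum.elim_inr, Equiv.symm_apply_apply] at h3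
      have h4 : K.c (Pt (j, b) i) (gs i (j, b)) = K.e := K.c_self _
      rw [h4, K.c_eq] at h3
      show w' (Sum.inl (E ⟨Pt (j, b), hF0 (hPt _)⟩)) = g j b
      rw [h3, h1 _ ⟨_, rfl⟩]
      rfl
  · intro φ hφ
    let φ' : (Fin N → B) → B := fun X => if hX : X ∈ F then φ (E ⟨X, hX⟩) else Classical.choice K.nonempty
    have hφ' : ∀ X (hX : X ∈ F), φ' X = φ (E ⟨X, hX⟩) := by
      intro X hX
      simp only [φ', hX, dif_pos]
    have h1 := hF φ' (by
      intro X hX Y hY
      rw [hφ' X hX, hφ' Y hY]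
      have := hφ (E ⟨X, hX⟩) (E ⟨Y, hY⟩)
      simpa only [Equiv.symm_apply_apply] using this)
    constructor
    · intro j
      have := hφ (E ⟨Pt (j, false), hF0 (hPt _)⟩) (E ⟨Pt (j, true), hF0 (hPt _)⟩)
      simp only [Equiv.symm_apply_apply] at this
      obtain ⟨i, hi⟩ := this
      rw [hi]
      exact (hgsOk i).1 j
    · rw [← h1]
      apply Finset.sum_congr rfl
      intro j _
      rw [hφ' _ (hF0 (hPt _)), hφ' _ (hF0 (hPt _))]

theorem sum_symm_zero {V : Type} [Fintype V] [DecidableEq V] (F : V → V → ZMod 2)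
    (h1 : ∀ v w, F v w = F w v) (h2 : ∀ v, F v v = 0) : ∑ v, ∑ w, F v w = 0 := by
  rw [← Finset.sum_product' (s := Finset.univ) (t := Finset.univ) (f := F)]
  apply Finset.sum_involution (fun (p : V × V) _ => (p.2, p.1))
  · intro p _
    rw [h1 p.2 p.1]
    exact CharTwo.add_self_eq_zero _
  · intro p _ hp heq
    apply hp
    have : p.2 = p.1 := congrArg Prod.fst heq
    rw [← this]
    exact h2 _
  · intro p _; exact Finset.mem_univ _
  · intro p _; rfl

/-- Admissible edge pairs with a parity defect exactly at `v0`. -/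
structure Conf (K : Core C B) (s t : C) {V : Type} [Fintype V] [DecidableEq V] (o : V) (v0 : V)
    (g : V → V → Bool → B) : Prop where
  symm : ∀ v w b, g v w b = g w v b
  col : ∀ v w, K.c (g v w false) (g v w true) = s ∨ K.c (g v w false) (g v w true) = t
  right : ∀ v, v ≠ v0 → ∑ w ∈ Finset.univ.erase v, K.ind t (g v w false) (g v w true) =
    if v = o then 1 else 0
  wrong : ∑ w ∈ Finset.univ.erase v0, K.ind t (g v0 w false) (g v0 w true) ≠
    if v0 = o then 1 else 0

theorem conf_flip (K : Core C B) (s t : C) (hst : s ≠ t)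
    (hs : ∃ x y, K.c x y = s) (ht : ∃ x y, K.c x y = t)
    {V : Type} [Fintype V] [DecidableEq V] (o v0 v1 : V) (hv : v1 ≠ v0)
    (g : V → V → Bool → B) (hg : K.Conf s t o v0 g) :
    ∃ g', K.Conf s t o v1 g' ∧ ∀ v w, ¬ (v = v0 ∧ w = v1) → ¬ (v = v1 ∧ w = v0) →
      g' v w = g v w := by
  classical
  -- a pair of the other colour
  obtain ⟨p, hp, hp'⟩ : ∃ p : Bool → B, (K.c (p false) (p true) = s ∨ K.c (p false) (p true) = t) ∧
      K.ind t (p false) (p true) = K.ind t (g v0 v1 false) (g v0 v1 true) + 1 := by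
    obtain ⟨xs, ys, hxs⟩ := hs
    obtain ⟨xt, yt, hxt⟩ := ht
    by_cases h : K.c (g v0 v1 false) (g v0 v1 true) = t
    · refine ⟨fun b => cond b ys xs, Or.inl hxs, ?_⟩
      simp only [ind, cond_true, cond_false, hxs, h, if_true, if_neg hst]
      decide
    · refine ⟨fun b => cond b yt xt, Or.inr hxt, ?_⟩
      simp only [ind, cond_true, cond_false, hxt, h, if_true, if_false]
      decide
  let g' : V → V → Bool → B := fun v w => if (v = v0 ∧ w = v1) ∨ (v = v1 ∧ w = v0) then p else g v w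
  have hg'1 : ∀ v w, ¬ (v = v0 ∧ w = v1) → ¬ (v = v1 ∧ w = v0) → g' v w = g v w := by
    intro v w h1 h2
    simp only [g']
    rw [if_neg]
    tauto
  have hg'2 : g' v0 v1 = p := if_pos (Or.inl ⟨rfl, rfl⟩)
  have hg'3 : g' v1 v0 = p := if_pos (Or.inr ⟨rfl, rfl⟩)
  have hflip : ∀ a b, a ≠ b → g' a b = p → g a b = g v0 v1 → (∀ w, w ≠ b → g' a w = g a w) →
      ∑ w ∈ Finset.univ.erase a, K.ind t (g' a w false) (g' a w true) =
      ∑ w ∈ Finset.univ.erase a, K.ind t (g a w false) (g a w true) + 1 := by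
    intro a b hab h1 h2 h3
    have hb : b ∈ Finset.univ.erase a := Finset.mem_erase.2 ⟨hab.symm, Finset.mem_univ _⟩
    rw [← Finset.add_sum_erase _ _ hb, ← Finset.add_sum_erase (Finset.univ.erase a)
      (fun w => K.ind t (g a w false) (g a w true)) hb]
    have h4 : ∑ w ∈ (Finset.univ.erase a).erase b, K.ind t (g' a w false) (g' a w true) =
        ∑ w ∈ (Finset.univ.erase a).erase b, K.ind t (g a w false) (g a w true) := by
      apply Finset.sum_congr rfl
      intro w hw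
      rw [h3 w (Finset.ne_of_mem_erase hw)]
    rw [h4, h1, hp', h2]
    ring
  refine ⟨g', ⟨?_, ?_, ?_, ?_⟩, hg'1⟩
  · intro v w b
    simp only [g']
    by_cases h1 : (v = v0 ∧ w = v1) ∨ (v = v1 ∧ w = v0)
    · rw [if_pos h1, if_pos (by tauto)]
    · rw [if_neg h1, if_neg (by tauto)]
      exact hg.symm v w b
  · intro v w
    simp only [g']
    split_ifs
    · exact hp
    · exact hg.col v w
  · intro v hvv
    by_cases hv0 : v = v0
    · subst hv0
      rw [hflip v v1 hv.symm hg'2 rfl (fun w hw => hg'1 v w (fun h => hw h.2) (fun h => hvv h.1))]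
      have := hg.wrong
      generalize (∑ w ∈ Finset.univ.erase v, K.ind t (g v w false) (g v w true)) = a at this ⊢
      generalize (if v = o then (1 : ZMod 2) else 0) = b at this ⊢
      revert a b
      decide
    · have : ∀ w, g' v w = g v w := fun w => hg'1 v w (fun h => hv0 h.1) (fun h => hvv h.1)
      simp only [this]
      exact hg.right v hv0
  · rw [hflip v1 v0 hv hg'3 (funext fun b => hg.symm _ _ _)
      (fun w hw => hg'1 v1 w (fun h => hv h.1) (fun h => hw h.2))]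
    rw [hg.right v1 hv]
    generalize (if v1 = o then (1 : ZMod 2) else 0) = b
    revert b
    decide

theorem key (K : Core C B) [Finite C] [Countable B] (s t : C) (hst : s ≠ t)
    (hs : ∃ x y, K.c x y = s) (ht : ∃ x y, K.c x y = t)
    (h : ∀ (n : ℕ) (f : (Fin n → B) → B), K.Cons f → K.AffOn s t f) : ¬ K.Solved := by
  classical
  rintro ⟨k, l, hkl, hsol⟩
  -- the vertices
  let n := 2 * l + 2
  let V := Fin n
  let o : V := ⟨0, by omega⟩
  choose m L base hG1 hG2 using fun v : V =>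
    K.gadget s t hst h {w : V // w ≠ v} (if v = o then 1 else 0)
  have hsum : ∀ (v : V) (f : V → ZMod 2), ∑ w : {w : V // w ≠ v}, f w.1 =
      ∑ w ∈ Finset.univ.erase v, f w := by
    intro v f
    rw [Finset.sum_subtype (Finset.univ.erase v) (p := fun w => w ≠ v) (by simp)]
  let X := Σ v : V, Fin (m v)
  let LX : X → X → Set C := fun p q => {γ |
    (∀ (v : V) (x y : Fin (m v)), p = ⟨v, x⟩ → q = ⟨v, y⟩ → γ ∈ L v x y) ∧
    (∀ (v w : V) (hw : w ≠ v) (hv : v ≠ w) (b : Bool), p = ⟨v, base v ⟨w, hw⟩ b⟩ →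
      q = ⟨w, base w ⟨v, hv⟩ b⟩ → γ = K.e)}
  let H : Finset X → Set (X → B) := fun W => {φ | ∃ v0 : V, (∀ x ∈ W, x.1 ≠ v0) ∧
    ∃ g : V → V → Bool → B, K.Conf s t o v0 g ∧ ∀ v, v ≠ v0 →
      (∀ x y, K.c (φ ⟨v, x⟩) (φ ⟨v, y⟩) ∈ L v x y) ∧
      ∀ (w : V) (hw : w ≠ v) (b : Bool), φ ⟨v, base v ⟨w, hw⟩ b⟩ = g v w b}
  -- unsatisfiability
  have hunsat : ¬ ∃ φ : X → B, ∀ x y, K.c (φ x) (φ y) ∈ LX x y := by
    rintro ⟨φ, hφ⟩
    have h1 : ∀ v : V, ∀ x y, K.c (φ ⟨v, x⟩) (φ ⟨v, y⟩) ∈ L v x y := by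
      intro v x y
      exact (hφ ⟨v, x⟩ ⟨v, y⟩).1 v x y rfl rfl
    have h2 : ∀ (v w : V) (hw : w ≠ v) (hv : v ≠ w) (b : Bool),
        φ ⟨v, base v ⟨w, hw⟩ b⟩ = φ ⟨w, base w ⟨v, hv⟩ b⟩ := by
      intro v w hw hv b
      rw [← K.c_eq]
      exact (hφ ⟨v, base v ⟨w, hw⟩ b⟩ ⟨w, base w ⟨v, hv⟩ b⟩).2 v w hw hv b rfl rfl
    let F : V → V → ZMod 2 := fun v w => if hw : w ≠ v then
      K.ind t (φ ⟨v, base v ⟨w, hw⟩ false⟩) (φ ⟨v, base v ⟨w, hw⟩ true⟩) else 0
    have hF1 : ∀ v w, F v w = F w v := by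
      intro v w
      by_cases hvw : w = v
      · subst hvw; rfl
      · have hvw' : v ≠ w := fun h => hvw h.symm
        simp only [F]
        rw [dif_pos hvw, dif_pos hvw', h2 v w hvw hvw' false, h2 v w hvw hvw' true]
    have hF2 : ∀ v, F v v = 0 := by intro v; simp [F]
    have hF3 : ∀ v : V, ∑ w, F v w = if v = o then 1 else 0 := by
      intro v
      have h3 := (hG2 v (fun x => φ ⟨v, x⟩) (h1 v)).2
      rw [← h3, ← Finset.add_sum_erase Finset.univ (F v) (Finset.mem_univ v), hF2, zero_add,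
        ← hsum]
      apply Finset.sum_congr rfl
      intro w _
      simp only [F]
      rw [dif_pos w.2]
    have h4 := sum_symm_zero F hF1 hF2
    simp only [hF3] at h4
    rw [Finset.sum_ite_eq' Finset.univ o (fun _ => (1 : ZMod 2))] at h4
    simp at h4
  apply hunsat
  -- avoiding vertices
  have havoid : ∀ S : Finset V, S.card < n → ∃ v, v ∉ S := by
    intro S hS
    by_contra hcon
    push Not at hcon
    have : S = Finset.univ := Finset.eq_univ_iff_forall.2 hcon
    rw [this, Finset.card_univ, Fintype.card_fin] at hS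
    omega
  -- the configuration with all colours `s`
  have hconf : ∀ v0 : V, ∃ g, K.Conf s t o v0 g := by
    obtain ⟨xs, ys, hxs⟩ := id hs
    have h0 : K.Conf s t o o (fun _ _ b => cond b ys xs) := by
      refine ⟨fun _ _ _ => rfl, fun _ _ => Or.inl hxs, ?_, ?_⟩
      · intro v hv
        rw [if_neg hv]
        apply Finset.sum_eq_zero
        intro w _
        simp only [ind, cond_true, cond_false, hxs]
        rw [if_neg hst]
      · rw [if_pos rfl, Finset.sum_eq_zero]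
        · decide
        · intro w _
          simp only [ind, cond_true, cond_false, hxs]
          rw [if_neg hst]
    intro v0
    by_cases hv0 : v0 = o
    · subst hv0; exact ⟨_, h0⟩
    · obtain ⟨g', h1, _⟩ := K.conf_flip s t hst hs ht o o v0 hv0 _ h0
      exact ⟨g', h1⟩
  refine hsol X LX H ?_ ?_ ?_
  · -- nonempty
    intro W hW
    obtain ⟨v0, hv0⟩ := havoid (W.image (fun x => x.1)) (by
      have := Finset.card_image_le (s := W) (f := fun x => x.1)
      omega)
    obtain ⟨g, hg⟩ := hconf v0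
    have hsolv : ∀ v : V, ∃ φ : Fin (m v) → B, v ≠ v0 → (∀ x y, K.c (φ x) (φ y) ∈ L v x y) ∧
        ∀ (w : V) (hw : w ≠ v) (b : Bool), φ (base v ⟨w, hw⟩ b) = g v w b := by
      intro v
      by_cases hv : v = v0
      · exact ⟨fun _ => Classical.choice K.nonempty, fun h => absurd hv h⟩
      · obtain ⟨φ, h1, h2⟩ := hG1 v (fun w => g v w.1) (fun w => hg.col v w.1) (by
          rw [hsum v (fun w => K.ind t (g v w false) (g v w true))]
          exact hg.right v hv)
        exact ⟨φ, fun _ => ⟨h1, fun w hw b => h2 ⟨w, hw⟩ b⟩⟩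
    choose φ hφ using hsolv
    refine ⟨fun x => φ x.1 x.2, v0, ?_, g, hg, fun v hv => hφ v hv⟩
    intro x hx hxv
    exact hv0 (Finset.mem_image.2 ⟨x, hx, hxv⟩)
  · -- partial solutions
    rintro W hW φ ⟨v0, hv0, g, hg, hφ⟩ x hx y hy
    constructor
    · rintro v x' y' rfl rfl
      exact (hφ v (hv0 _ hx)).1 x' y'
    · rintro v w hw hv b rfl rfl
      rw [K.c_eq, (hφ v (hv0 _ hx)).2 w hw b, (hφ w (hv0 _ hy)).2 v hv b]
      exact hg.symm v w b
  · -- forth
    rintro W W' U hW hW' hUW hUW' hU φ ⟨v0, hv0, g, hg, hφ⟩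
    by_cases hv0' : ∀ x ∈ W', x.1 ≠ v0
    · exact ⟨φ, ⟨v0, hv0', g, hg, hφ⟩, fun _ _ => rfl⟩
    obtain ⟨v1, hv1⟩ := havoid (insert v0 ((W ∪ W').image (fun x => x.1))) (by
      have h1 := Finset.card_insert_le v0 ((W ∪ W').image (fun x => x.1))
      have h2 := Finset.card_image_le (s := W ∪ W') (f := fun x => x.1)
      have h3 := Finset.card_union_le W W'
      omega)
    rw [Finset.mem_insert, not_or] at hv1
    obtain ⟨hv10, hv1⟩ := hv1
    have hv1W : ∀ x ∈ W ∪ W', x.1 ≠ v1 := by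
      intro x hx hxv
      exact hv1 (Finset.mem_image.2 ⟨x, hx, hxv⟩)
    obtain ⟨g', hg', hgg'⟩ := K.conf_flip s t hst hs ht o v0 v1 hv10 g hg
    obtain ⟨ψ, hψ1, hψ2⟩ := hG1 v0 (fun w => g' v0 w.1) (fun w => hg'.col v0 w.1) (by
      rw [hsum v0 (fun w => K.ind t (g' v0 w false) (g' v0 w true))]
      exact hg'.right v0 (Ne.symm hv10))
    let φ' : X → B := fun x => if hx : x.1 = v0 then ψ (hx ▸ x.2) else φ x
    have hφ'0 : ∀ x : Fin (m v0), φ' ⟨v0, x⟩ = ψ x := by
      intro x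
      exact dif_pos rfl
    have hφ'1 : ∀ (v : V) (x : Fin (m v)), v ≠ v0 → φ' ⟨v, x⟩ = φ ⟨v, x⟩ := by
      intro v x hv
      exact dif_neg hv
    refine ⟨φ', ⟨v1, fun x hx => hv1W x (Finset.mem_union_right _ hx), g', hg', ?_⟩, ?_⟩
    · intro v hv
      by_cases hvv : v = v0
      · subst hvv
        refine ⟨fun x y => ?_, fun w hw b => ?_⟩
        · rw [hφ'0, hφ'0]; exact hψ1 x y
        · rw [hφ'0]; exact hψ2 ⟨w, hw⟩ b
      · refine ⟨fun x y => ?_, fun w hw b => ?_⟩
        · rw [hφ'1 v x hvv, hφ'1 v y hvv]; exact (hφ v hvv).1 x y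
        · rw [hφ'1 v _ hvv, (hφ v hvv).2 w hw b, hgg' v w (fun h => hvv h.1) (fun h => hv h.1)]
    · rintro ⟨v, x⟩ hx
      exact hφ'1 v x (hv0 _ (hUW hx))

end Core

end Pool.Agent.H127_SB
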