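import Mathlib
import Pool.Agent.H127_SB.Key

/-!
Boolean part: canonical, no semilattice, no majority implies affine (helper127).
-/

namespace Pool.Agent.H127_SB

universe u v w

variable {C : Type u} {B : Type v}

namespace Core

open Classical in
/-- `f` acts on `{s, t}` as the Boolean function `α` (`t` is `true`). -/
def Act (K : Core C B) (s t : C) {ι : Type*} (f : (ι → B) → B) (α : (ι → Bool) → Bool) : Prop :=
  ∀ X Y : ι → B, K.In2 s t X Y →
    (K.c (f X) (f Y) = t ↔ α (fun i => decide (K.c (X i) (Y i) = t)) = true)

theorem cons_in2 (K : Core C B) (s t : C) {ι : Type*} (f : (ι → B) → B) (hf : K.Cons f)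
    (X Y : ι → B) (h : K.In2 s t X Y) : K.c (f X) (f Y) = s ∨ K.c (f X) (f Y) = t := by
  obtain ⟨i, hi⟩ := hf X Y
  rw [hi]; exact h i

theorem act_not (K : Core C B) (s t : C) (hst : s ≠ t) {ι : Type*} (f : (ι → B) → B)
    (hf : K.Cons f) (α : (ι → Bool) → Bool) (hα : K.Act s t f α) (X Y : ι → B)
    (h : K.In2 s t X Y) :
    (K.c (f X) (f Y) = s ↔ α (fun i => @decide (K.c (X i) (Y i) = t) (Classical.propDecidable _)) = false) := by
  have h1 := hα X Y h
  rcases K.cons_in2 s t f hf X Y h with h2 | h2
  · constructor
    · intro _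
      by_contra h3
      rw [Bool.not_eq_false] at h3
      exact hst (h2.symm.trans (h1.2 h3))
    · intro _; exact h2
  · constructor
    · intro h3; exact absurd (h3.symm.trans h2) hst
    · intro h3
      rw [h1.1 h2] at h3
      exact absurd h3 (by decide)

theorem act_exists (K : Core C B) (s t : C) (hst : s ≠ t)
    (hs : ∃ x y, K.c x y = s) (ht : ∃ x y, K.c x y = t) {n : ℕ} (f : (Fin n → B) → B)
    (hc : K.CanonOn s t f) : ∃ α, K.Act s t f α := by
  classical
  obtain ⟨xs, ys, hxs⟩ := hs
  obtain ⟨xt, yt, hxt⟩ := ht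
  refine ⟨fun u => decide (K.c (f (fun i => cond (u i) xt xs)) (f (fun i => cond (u i) yt ys)) = t),
    fun X Y hXY => ?_⟩
  rw [decide_eq_true_iff]
  have h1 : K.c (f X) (f Y) = K.c (f (fun i => cond (decide (K.c (X i) (Y i) = t)) xt xs))
      (f (fun i => cond (decide (K.c (X i) (Y i) = t)) yt ys)) := by
    apply hc _ _ _ _ hXY
    intro i
    rcases hXY i with h | h
    · rw [h]
      simp only [hst, decide_false, cond_false, hxs]
    · rw [h]
      simp only [decide_true, cond_true, hxt]
  rw [h1]

theorem act_minor (K : Core C B) (s t : C) {ι κ : Type*} (f : (ι → B) → B)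
    (α : (ι → Bool) → Bool) (hα : K.Act s t f α) (r : ι → κ) :
    K.Act s t (fun Z : κ → B => f (fun i => Z (r i))) (fun u => α (fun i => u (r i))) := by
  intro X Y hXY
  exact hα _ _ (fun i => hXY (r i))

theorem cons_minor (K : Core C B) {ι κ : Type*} (f : (ι → B) → B) (hf : K.Cons f) (r : ι → κ) :
    K.Cons (fun Z : κ → B => f (fun i => Z (r i))) := by
  intro X Y
  obtain ⟨i, hi⟩ := hf (fun i => X (r i)) (fun i => Y (r i))
  exact ⟨r i, hi⟩

theorem cons_comp (K : Core C B) {ι κ : Type*} (f : (κ → B) → B) (hf : K.Cons f)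
    (g : κ → (ι → B) → B) (hg : ∀ k, K.Cons (g k)) : K.Cons (fun Z : ι → B => f (fun k => g k Z)) := by
  intro X Y
  obtain ⟨k, hk⟩ := hf (fun k => g k X) (fun k => g k Y)
  obtain ⟨i, hi⟩ := hg k X Y
  exact ⟨i, hk.trans hi⟩

theorem cons_proj (K : Core C B) {ι : Type*} (i : ι) : K.Cons (fun Z : ι → B => Z i) :=
  fun _ _ => ⟨i, rfl⟩

theorem act_proj (K : Core C B) (s t : C) {ι : Type*} (i : ι) :
    K.Act s t (fun Z : ι → B => Z i) (fun u => u i) := by
  intro X Y _
  simp

theorem act_comp (K : Core C B) (s t : C) {ι κ : Type*} (f : (κ → B) → B)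
    (α : (κ → Bool) → Bool) (hα : K.Act s t f α)
    (g : κ → (ι → B) → B) (hg : ∀ k, K.Cons (g k)) (β : κ → (ι → Bool) → Bool)
    (hβ : ∀ k, K.Act s t (g k) (β k)) :
    K.Act s t (fun Z : ι → B => f (fun k => g k Z)) (fun u => α (fun k => β k u)) := by
  classical
  intro X Y hXY
  have h1 := hα (fun k => g k X) (fun k => g k Y) (fun k => K.cons_in2 s t _ (hg k) X Y hXY)
  rw [h1]
  have h2 : (fun k => @decide (K.c (g k X) (g k Y) = t) (Classical.propDecidable _)) =
      fun k => β k (fun i => @decide (K.c (X i) (Y i) = t) (Classical.propDecidable _)) := by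
    funext k
    have h3 := hβ k X Y hXY
    by_cases h4 : K.c (g k X) (g k Y) = t
    · rw [h3.1 h4]; exact decide_eq_true h4
    · have : β k (fun i => @decide (K.c (X i) (Y i) = t) (Classical.propDecidable _)) = false := by
        rw [← Bool.not_eq_true]; exact fun h => h4 (h3.2 h)
      rw [this]; exact decide_eq_false h4
  rw [h2]

theorem act_idem (K : Core C B) (s t : C) (hst : s ≠ t)
    (hs : ∃ x y, K.c x y = s) (ht : ∃ x y, K.c x y = t) {ι : Type*} (f : (ι → B) → B)
    (hf : K.Cons f) (α : (ι → Bool) → Bool) (hα : K.Act s t f α) (b : Bool) :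
    α (fun _ => b) = b := by
  classical
  cases b
  · obtain ⟨x, y, hxy⟩ := hs
    obtain ⟨i, hi⟩ := hf (fun _ => x) (fun _ => y)
    have h1 := (K.act_not s t hst f hf α hα (fun _ => x) (fun _ => y) (fun _ => Or.inl hxy)).1
      (hi.trans hxy)
    have h2 : (fun _ : ι => @decide (K.c x y = t) (Classical.propDecidable _)) = fun _ => false := by
      funext _; simp [hxy, hst]
    rw [h2] at h1
    exact h1
  · obtain ⟨x, y, hxy⟩ := ht
    obtain ⟨i, hi⟩ := hf (fun _ => x) (fun _ => y)
    have h1 := (hα (fun _ => x) (fun _ => y) (fun _ => Or.inr hxy)).1 (hi.trans hxy)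
    have h2 : (fun _ : ι => @decide (K.c x y = t) (Classical.propDecidable _)) = fun _ => true := by
      funext _; simp [hxy]
    rw [h2] at h1
    exact h1

/-- No semilattice: binary actions are self-dual. -/
theorem act_noSL (K : Core C B) (s t : C) (hst : s ≠ t) (h1 : ¬ K.SL s t) (h2 : ¬ K.SL t s)
    (f : (Fin 2 → B) → B) (hf : K.Cons f) (α : (Fin 2 → Bool) → Bool) (hα : K.Act s t f α) :
    α ![false, true] ≠ α ![true, false] := by
  classical
  intro heq
  have key : ∀ X Y : Fin 2 → B, ((K.c (X 0) (Y 0) = s ∧ K.c (X 1) (Y 1) = t) ∨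
    (K.c (X 0) (Y 0) = t ∧ K.c (X 1) (Y 1) = s)) → K.In2 s t X Y ∧
      (fun i => @decide (K.c (X i) (Y i) = t) (Classical.propDecidable _)) = ![false, true] ∨
      K.In2 s t X Y ∧
      (fun i => @decide (K.c (X i) (Y i) = t) (Classical.propDecidable _)) = ![true, false] := by
    rintro X Y (⟨h3, h4⟩ | ⟨h3, h4⟩)
    · left
      refine ⟨fun i => ?_, funext fun i => ?_⟩
      · fin_cases i
        · exact Or.inl h3
        · exact Or.inr h4
      · fin_cases i
        · simp [h3, hst]
        · simp [h4]
    · right
      refine ⟨fun i => ?_, funext fun i => ?_⟩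
      · fin_cases i
        · exact Or.inr h3
        · exact Or.inl h4
      · fin_cases i
        · simp [h3]
        · simp [h4, hst]
  cases hb : α ![false, true]
  · apply h1
    refine ⟨f, hf, fun X Y hXY => ?_⟩
    rcases key X Y hXY with ⟨h3, h4⟩ | ⟨h3, h4⟩
    · rw [K.act_not s t hst f hf α hα X Y h3, h4, hb]
    · rw [K.act_not s t hst f hf α hα X Y h3, h4, ← heq, hb]
  · apply h2
    refine ⟨f, hf, fun X Y hXY => ?_⟩
    rcases key X Y (by tauto) with ⟨h3, h4⟩ | ⟨h3, h4⟩
    · rw [hα X Y h3, h4, hb]
    · rw [hα X Y h3, h4, ← heq, hb]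

/-- The Boolean majority function. -/
def bmaj (u : Fin 3 → Bool) : Bool := (u 0 && u 1) || (u 0 && u 2) || (u 1 && u 2)

theorem bmaj_eq : ∀ (i j : Fin 3), i ≠ j → ∀ (b : Bool) (u : Fin 3 → Bool), u i = b → u j = b →
    bmaj u = b := by
  decide

theorem act_maj (K : Core C B) (s t : C) (hst : s ≠ t) (f : (Fin 3 → B) → B) (hf : K.Cons f)
    (hα : K.Act s t f bmaj) : K.MajOn s t f := by
  classical
  intro X Y hXY i j hij heq
  have h1 := hα X Y hXY
  have h2 := K.act_not s t hst f hf bmaj hα X Y hXY
  rcases hXY i with hi | hi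
  · rw [hi, h2]
    have hj : K.c (X j) (Y j) = s := heq ▸ hi
    have e1 : (fun i => @decide (K.c (X i) (Y i) = t) (Classical.propDecidable _)) i = false := by
      simp [hi, hst]
    have e2 : (fun i => @decide (K.c (X i) (Y i) = t) (Classical.propDecidable _)) j = false := by
      simp [hj, hst]
    exact bmaj_eq i j hij false _ e1 e2
  · rw [hi, h1]
    have hj : K.c (X j) (Y j) = t := heq ▸ hi
    have e1 : (fun i => @decide (K.c (X i) (Y i) = t) (Classical.propDecidable _)) i = true := by
      simp [hi]
    have e2 : (fun i => @decide (K.c (X i) (Y i) = t) (Classical.propDecidable _)) j = true := by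
      simp [hj]
    exact bmaj_eq i j hij true _ e1 e2

theorem tern_parity (K : Core C B) (s t : C) (hst : s ≠ t)
    (hs : ∃ x y, K.c x y = s) (ht : ∃ x y, K.c x y = t)
    (h1 : ¬ K.SL s t) (h2 : ¬ K.SL t s)
    (h3 : ¬ ∃ f : (Fin 3 → B) → B, K.Cons f ∧ K.MajOn s t f)
    (g : (Fin 3 → B) → B) (hg : K.Cons g) (α : (Fin 3 → Bool) → Bool) (hα : K.Act s t g α) :
    α ![true, true, false] = xor (α ![true, false, false]) (α ![false, true, false]) := by
  have hid := fun b => K.act_idem s t hst hs ht g hg α hα b
  have hid0 : α ![false, false, false] = false := by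
    have : (![false, false, false] : Fin 3 → Bool) = fun _ => false := by
      funext i; fin_cases i <;> rfl
    rw [this]; exact hid false
  have hid1 : α ![true, true, true] = true := by
    have : (![true, true, true] : Fin 3 → Bool) = fun _ => true := by
      funext i; fin_cases i <;> rfl
    rw [this]; exact hid true
  -- binary minors
  have hb : ∀ r : Fin 3 → Fin 2, α (fun i => (![false, true] : Fin 2 → Bool) (r i)) ≠
      α (fun i => (![true, false] : Fin 2 → Bool) (r i)) := by
    intro r
    exact K.act_noSL s t hst h1 h2 _ (K.cons_minor g hg r) _ (K.act_minor s t g α hα r)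
  have hb1 : α ![false, false, true] ≠ α ![true, true, false] := by
    have := hb ![0, 0, 1]
    convert this using 2 <;> (funext i; fin_cases i <;> rfl)
  have hb2 : α ![false, true, false] ≠ α ![true, false, true] := by
    have := hb ![0, 1, 0]
    convert this using 2 <;> (funext i; fin_cases i <;> rfl)
  have hb3 : α ![true, false, false] ≠ α ![false, true, true] := by
    have := hb ![1, 0, 0]
    convert this using 2 <;> (funext i; fin_cases i <;> rfl)
  -- ternary terms
  have hno : ∀ (f : (Fin 3 → B) → B) (β : (Fin 3 → Bool) → Bool), K.Cons f → K.Act s t f β →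
      ¬ ∀ x y z : Bool, β ![x, y, z] = bmaj ![x, y, z] := by
    intro f β hf hβ hcon
    apply h3
    refine ⟨f, hf, K.act_maj s t hst f hf ?_⟩
    have : β = bmaj := by
      funext u
      have h4 := hcon (u 0) (u 1) (u 2)
      have h5 : ![u 0, u 1, u 2] = u := by funext i; fin_cases i <;> rfl
      rw [h5] at h4; exact h4
    rw [← this]; exact hβ
  have n0 := hno g α hg hα
  have comp : ∀ (i0 : Fin 3), ¬ ∀ x y z : Bool,
      α (fun k => if k = i0 then α ![x, y, z] else (![x, y, z] : Fin 3 → Bool) k) = bmaj ![x, y, z] := by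
    intro i0
    have h4 := K.act_comp s t g α hα (fun k Z => if k = i0 then g Z else Z k)
      (fun k => by
        by_cases hk : k = i0
        · simp only [hk, if_true]; exact hg
        · simp only [hk, if_false]; exact K.cons_proj k)
      (fun k u => if k = i0 then α u else u k)
      (fun k => by
        by_cases hk : k = i0
        · simp only [hk, if_true]; exact hα
        · simp only [hk, if_false]; exact K.act_proj s t k)
    have h5 := K.cons_comp g hg (fun k Z => if k = i0 then g Z else Z k)
      (fun k => by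
        by_cases hk : k = i0
        · simp only [hk, if_true]; exact hg
        · simp only [hk, if_false]; exact K.cons_proj k)
    exact hno _ _ h5 h4
  have m0 : ∀ x y z a : Bool, (fun k : Fin 3 => if k = 0 then a else (![x, y, z] : Fin 3 → Bool) k) =
      ![a, y, z] := by
    intro x y z a; funext i; fin_cases i <;> rfl
  have m1 : ∀ x y z a : Bool, (fun k : Fin 3 => if k = 1 then a else (![x, y, z] : Fin 3 → Bool) k) =
      ![x, a, z] := by
    intro x y z a; funext i; fin_cases i <;> rfl
  have m2 : ∀ x y z a : Bool, (fun k : Fin 3 => if k = 2 then a else (![x, y, z] : Fin 3 → Bool) k) =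
      ![x, y, a] := by
    intro x y z a; funext i; fin_cases i <;> rfl
  have c0 := comp 0
  have c1 := comp 1
  have c2 := comp 2
  simp only [m0] at c0
  simp only [m1] at c1
  simp only [m2] at c2
  have d1 : α ![true, true, false] = !(α ![false, false, true]) := by
    revert hb1; generalize α ![true, true, false] = a; generalize α ![false, false, true] = b
    revert a b; decide
  have d2 : α ![true, false, true] = !(α ![false, true, false]) := by
    revert hb2; generalize α ![true, false, true] = a; generalize α ![false, true, false] = b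
    revert a b; decide
  have d3 : α ![false, true, true] = !(α ![true, false, false]) := by
    revert hb3; generalize α ![false, true, true] = a; generalize α ![true, false, false] = b
    revert a b; decide
  rw [d1]
  cases e1 : α ![true, false, false] <;> cases e2 : α ![false, true, false] <;>
  cases e3 : α ![false, false, true] <;> rw [e3] at d1 <;> rw [e2] at d2 <;> rw [e1] at d3 <;>
  simp only [Bool.not_false, Bool.not_true] at d1 d2 d3 <;>
  first
  | rfl
  | (exfalso; apply n0; intro x y z; cases x <;> cases y <;> cases z <;>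
      simp only [hid0, hid1, e1, e2, e3, d1, d2, d3] <;> rfl)
  | (exfalso; apply c0; intro x y z; cases x <;> cases y <;> cases z <;>
      simp only [hid0, hid1, e1, e2, e3, d1, d2, d3] <;> rfl)
  | (exfalso; apply c1; intro x y z; cases x <;> cases y <;> cases z <;>
      simp only [hid0, hid1, e1, e2, e3, d1, d2, d3] <;> rfl)
  | (exfalso; apply c2; intro x y z; cases x <;> cases y <;> cases z <;>
      simp only [hid0, hid1, e1, e2, e3, d1, d2, d3] <;> rfl)

theorem aff_of_no_maj (K : Core C B) (s t : C) (hst : s ≠ t)
    (hs : ∃ x y, K.c x y = s) (ht : ∃ x y, K.c x y = t)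
    (hc : K.AllCanon s t) (h1 : ¬ K.SL s t) (h2 : ¬ K.SL t s)
    (h3 : ¬ ∃ f : (Fin 3 → B) → B, K.Cons f ∧ K.MajOn s t f) :
    ∀ (n : ℕ) (f : (Fin n → B) → B), K.Cons f → K.AffOn s t f := by
  classical
  intro n f hf
  obtain ⟨α, hα⟩ := K.act_exists s t hst hs ht f (hc n f hf)
  let val : Finset (Fin n) → ZMod 2 := fun I => if α (fun i => decide (i ∈ I)) = true then 1 else 0
  have hadd : ∀ I J : Finset (Fin n), Disjoint I J → val (I ∪ J) = val I + val J := by
    intro I J hIJ
    let r : Fin n → Fin 3 := fun i => if i ∈ I then 0 else if i ∈ J then 1 else 2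
    have h4 := K.tern_parity s t hst hs ht h1 h2 h3 _ (K.cons_minor f hf r) _
      (K.act_minor s t f α hα r)
    have e1 : (fun i => (![true, true, false] : Fin 3 → Bool) (r i)) = fun i => decide (i ∈ I ∪ J) := by
      funext i
      simp only [r, Finset.mem_union]
      split_ifs with h5 h6
      · simp [h5]
      · simp [h6]
      · simp [h5, h6]
    have e2 : (fun i => (![true, false, false] : Fin 3 → Bool) (r i)) = fun i => decide (i ∈ I) := by
      funext i
      simp only [r]
      split_ifs with h5 h6
      · simp [h5]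
      · simp [h5]
      · simp [h5]
    have e3 : (fun i => (![false, true, false] : Fin 3 → Bool) (r i)) = fun i => decide (i ∈ J) := by
      funext i
      simp only [r]
      split_ifs with h5 h6
      · have : i ∉ J := Finset.disjoint_left.1 hIJ h5
        simp [this]
      · simp [h6]
      · simp [h6]
    rw [e1, e2, e3] at h4
    simp only [val]
    rw [h4]
    generalize α (fun i => decide (i ∈ I)) = a
    generalize α (fun i => decide (i ∈ J)) = b
    revert a b
    decide
  have hidem := fun b => K.act_idem s t hst hs ht f hf α hα b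
  have hempty : val ∅ = 0 := by
    have : (fun i : Fin n => decide (i ∈ (∅ : Finset (Fin n)))) = fun _ => false := by
      funext i; simp
    simp only [val, this, hidem]
    simp
  have huniv : val Finset.univ = 1 := by
    have : (fun i : Fin n => decide (i ∈ (Finset.univ : Finset (Fin n)))) = fun _ => true := by
      funext i; simp
    simp only [val, this, hidem]
    simp
  have hsum : ∀ I : Finset (Fin n), val I = ∑ i ∈ I, val {i} := by
    intro I
    induction I using Finset.induction_on with
    | empty => rw [hempty]; simp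
    | insert a I ha ih =>
      rw [Finset.sum_insert ha, ← ih, ← hadd _ _ (Finset.disjoint_singleton_left.2 ha)]
      rfl
  have hval : ∀ I, val I = 0 ∨ val I = 1 := by
    intro I
    simp only [val]
    split_ifs
    · right; rfl
    · left; rfl
  let S : Finset (Fin n) := Finset.univ.filter (fun i => val {i} = 1)
  have hS : ∀ I : Finset (Fin n), val I = ((I.filter (fun i => i ∈ S)).card : ZMod 2) := by
    intro I
    rw [hsum, Finset.card_filter, Nat.cast_sum]
    apply Finset.sum_congr rfl
    intro i _
    by_cases hi : val {i} = 1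
    · simp [S, hi]
    · rcases hval {i} with h5 | h5
      · simp [S, h5]
      · exact absurd h5 hi
  refine ⟨S, ?_, fun X Y hXY => ?_⟩
  · rw [← huniv, hS]
    congr 2
    ext i; simp
  · have h4 := hα X Y hXY
    have h5 : K.ind t (f X) (f Y) = val (Finset.univ.filter (fun i => K.c (X i) (Y i) = t)) := by
      simp only [ind, val]
      have : (fun i => decide (i ∈ Finset.univ.filter (fun i => K.c (X i) (Y i) = t))) =
          fun i => decide (K.c (X i) (Y i) = t) := by
        funext i; simp
      rw [this]
      by_cases h6 : K.c (f X) (f Y) = t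
      · rw [if_pos h6, if_pos]
        convert h4.1 h6
      · rw [if_neg h6, if_neg]
        intro h7
        apply h6
        apply h4.2
        convert h7
    rw [h5, hS]
    have h6 : ∑ i ∈ S, K.ind t (X i) (Y i) = ((S.filter (fun i => K.c (X i) (Y i) = t)).card : ZMod 2) := by
      rw [Finset.card_filter, Nat.cast_sum]
      apply Finset.sum_congr rfl
      intro i _
      simp only [ind]
      split_ifs <;> simp
    rw [h6]
    congr 2
    ext i
    simp [and_comm]

/-- Solved, canonical, not semilattice: there is a majority operation. -/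
theorem maj_of_solved (K : Core C B) [Finite C] [Countable B] (s t : C) (hst : s ≠ t)
    (hs : ∃ x y, K.c x y = s) (ht : ∃ x y, K.c x y = t) (hsol : K.Solved)
    (hc : K.AllCanon s t) (h1 : ¬ K.SL s t) (h2 : ¬ K.SL t s) :
    ∃ f : (Fin 3 → B) → B, K.Cons f ∧ K.MajOn s t f := by
  by_contra h3
  exact K.key s t hst hs ht (K.aff_of_no_maj s t hst hs ht hc h1 h2 h3) hsol

end Core

end Pool.Agent.H127_SB
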