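import Mathlib
import Pool.Agent.H127_SB.BoolPart

/-!
A missing 1-cycle contradicts solvability by consistency (helper127).
-/

namespace Pool.Agent.H127_SB

universe u v w

variable {C : Type u} {B : Type v}

namespace Core

theorem Walk_pad (K : Core C B) (q : C) (n : ℕ) (x y : B) (h : K.Walk q n x y) :
    K.Walk q (n + 2) x y := by
  obtain ⟨z, hz1, hz2⟩ := K.third y y q q (by rw [K.c_self]; exact K.T_ppe q)
  exact ⟨z, ⟨y, h, hz1⟩, hz2⟩

theorem Walk_pads (K : Core C B) (q : C) (n k : ℕ) (x y : B) (h : K.Walk q n x y) :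
    K.Walk q (n + 2 * k) x y := by
  induction k with
  | zero => exact h
  | succ k ih => exact K.Walk_pad q (n + 2 * k) x y ih

theorem even_walk_all (K : Core C B) [Finite C] (hP : K.Prim)
    (hB : ∃ x y z : B, x ≠ y ∧ y ≠ z ∧ x ≠ z) (a : C) (ha : a ≠ K.e) :
    ∃ N, ∀ x y, K.Walk a N x y := by
  classical
  have hE := hP {p | ∃ n, ∀ x y, K.c x y = p → K.Walk a (2 * n) x y} ?_ ?_
  · rcases hE with hE | hE
    · exfalso
      have h1 : ∀ g, K.T a a g → g = K.e := by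
        intro g hg
        apply hE g
        refine ⟨1, fun x y hxy => ?_⟩
        obtain ⟨z, hz1, hz2⟩ := K.third x y a a (by rw [hxy]; exact hg)
        exact ⟨z, ⟨x, rfl, hz1⟩, hz2⟩
      have h2 := hP {K.e, a} (by simp) (by
        intro p q r hp hq hT
        simp only [Set.mem_insert_iff, Set.mem_singleton_iff] at hp hq ⊢
        rcases hp with rfl | rfl
        · rw [← K.T_e hT]; exact hq
        · rcases hq with rfl | rfl
          · right; exact (K.T_e (K.T_swap hT)).symm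
          · left; exact h1 r hT)
      rcases h2 with h2 | h2
      · exact ha (h2 a (by simp))
      · obtain ⟨x, y, z, hxy, hyz, hxz⟩ := hB
        have h3 : ∀ x y : B, x ≠ y → K.c x y = a := by
          intro x y hxy
          rcases h2 (K.c x y) with h4 | h4
          · exact absurd ((K.c_eq _ _).1 h4) hxy
          · exact h4
        have h4 := K.tri x y z
        rw [h3 x y hxy, h3 y z hyz, h3 x z hxz] at h4
        exact ha (h1 a h4)
    · choose N hN using hE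
      obtain ⟨M, hM⟩ := (Set.finite_range N).bddAbove
      refine ⟨2 * M, fun x y => ?_⟩
      have h1 := hN (K.c x y) x y rfl
      have h2 : N (K.c x y) ≤ M := hM ⟨_, rfl⟩
      have h3 := K.Walk_pads a _ (M - N (K.c x y)) x y h1
      have h4 : 2 * N (K.c x y) + 2 * (M - N (K.c x y)) = 2 * M := by omega
      rw [h4] at h3
      exact h3
  · exact ⟨0, fun x y hxy => (K.c_eq _ _).1 hxy⟩
  · rintro p p' r ⟨n, h3⟩ ⟨n', h4⟩ hT
    refine ⟨n + n', fun x y hxy => ?_⟩
    obtain ⟨z, hz1, hz2⟩ := K.third x y p p' (by rw [hxy]; exact hT)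
    have := K.Walk_trans a (2 * n') (2 * n) x z y (h3 x z hz1) (h4 z y hz2)
    rwa [← Nat.mul_add] at this

theorem miss_i (K : Core C B) (a : C) (hna : ¬ K.T a a a) {ι : Type*}
    (f : (ι → B) → B) (hf : K.Cons f) (X Y Y' : ι → B)
    (h : ∀ i, (X i = Y i ∧ Y' i = Y i) ∨ (K.c (X i) (Y i) = a ∧ K.c (X i) (Y' i) = a)) :
    K.c (f X) (f Y) = a → K.c (f X) (f Y') = a := by
  have ha : a ≠ K.e := by rintro rfl; exact hna (K.T_refl _)
  intro h1
  obtain ⟨i, hi⟩ := hf X Y'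
  rcases h i with ⟨h2, h3⟩ | ⟨h2, h3⟩
  · exfalso
    have h4 : K.c (f X) (f Y') = K.e := by rw [hi, h3, ← h2, K.c_self]
    have h5 := (K.c_eq _ _).1 h4
    rw [h5] at h1
    obtain ⟨j, hj⟩ := hf Y' Y
    rw [h1] at hj
    rcases h j with ⟨h6, h7⟩ | ⟨h6, h7⟩
    · rw [h7, K.c_self] at hj
      exact ha hj
    · have h8 := K.tri (X j) (Y' j) (Y j)
      rw [h6, h7, ← hj] at h8
      exact hna h8
  · rw [hi, h3]

theorem miss_i' (K : Core C B) (a : C) (hna : ¬ K.T a a a) {ι : Type*}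
    (f : (ι → B) → B) (hf : K.Cons f) (X Y Y' : ι → B)
    (h : ∀ i, (X i = Y i ∧ Y' i = Y i) ∨ (K.c (X i) (Y i) = a ∧ K.c (X i) (Y' i) = a)) :
    K.c (f X) (f Y) = K.c (f X) (f Y') := by
  have h1 := K.miss_i a hna f hf X Y Y' h
  have h2 := K.miss_i a hna f hf X Y' Y (fun i => by
    rcases h i with ⟨h3, h4⟩ | ⟨h3, h4⟩
    · exact Or.inl ⟨by rw [h3, h4], h4.symm⟩
    · exact Or.inr ⟨h4, h3⟩)
  have h3 : ∀ Z : ι → B, (∀ i, K.c (X i) (Z i) = K.e ∨ K.c (X i) (Z i) = a) →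
      K.c (f X) (f Z) = K.e ∨ K.c (f X) (f Z) = a := by
    intro Z hZ
    obtain ⟨i, hi⟩ := hf X Z
    rw [hi]; exact hZ i
  have h4 := h3 Y (fun i => by
    rcases h i with ⟨h5, h6⟩ | ⟨h5, h6⟩
    · left; rw [h5, K.c_self]
    · right; exact h5)
  have h5 := h3 Y' (fun i => by
    rcases h i with ⟨h5, h6⟩ | ⟨h5, h6⟩
    · left; rw [h5, h6, K.c_self]
    · right; exact h6)
  rcases h4 with h4 | h4
  · rcases h5 with h5 | h5
    · rw [h4, h5]
    · rw [h2 h5, h5]
  · rw [h1 h4, h4]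

theorem miss_move (K : Core C B) (a : C) (hna : ¬ K.T a a a) {ι : Type*}
    (f : (ι → B) → B) (hf : K.Cons f) : ∀ (n : ℕ) (X Y X' Y' : ι → B),
    (∀ i, (X i = Y i ∧ X' i = X i ∧ Y' i = X i) ∨
      (K.c (X i) (Y i) = a ∧ K.c (X' i) (Y' i) = a ∧ K.Walk a n (X i) (X' i))) →
    K.c (f X) (f Y) = K.c (f X') (f Y') := by
  intro n
  induction n with
  | zero =>
    intro X Y X' Y' h
    have h1 : X = X' := by
      funext i
      rcases h i with ⟨_, h2, _⟩ | ⟨_, _, h2⟩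
      · exact h2.symm
      · exact h2
    subst h1
    apply K.miss_i' a hna f hf
    intro i
    rcases h i with ⟨h2, _, h3⟩ | ⟨h2, h3, _⟩
    · exact Or.inl ⟨h2, by rw [h3, h2]⟩
    · exact Or.inr ⟨h2, h3⟩
  | succ n ih =>
    intro X Y X' Y' h
    have h1 : ∀ i, ∃ z, (X i = Y i ∧ X' i = X i ∧ Y' i = X i ∧ z = X i) ∨
      (K.c (X i) (Y i) = a ∧ K.c (X' i) (Y' i) = a ∧ K.Walk a n (X i) z ∧ K.c z (X' i) = a) := by
      intro i
      rcases h i with ⟨h2, h3, h4⟩ | ⟨h2, h3, z, hz1, hz2⟩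
      · exact ⟨X i, Or.inl ⟨h2, h3, h4, rfl⟩⟩
      · exact ⟨z, Or.inr ⟨h2, h3, hz1, hz2⟩⟩
    choose Z hZ using h1
    have h2 := ih X Y Z X' (fun i => by
      rcases hZ i with ⟨h2, h3, h4, h5⟩ | ⟨h2, h3, h4, h5⟩
      · exact Or.inl ⟨h2, h5, h3⟩
      · exact Or.inr ⟨h2, h5, h4⟩)
    rw [h2, K.c_symm]
    apply K.miss_i' a hna f hf
    intro i
    rcases hZ i with ⟨h2, h3, h4, h5⟩ | ⟨h2, h3, h4, h5⟩
    · exact Or.inl ⟨by rw [h3, h5], by rw [h4, h5]⟩
    · exact Or.inr ⟨by rw [K.c_symm]; exact h5, h3⟩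

theorem miss_iii (K : Core C B) (a : C) (hna : ¬ K.T a a a) {ι : Type*}
    (f : (ι → B) → B) (hf : K.Cons f) (X Y Z : ι → B)
    (h : ∀ i, (X i = Y i ∧ K.c (X i) (Z i) = a) ∨ (K.c (X i) (Y i) = a ∧ Z i = X i)) :
    (K.c (f X) (f Y) = a ↔ K.c (f X) (f Z) = K.e) := by
  have ha : a ≠ K.e := by rintro rfl; exact hna (K.T_refl _)
  have h1 : K.c (f Y) (f Z) = a := by
    obtain ⟨i, hi⟩ := hf Y Z
    rw [hi]
    rcases h i with ⟨h2, h3⟩ | ⟨h2, h3⟩
    · rw [← h2, h3]
    · rw [h3, K.c_symm]; exact h2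
  have h2 : K.c (f X) (f Y) = K.e ∨ K.c (f X) (f Y) = a := by
    obtain ⟨i, hi⟩ := hf X Y
    rw [hi]
    rcases h i with ⟨h2, h3⟩ | ⟨h2, h3⟩
    · left; rw [h2, K.c_self]
    · right; exact h2
  have h3 : K.c (f X) (f Z) = K.e ∨ K.c (f X) (f Z) = a := by
    obtain ⟨i, hi⟩ := hf X Z
    rw [hi]
    rcases h i with ⟨h2, h3⟩ | ⟨h2, h3⟩
    · right; exact h3
    · left; rw [h3, K.c_self]
  constructor
  · intro h4
    rcases h3 with h3 | h3
    · exact h3
    · exfalso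
      have h5 := K.tri (f X) (f Y) (f Z)
      rw [h4, h1, h3] at h5
      exact hna h5
  · intro h4
    rcases h2 with h2 | h2
    · exfalso
      rw [K.c_eq] at h2 h4
      rw [← h2, ← h4, K.c_self] at h1
      exact ha h1.symm
    · exact h2

theorem miss_canon (K : Core C B) [Finite C] (hP : K.Prim)
    (hB : ∃ x y z : B, x ≠ y ∧ y ≠ z ∧ x ≠ z) (a : C) (hna : ¬ K.T a a a) {ι : Type*}
    (f : (ι → B) → B) (hf : K.Cons f) : K.CanonOn K.e a f := by
  classical
  have ha : a ≠ K.e := by rintro rfl; exact hna (K.T_refl _)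
  obtain ⟨N, hN⟩ := K.even_walk_all hP hB a ha
  have hnb : ∀ x, ∃ z, K.c x z = a := by
    intro x
    obtain ⟨z, hz1, hz2⟩ := K.third x x a a (by rw [K.c_self]; exact K.T_ppe a)
    exact ⟨z, hz1⟩
  choose nb hnb using hnb
  intro X Y X' Y' hXY hcc
  -- in coordinates of `A` the colour is `a`
  have hA : ∀ i, (X i = Y i ∧ X' i = Y' i) ∨ (K.c (X i) (Y i) = a ∧ K.c (X' i) (Y' i) = a) := by
    intro i
    rcases hXY i with h1 | h1
    · left
      refine ⟨(K.c_eq _ _).1 h1, ?_⟩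
      rw [hcc i] at h1
      exact (K.c_eq _ _).1 h1
    · right
      exact ⟨h1, by rw [← hcc i]; exact h1⟩
  let X1 : ι → B := fun i => if K.c (X i) (Y i) = a then X' i else X i
  let Y1 : ι → B := fun i => if K.c (X i) (Y i) = a then Y' i else X i
  let Z : ι → B := fun i => if K.c (X i) (Y i) = a then X' i else nb (X i)
  let Z' : ι → B := fun i => if K.c (X i) (Y i) = a then X' i else nb (X' i)
  have hne : ∀ i, X i = Y i → ¬ K.c (X i) (Y i) = a := by
    intro i hi h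
    rw [hi, K.c_self] at h
    exact ha h.symm
  have e1 : K.c (f X) (f Y) = K.c (f X1) (f Y1) := by
    apply K.miss_move a hna f hf N
    intro i
    rcases hA i with ⟨h1, h2⟩ | ⟨h1, h2⟩
    · left
      simp only [X1, Y1, if_neg (hne i h1)]
      exact ⟨h1, trivial, trivial⟩
    · right
      simp only [X1, Y1, if_pos h1]
      exact ⟨h1, h2, hN _ _⟩
  have e2 : K.c (f X1) (f Y1) = a ↔ K.c (f X1) (f Z) = K.e := by
    apply K.miss_iii a hna f hf
    intro i
    rcases hA i with ⟨h1, h2⟩ | ⟨h1, h2⟩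
    · left
      simp only [X1, Y1, Z, if_neg (hne i h1)]
      exact ⟨trivial, hnb _⟩
    · right
      simp only [X1, Y1, Z, if_pos h1]
      exact ⟨h2, trivial⟩
  have e3 : K.c (f X1) (f Z) = K.c (f X') (f Z') := by
    apply K.miss_move a hna f hf N
    intro i
    rcases hA i with ⟨h1, h2⟩ | ⟨h1, h2⟩
    · right
      simp only [X1, Z, Z', if_neg (hne i h1)]
      exact ⟨hnb _, hnb _, hN _ _⟩
    · left
      simp only [X1, Z, Z', if_pos h1]
      exact ⟨trivial, trivial, trivial⟩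
  have e4 : K.c (f X') (f Y') = a ↔ K.c (f X') (f Z') = K.e := by
    apply K.miss_iii a hna f hf
    intro i
    rcases hA i with ⟨h1, h2⟩ | ⟨h1, h2⟩
    · left
      simp only [Z', if_neg (hne i h1)]
      exact ⟨h2, hnb _⟩
    · right
      simp only [Z', if_pos h1]
      exact ⟨h2, trivial⟩
  have e5 : K.c (f X) (f Y) = a ↔ K.c (f X') (f Y') = a := by
    rw [e1, e2, e3, ← e4]
  have h2 := K.cons_in2 K.e a f hf X Y hXY
  have h3 := K.cons_in2 K.e a f hf X' Y' (fun i => by rw [← hcc i]; exact hXY i)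
  rcases h2 with h2 | h2
  · rcases h3 with h3 | h3
    · rw [h2, h3]
    · exfalso
      rw [← e5, h2] at h3
      exact ha h3.symm
  · rw [h2, e5.1 h2]

theorem oneCyc_of_solved (K : Core C B) [Finite C] [Countable B] (hP : K.Prim)
    (hsurj : ∀ a, ∃ x y, K.c x y = a)
    (hB : ∃ x y z : B, x ≠ y ∧ y ≠ z ∧ x ≠ z) (hs : K.Solved) : K.OneCyc := by
  classical
  intro a
  by_contra hna
  have ha : a ≠ K.e := by rintro rfl; exact hna (K.T_refl _)
  obtain ⟨x, y, hxy⟩ := hsurj a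
  have hyx : K.c y x = a := by rw [K.c_symm]; exact hxy
  have hgen : ∀ f : (Fin 2 → B) → B, K.Cons f →
      K.c (f ![x, y]) (f ![y, x]) = a := by
    intro f hf
    obtain ⟨i, hi⟩ := hf ![x, y] ![y, x]
    rw [hi]
    fin_cases i
    · exact hxy
    · exact hyx
  obtain ⟨f, hf, hmaj⟩ := K.maj_of_solved K.e a ha.symm (hsurj _) ⟨x, y, hxy⟩ hs
    (fun n f hf => K.miss_canon hP hB a hna f hf)
    (by
      rintro ⟨f, hf, h⟩
      have h1 := h ![x, x] ![x, y] (Or.inl ⟨K.c_self _, hxy⟩)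
      have h2 := h ![x, x] ![y, x] (Or.inr ⟨hxy, K.c_self _⟩)
      have h3 := hgen f hf
      rw [K.c_eq] at h1 h2
      rw [← h1, h2, K.c_self] at h3
      exact ha h3.symm)
    (by
      rintro ⟨f, hf, h⟩
      have h1 := h ![x, x] ![x, y] (Or.inr ⟨K.c_self _, hxy⟩)
      have h2 := h ![x, x] ![y, x] (Or.inl ⟨hxy, K.c_self _⟩)
      have h3 := hgen f hf
      have h4 := K.tri (f ![x, x]) (f ![x, y]) (f ![y, x])
      rw [h1, h2, h3] at h4
      exact hna h4)
  have m1 : K.c (f ![x, x, x]) (f ![x, y, y]) = a := by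
    have := hmaj ![x, x, x] ![x, y, y] (fun i => by
      fin_cases i
      · exact Or.inl (K.c_self _)
      · exact Or.inr hxy
      · exact Or.inr hxy) 1 2 (by decide) rfl
    rw [this]; exact hxy
  have m2 : K.c (f ![x, y, y]) (f ![y, y, x]) = a := by
    have := hmaj ![x, y, y] ![y, y, x] (fun i => by
      fin_cases i
      · exact Or.inr hxy
      · exact Or.inl (K.c_self _)
      · exact Or.inr hyx) 0 2 (by decide) (hxy.trans hyx.symm)
    rw [this]; exact hxy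
  have m3 : K.c (f ![x, x, x]) (f ![y, y, x]) = a := by
    have := hmaj ![x, x, x] ![y, y, x] (fun i => by
      fin_cases i
      · exact Or.inr hxy
      · exact Or.inr hxy
      · exact Or.inl (K.c_self _)) 0 1 (by decide) rfl
    rw [this]; exact hxy
  have h4 := K.tri (f ![x, x, x]) (f ![x, y, y]) (f ![y, y, x])
  rw [m1, m2, m3] at h4
  exact hna h4

end Core

end Pool.Agent.H127_SB
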