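import Mathlib
import Pool.Agent.H127_SB.Miss

/-!
Instances from failing semilattices, and the pairs containing the identity colour (helper127).
-/

namespace Pool.Agent.H127_SB

universe u v w

variable {C : Type u} {B : Type v}

namespace Core

/-- From a failing semilattice: a finite set of variables and two assignments. -/
theorem not_SL_instance (K : Core C B) [Finite C] [Countable B] (s t : C)
    (h : ¬ K.SL s t) :
    ∃ (V : Type v) (_ : Finite V) (v1 v2 v3 v4 : V) (σ1 σ2 : V → B),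
      K.c (σ1 v1) (σ1 v2) = t ∧ K.c (σ1 v3) (σ1 v4) = s ∧
      K.c (σ2 v1) (σ2 v2) = s ∧ K.c (σ2 v3) (σ2 v4) = t ∧
      ∀ σ : V → B, (∀ x y, K.c (σ x) (σ y) = K.c (σ1 x) (σ1 y) ∨
          K.c (σ x) (σ y) = K.c (σ2 x) (σ2 y)) →
        ¬ (K.c (σ v1) (σ v2) = s ∧ K.c (σ v3) (σ v4) = s) := by
  classical
  let Pos : (Fin 2 → B) → (Fin 2 → B) → Prop := fun X Y =>
    (K.c (X 0) (Y 0) = s ∧ K.c (X 1) (Y 1) = t) ∨ (K.c (X 0) (Y 0) = t ∧ K.c (X 1) (Y 1) = s)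
  -- some finite set is bad
  have h1 : ∃ F : Finset (Fin 2 → B), ¬ ∃ g : (Fin 2 → B) → B, ∀ X ∈ F, ∀ Y ∈ F,
      (∃ i, K.c (g X) (g Y) = K.c (X i) (Y i)) ∧ (Pos X Y → K.c (g X) (g Y) = s) := by
    by_contra hcon
    push Not at hcon
    obtain ⟨g, hg, _⟩ := K.sat_of_finite (W := Fin 2 → B)
      (fun X Y => {γ | (∃ i, γ = K.c (X i) (Y i)) ∧ (Pos X Y → γ = s)}) ∅ (fun _ => True)
      (fun _ _ _ _ => trivial) (fun F _ => by
        obtain ⟨g, hg⟩ := hcon F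
        exact ⟨g, fun X hX Y hY => hg X hX Y hY, trivial⟩)
    exact h ⟨g, fun X Y => (hg X Y).1, fun X Y hXY => (hg X Y).2 hXY⟩
  obtain ⟨F, hF⟩ := h1
  let PosF : Finset ((Fin 2 → B) × (Fin 2 → B)) := (F ×ˢ F).filter (fun p => Pos p.1 p.2)
  let Good : Finset ((Fin 2 → B) × (Fin 2 → B)) → Prop := fun Q =>
    ∃ g : (Fin 2 → B) → B, (∀ X ∈ F, ∀ Y ∈ F, ∃ i, K.c (g X) (g Y) = K.c (X i) (Y i)) ∧
      ∀ p ∈ Q, K.c (g p.1) (g p.2) = s
  have h2 : ¬ Good PosF := by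
    rintro ⟨g, hg1, hg2⟩
    apply hF
    refine ⟨g, fun X hX Y hY => ⟨hg1 X hX Y hY, fun hp => ?_⟩⟩
    exact hg2 (X, Y) (Finset.mem_filter.2 ⟨Finset.mem_product.2 ⟨hX, hY⟩, hp⟩)
  obtain ⟨Q, hQsub, hQmin⟩ : ∃ Q ⊆ PosF, Minimal (fun Q => ¬ Good Q) Q := by
    obtain ⟨Q, hQ1, hQ2⟩ := exists_minimal_le_of_wellFoundedLT (fun Q => ¬ Good Q) PosF h2
    exact ⟨Q, hQ1, hQ2⟩
  have hQbad : ¬ Good Q := hQmin.prop
  have hQlt : ∀ Q', Q' ⊂ Q → Good Q' := by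
    intro Q' hQ'
    by_contra hbad
    exact hQ'.2 (hQmin.le_of_le hbad hQ'.1)
  have hposQ : ∀ p ∈ Q, Pos p.1 p.2 ∧ p.1 ∈ F ∧ p.2 ∈ F := by
    intro p hp
    have h3 := Finset.mem_filter.1 (hQsub hp)
    have h4 := Finset.mem_product.1 h3.1
    exact ⟨h3.2, h4.1, h4.2⟩
  -- two different elements
  have h3 : ∃ Q1 ∈ Q, ∃ Q2 ∈ Q, Q1 ≠ Q2 := by
    by_contra hcon
    push Not at hcon
    rcases Finset.eq_empty_or_nonempty Q with hQ | ⟨Q1, hQ1⟩
    · apply hQbad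
      rw [hQ]
      exact ⟨fun X => X 0, fun X _ Y _ => ⟨0, rfl⟩, by simp⟩
    · have hall : ∀ p ∈ Q, p = Q1 := fun p hp => hcon p hp Q1 hQ1
      rcases (hposQ Q1 hQ1).1 with h4 | h4
      · apply hQbad
        refine ⟨fun X => X 0, fun X _ Y _ => ⟨0, rfl⟩, fun p hp => ?_⟩
        rw [hall p hp]; exact h4.1
      · apply hQbad
        refine ⟨fun X => X 1, fun X _ Y _ => ⟨1, rfl⟩, fun p hp => ?_⟩
        rw [hall p hp]; exact h4.2
  obtain ⟨Q1, hQ1, Q2, hQ2, hne⟩ := h3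
  obtain ⟨g1, hg1, hg1'⟩ := hQlt (Q.erase Q1) (Finset.erase_ssubset hQ1)
  obtain ⟨g2, hg2, hg2'⟩ := hQlt (Q.erase Q2) (Finset.erase_ssubset hQ2)
  have hval : ∀ g : (Fin 2 → B) → B, (∀ X ∈ F, ∀ Y ∈ F, ∃ i, K.c (g X) (g Y) = K.c (X i) (Y i)) →
      ∀ p ∈ Q, K.c (g p.1) (g p.2) = s ∨ K.c (g p.1) (g p.2) = t := by
    intro g hg p hp
    obtain ⟨h4, h5, h6⟩ := hposQ p hp
    obtain ⟨i, hi⟩ := hg p.1 h5 p.2 h6
    rw [hi]
    fin_cases i
    · rcases h4 with h4 | h4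
      · exact Or.inl h4.1
      · exact Or.inr h4.1
    · rcases h4 with h4 | h4
      · exact Or.inr h4.2
      · exact Or.inl h4.2
  have e1 : K.c (g1 Q1.1) (g1 Q1.2) = t := by
    rcases hval g1 hg1 Q1 hQ1 with h4 | h4
    · exfalso
      apply hQbad
      refine ⟨g1, hg1, fun p hp => ?_⟩
      by_cases hp1 : p = Q1
      · rw [hp1]; exact h4
      · exact hg1' p (Finset.mem_erase.2 ⟨hp1, hp⟩)
    · exact h4
  have e2 : K.c (g2 Q2.1) (g2 Q2.2) = t := by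
    rcases hval g2 hg2 Q2 hQ2 with h4 | h4
    · exfalso
      apply hQbad
      refine ⟨g2, hg2, fun p hp => ?_⟩
      by_cases hp1 : p = Q2
      · rw [hp1]; exact h4
      · exact hg2' p (Finset.mem_erase.2 ⟨hp1, hp⟩)
    · exact h4
  obtain ⟨_, hQ1a, hQ1b⟩ := hposQ Q1 hQ1
  obtain ⟨_, hQ2a, hQ2b⟩ := hposQ Q2 hQ2
  refine ⟨{X // X ∈ F}, inferInstance, ⟨Q1.1, hQ1a⟩, ⟨Q1.2, hQ1b⟩, ⟨Q2.1, hQ2a⟩, ⟨Q2.2, hQ2b⟩,
    fun X => g1 X.1, fun X => g2 X.1, e1, hg1' Q2 (Finset.mem_erase.2 ⟨hne.symm, hQ2⟩),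
    hg2' Q1 (Finset.mem_erase.2 ⟨hne, hQ1⟩), e2, ?_⟩
  rintro σ hσ ⟨hσ1, hσ2⟩
  have := K.nonempty
  let g : (Fin 2 → B) → B := fun X => if hX : X ∈ F then σ ⟨X, hX⟩ else Classical.arbitrary B
  have hgF : ∀ X (hX : X ∈ F), g X = σ ⟨X, hX⟩ := by
    intro X hX
    simp only [g, dif_pos hX]
  apply hQbad
  refine ⟨g, fun X hX Y hY => ?_, fun p hp => ?_⟩
  · rw [hgF X hX, hgF Y hY]
    rcases hσ ⟨X, hX⟩ ⟨Y, hY⟩ with h4 | h4
    · obtain ⟨i, hi⟩ := hg1 X hX Y hY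
      exact ⟨i, h4.trans hi⟩
    · obtain ⟨i, hi⟩ := hg2 X hX Y hY
      exact ⟨i, h4.trans hi⟩
  · obtain ⟨_, hpa, hpb⟩ := hposQ p hp
    rw [hgF _ hpa, hgF _ hpb]
    by_cases hp1 : p = Q1
    · subst hp1; exact hσ1
    · by_cases hp2 : p = Q2
      · subst hp2; exact hσ2
      · rcases hσ ⟨p.1, hpa⟩ ⟨p.2, hpb⟩ with h4 | h4
        · rw [h4]; exact hg1' p (Finset.mem_erase.2 ⟨hp1, hp⟩)
        · rw [h4]; exact hg2' p (Finset.mem_erase.2 ⟨hp2, hp⟩)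

/-- The tool from a failing semilattice, on four points. -/
theorem noSL_tool (K : Core C B) [Finite C] [Countable B] (s t : C)
    (h : ¬ K.SL s t) :
    ∃ a1 a2 : Fin 4 → B,
      K.c (a1 0) (a1 1) = t ∧ K.c (a1 2) (a1 3) = s ∧
      K.c (a2 0) (a2 1) = s ∧ K.c (a2 2) (a2 3) = t ∧
      ∀ (n : ℕ) (f : (Fin n → B) → B), K.Cons f → ∀ P : Fin 4 → Fin n → B,
        (∀ i, (∀ p q, K.c (P p i) (P q i) = K.c (a1 p) (a1 q)) ∨
          (∀ p q, K.c (P p i) (P q i) = K.c (a2 p) (a2 q))) →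
        ¬ (K.c (f (P 0)) (f (P 1)) = s ∧ K.c (f (P 2)) (f (P 3)) = s) := by
  classical
  obtain ⟨V, _, v1, v2, v3, v4, σ1, σ2, h1, h2, h3, h4, h5⟩ := K.not_SL_instance s t h
  refine ⟨![σ1 v1, σ1 v2, σ1 v3, σ1 v4], ![σ2 v1, σ2 v2, σ2 v3, σ2 v4], h1, h2, h3, h4, ?_⟩
  intro n f hf P hP
  let pt : Fin 4 → V := ![v1, v2, v3, v4]
  -- extend a typed quadruple to all of `V`
  have hext : ∀ (σ : V → B) (q : Fin 4 → B), (∀ i j, K.c (q i) (q j) = K.c (σ (pt i)) (σ (pt j))) →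
      ∃ w : V → B, (∀ x y, K.c (w x) (w y) = K.c (σ x) (σ y)) ∧ ∀ i, w (pt i) = q i := by
    intro σ q hq
    let w0 : V → B := fun x => if hx : ∃ i, pt i = x then q hx.choose else σ x
    have hw0 : ∀ i, w0 (pt i) = q i := by
      intro i
      have hx : ∃ j, pt j = pt i := ⟨i, rfl⟩
      have e1 : w0 (pt i) = q hx.choose := by simp only [w0]; rw [dif_pos hx]
      rw [e1, ← K.c_eq, hq, K.c_eq, hx.choose_spec]
    obtain ⟨w, hw1, hw2⟩ := K.fh (Set.range pt) σ w0 (by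
      rintro _ ⟨i, rfl⟩ _ ⟨j, rfl⟩
      rw [hw0, hw0]; exact hq i j)
    exact ⟨w, hw2, fun i => (hw1 _ ⟨i, rfl⟩).trans (hw0 i)⟩
  have hcoord : ∀ i : Fin n, ∃ w : V → B, ((∀ x y, K.c (w x) (w y) = K.c (σ1 x) (σ1 y)) ∨
      (∀ x y, K.c (w x) (w y) = K.c (σ2 x) (σ2 y))) ∧ ∀ p, w (pt p) = P p i := by
    intro i
    rcases hP i with h6 | h6
    · obtain ⟨w, hw1, hw2⟩ := hext σ1 (fun p => P p i) (by
        intro p q
        rw [h6]
        fin_cases p <;> fin_cases q <;> rfl)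
      exact ⟨w, Or.inl hw1, hw2⟩
    · obtain ⟨w, hw1, hw2⟩ := hext σ2 (fun p => P p i) (by
        intro p q
        rw [h6]
        fin_cases p <;> fin_cases q <;> rfl)
      exact ⟨w, Or.inr hw1, hw2⟩
  choose w hw1 hw2 using hcoord
  have hσ := h5 (fun x => f (fun i => w i x)) (fun x y => by
    obtain ⟨i, hi⟩ := hf (fun i => w i x) (fun i => w i y)
    rcases hw1 i with h6 | h6
    · left; rw [hi]; exact h6 x y
    · right; rw [hi]; exact h6 x y)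
  have e : ∀ p, (fun i => w i (pt p)) = P p := fun p => funext fun i => hw2 i p
  have e0 := e 0
  have e1 := e 1
  have e2 := e 2
  have e3 := e 3
  simp only [pt] at e0 e1 e2 e3
  intro hcon
  apply hσ
  rw [← e0, ← e1, ← e2, ← e3] at hcon
  exact hcon

/-- One step of the mixing for pairs with the identity. -/
theorem canon_e_step (K : Core C B) (a : C) (a1 a2 : Fin 4 → B)
    (h01 : K.c (a1 0) (a1 1) = K.e) (h23 : K.c (a1 2) (a1 3) = a)
    (k01 : K.c (a2 0) (a2 1) = a) (k23 : K.c (a2 2) (a2 3) = K.e)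
    {n : ℕ} (f : (Fin n → B) → B) (hf : K.Cons f)
    (htool : ∀ P : Fin 4 → Fin n → B,
        (∀ i, (∀ p q, K.c (P p i) (P q i) = K.c (a1 p) (a1 q)) ∨
          (∀ p q, K.c (P p i) (P q i) = K.c (a2 p) (a2 q))) →
        ¬ (K.c (f (P 0)) (f (P 1)) = a ∧ K.c (f (P 2)) (f (P 3)) = a))
    (X Y X' Y' : Fin n → B)
    (hstep : ∀ i, (X i = Y i ∧ X' i = Y' i ∧ K.c (X i) (X' i) = K.c (a1 0) (a1 3)) ∨
      (K.c (X i) (Y i) = a ∧ K.c (X' i) (Y' i) = a ∧ K.c (X i) (X' i) = K.c (a2 0) (a2 2) ∧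
        K.c (Y i) (X' i) = K.c (a2 1) (a2 2)))
    (hXY : K.c (f X) (f Y) = a) : K.c (f X') (f Y') = a := by
  classical
  have e01 : a1 0 = a1 1 := (K.c_eq _ _).1 h01
  have e23 : a2 2 = a2 3 := (K.c_eq _ _).1 k23
  have hU : ∀ i, ∃ U : B, ((∀ p q, K.c ((![X i, Y i, U, X' i] : Fin 4 → B) p)
        ((![X i, Y i, U, X' i] : Fin 4 → B) q) = K.c (a1 p) (a1 q)) ∨
      (∀ p q, K.c ((![X i, Y i, U, X' i] : Fin 4 → B) p)
        ((![X i, Y i, U, X' i] : Fin 4 → B) q) = K.c (a2 p) (a2 q))) ∧ K.c U (Y' i) = a ∧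
        (K.c U (X' i) = K.e ∨ K.c U (X' i) = a) := by
    intro i
    rcases hstep i with ⟨h1, h2, h3⟩ | ⟨h1, h2, h3, h4⟩
    · obtain ⟨U, hU⟩ := K.fh1 (ι := Bool) (fun i => cond i (a1 0) (a1 3))
        (fun j => cond j (X i) (X' i)) (by
          rintro (_ | _) (_ | _)
          · simp [K.c_self]
          · simp only [cond_false, cond_true]; rw [K.c_symm, h3, K.c_symm]
          · simp only [cond_false, cond_true]; exact h3
          · simp [K.c_self]) (a1 2)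
      have hU1 : K.c U (X i) = K.c (a1 2) (a1 0) := hU true
      have hU2 : K.c U (X' i) = K.c (a1 2) (a1 3) := hU false
      refine ⟨U, Or.inl ?_, ?_, Or.inr (hU2.trans h23)⟩
      · intro p q
        fin_cases p <;> fin_cases q <;>
        simp only [Fin.zero_eta, Fin.mk_one, Fin.reduceFinMk, Matrix.cons_val_zero,
          Matrix.cons_val_one, Matrix.cons_val, K.c_self, ← h1, ← e01]
        · rw [K.c_symm, hU1, K.c_symm]
        · exact h3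
        · rw [K.c_symm, hU1, K.c_symm]
        · exact h3
        · exact hU1
        · exact hU1
        · exact hU2
        · rw [K.c_symm, h3, K.c_symm]
        · rw [K.c_symm, h3, K.c_symm]
        · rw [K.c_symm, hU2, K.c_symm]
      · rw [← h2, hU2]; exact h23
    · refine ⟨X' i, Or.inr ?_, h2, Or.inl (K.c_self _)⟩
      intro p q
      fin_cases p <;> fin_cases q <;>
      simp only [Fin.zero_eta, Fin.mk_one, Fin.reduceFinMk, Matrix.cons_val_zero,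
          Matrix.cons_val_one, Matrix.cons_val, K.c_self, ← e23]
      · rw [h1, k01]
      · exact h3
      · exact h3
      · rw [K.c_symm, h1, ← k01, K.c_symm]
      · exact h4
      · exact h4
      · rw [K.c_symm, h3, K.c_symm]
      · rw [K.c_symm, h4, K.c_symm]
      · rw [K.c_symm, h3, K.c_symm]
      · rw [K.c_symm, h4, K.c_symm]
  choose U hU1 hU2 hU3 using hU
  have h5 := htool (fun p i => (![X i, Y i, U i, X' i] : Fin 4 → B) p) hU1
  have h6 : K.c (f U) (f X') ≠ a := by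
    intro h7
    apply h5
    exact ⟨hXY, h7⟩
  have h8 : K.c (f U) (f X') = K.e := by
    obtain ⟨i, hi⟩ := hf U X'
    rcases hU3 i with h9 | h9
    · rw [hi, h9]
    · exact absurd (hi.trans h9) h6
  obtain ⟨i, hi⟩ := hf U Y'
  rw [← (K.c_eq _ _).1 h8, hi]
  exact hU2 i

theorem canon_e_walk (K : Core C B) (a : C) (ha : a ≠ K.e) (a1 a2 : Fin 4 → B)
    (h01 : K.c (a1 0) (a1 1) = K.e) (h23 : K.c (a1 2) (a1 3) = a)
    (k01 : K.c (a2 0) (a2 1) = a) (k23 : K.c (a2 2) (a2 3) = K.e)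
    {n : ℕ} (f : (Fin n → B) → B) (hf : K.Cons f)
    (htool : ∀ P : Fin 4 → Fin n → B,
        (∀ i, (∀ p q, K.c (P p i) (P q i) = K.c (a1 p) (a1 q)) ∨
          (∀ p q, K.c (P p i) (P q i) = K.c (a2 p) (a2 q))) →
        ¬ (K.c (f (P 0)) (f (P 1)) = a ∧ K.c (f (P 2)) (f (P 3)) = a))
    (m : ℕ) : ∀ (X Y X' Y' : Fin n → B),
    (∀ i, (X i = Y i ∧ X' i = Y' i ∧ K.Walk (K.c (a1 0) (a1 3)) (m + 1) (X i) (X' i)) ∨
      (K.c (X i) (Y i) = a ∧ K.c (X' i) (Y' i) = a ∧ ∃ w, K.c (X i) w = K.c (a2 0) (a2 2) ∧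
        K.c (Y i) w = K.c (a2 1) (a2 2) ∧ K.Walk (K.c (a2 0) (a2 2)) m w (X' i))) →
    K.c (f X) (f Y) = a → K.c (f X') (f Y') = a := by
  induction m with
  | zero =>
    intro X Y X' Y' h hXY
    apply K.canon_e_step a a1 a2 h01 h23 k01 k23 f hf htool X Y X' Y' _ hXY
    intro i
    rcases h i with ⟨h1, h2, z, hz1, hz2⟩ | ⟨h1, h2, w, hw1, hw2, hw3⟩
    · left
      refine ⟨h1, h2, ?_⟩
      have : X i = z := hz1
      rw [this, hz2]
    · right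
      have : w = X' i := hw3
      subst this
      exact ⟨h1, h2, hw1, hw2⟩
  | succ m ih =>
    intro X Y X' Y' h hXY
    have hch : ∀ i, ∃ Z Z' : B, (X i = Y i ∧ X' i = Y' i ∧ Z = Z' ∧
        K.Walk (K.c (a1 0) (a1 3)) (m + 1) (X i) Z ∧ K.c Z (X' i) = K.c (a1 0) (a1 3)) ∨
      (K.c (X i) (Y i) = a ∧ K.c (X' i) (Y' i) = a ∧ K.c Z Z' = a ∧
        (∃ w, K.c (X i) w = K.c (a2 0) (a2 2) ∧
        K.c (Y i) w = K.c (a2 1) (a2 2) ∧ K.Walk (K.c (a2 0) (a2 2)) m w Z) ∧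
        K.c Z (X' i) = K.c (a2 0) (a2 2) ∧ K.c Z' (X' i) = K.c (a2 1) (a2 2)) := by
      intro i
      rcases h i with ⟨h1, h2, z, hz1, hz2⟩ | ⟨h1, h2, w, hw1, hw2, z, hw3, hw4⟩
      · exact ⟨z, z, Or.inl ⟨h1, h2, rfl, hz1, hz2⟩⟩
      · obtain ⟨z', hz1, hz2⟩ := K.third z (X' i) a (K.c (a2 1) (a2 2)) (by
          rw [hw4, ← k01]; exact K.tri _ _ _)
        exact ⟨z, z', Or.inr ⟨h1, h2, hz1, ⟨w, hw1, hw2, hw3⟩, hw4, hz2⟩⟩
    choose Z Z' hZ using hch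
    have h1 := ih X Y Z Z' (fun i => by
      rcases hZ i with ⟨h1, h2, h3, h4, h5⟩ | ⟨h1, h2, h3, h4, h5, h6⟩
      · exact Or.inl ⟨h1, h3, h4⟩
      · exact Or.inr ⟨h1, h3, h4⟩) hXY
    apply K.canon_e_step a a1 a2 h01 h23 k01 k23 f hf htool Z Z' X' Y' _ h1
    intro i
    rcases hZ i with ⟨h1, h2, h3, h4, h5⟩ | ⟨h1, h2, h3, h4, h5, h6⟩
    · exact Or.inl ⟨h3, h2, h5⟩
    · exact Or.inr ⟨h3, h2, h5, h6⟩

theorem canon_e_aux (K : Core C B) [Finite C] (hP : K.Prim) (h1 : K.OneCyc)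
    (a : C) (ha : a ≠ K.e) (a1 a2 : Fin 4 → B)
    (h01 : K.c (a1 0) (a1 1) = K.e) (h23 : K.c (a1 2) (a1 3) = a)
    (k01 : K.c (a2 0) (a2 1) = a) (k23 : K.c (a2 2) (a2 3) = K.e)
    (hq : K.c (a1 0) (a1 3) ≠ K.e) (hr : K.c (a2 0) (a2 2) ≠ K.e)
    {n : ℕ} (f : (Fin n → B) → B) (hf : K.Cons f)
    (htool : ∀ P : Fin 4 → Fin n → B,
        (∀ i, (∀ p q, K.c (P p i) (P q i) = K.c (a1 p) (a1 q)) ∨
          (∀ p q, K.c (P p i) (P q i) = K.c (a2 p) (a2 q))) →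
        ¬ (K.c (f (P 0)) (f (P 1)) = a ∧ K.c (f (P 2)) (f (P 3)) = a)) :
    K.CanonOn K.e a f := by
  obtain ⟨m1, hm1⟩ := K.walk_all hP h1 _ hq
  obtain ⟨m2, hm2⟩ := K.walk_all hP h1 _ hr
  have key : ∀ X Y X' Y' : Fin n → B, K.In2 K.e a X Y →
      (∀ i, K.c (X i) (Y i) = K.c (X' i) (Y' i)) → K.c (f X) (f Y) = a →
      K.c (f X') (f Y') = a := by
    intro X Y X' Y' hXY hcc h2
    apply K.canon_e_walk a ha a1 a2 h01 h23 k01 k23 f hf htool (m1 + m2) X Y X' Y' _ h2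
    intro i
    rcases hXY i with h3 | h3
    · left
      refine ⟨(K.c_eq _ _).1 h3, ?_, hm1 _ (by omega) _ _⟩
      rw [hcc i] at h3
      exact (K.c_eq _ _).1 h3
    · right
      refine ⟨h3, by rw [← hcc i]; exact h3, ?_⟩
      obtain ⟨w, hw⟩ := K.fh1 (ι := Bool) (fun i => cond i (a2 0) (a2 1))
        (fun j => cond j (X i) (Y i)) (by
          rintro (_ | _) (_ | _)
          · simp [K.c_self]
          · simp only [cond_false, cond_true]; rw [K.c_symm, h3, ← k01, K.c_symm]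
          · simp only [cond_false, cond_true]; rw [h3, k01]
          · simp [K.c_self]) (a2 2)
      have hw1 : K.c w (X i) = K.c (a2 2) (a2 0) := hw true
      have hw2 : K.c w (Y i) = K.c (a2 2) (a2 1) := hw false
      refine ⟨w, ?_, ?_, hm2 _ (by omega) _ _⟩
      · rw [K.c_symm, hw1, K.c_symm]
      · rw [K.c_symm, hw2, K.c_symm]
  intro X Y X' Y' hXY hcc
  have h2 := K.cons_in2 K.e a f hf X Y hXY
  have hXY' : K.In2 K.e a X' Y' := fun i => by rw [← hcc i]; exact hXY i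
  have h3 := K.cons_in2 K.e a f hf X' Y' hXY'
  rcases h2 with h2 | h2
  · rcases h3 with h3 | h3
    · rw [h2, h3]
    · rw [h3]
      exact key X' Y' X Y hXY' (fun i => (hcc i).symm) h3
  · rw [h2]
    exact (key X Y X' Y' hXY hcc h2).symm

theorem canon_e (K : Core C B) [Finite C] [Countable B] (hP : K.Prim) (h1 : K.OneCyc)
    (a : C) (ha : a ≠ K.e) (hSL : ¬ K.SL a K.e) : K.AllCanon K.e a := by
  classical
  obtain ⟨a1, a2, h01, h23, k01, k23, htool⟩ := K.noSL_tool a K.e hSL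
  intro n f hf
  -- the swap of the last two (first two) points
  have e01 : a1 0 = a1 1 := (K.c_eq _ _).1 h01
  have e23 : a2 2 = a2 3 := (K.c_eq _ _).1 k23
  let ρ1 : Fin 4 → Fin 4 := if K.c (a1 0) (a1 3) = K.e then ![0, 1, 3, 2] else id
  let ρ2 : Fin 4 → Fin 4 := if K.c (a2 0) (a2 2) = K.e then ![1, 0, 2, 3] else id
  have hρ1 : ρ1 = ![0, 1, 3, 2] ∨ ρ1 = id := by
    simp only [ρ1]; split_ifs
    · left; rfl
    · right; rfl
  have hρ2 : ρ2 = ![1, 0, 2, 3] ∨ ρ2 = id := by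
    simp only [ρ2]; split_ifs
    · left; rfl
    · right; rfl
  have hq : K.c (a1 (ρ2 (ρ1 0))) (a1 (ρ2 (ρ1 3))) ≠ K.e := by
    have e1 : a1 (ρ2 0) = a1 0 := by
      rcases hρ2 with h | h <;> rw [h]
      · exact e01.symm
      · rfl
    have e2 : ∀ j : Fin 4, j = 2 ∨ j = 3 → ρ2 j = j := by
      intro j hj
      rcases hρ2 with h | h <;> rw [h]
      · rcases hj with rfl | rfl <;> rfl
      · rfl
    have e3 : ρ1 0 = 0 := by rcases hρ1 with h | h <;> rw [h] <;> rfl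
    rw [e3, e1]
    by_cases h2 : K.c (a1 0) (a1 3) = K.e
    · have h3 : ρ1 = ![0, 1, 3, 2] := by simp only [ρ1, if_pos h2]
      have h4 : ρ1 3 = 2 := by rw [h3]; rfl
      rw [h4, e2 2 (Or.inl rfl)]
      intro h5
      rw [K.c_eq] at h2 h5
      rw [← h2, ← h5, K.c_self] at h23
      exact ha h23.symm
    · have h3 : ρ1 = id := by simp only [ρ1, if_neg h2]
      have h4 : ρ1 3 = 3 := by rw [h3]; rfl
      rw [h4, e2 3 (Or.inr rfl)]
      exact h2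
  have hr : K.c (a2 (ρ2 (ρ1 0))) (a2 (ρ2 (ρ1 2))) ≠ K.e := by
    have e3 : ρ1 0 = 0 := by rcases hρ1 with h | h <;> rw [h] <;> rfl
    have e2 : ∀ j : Fin 4, j = 2 ∨ j = 3 → ρ2 j = j := by
      intro j hj
      rcases hρ2 with h | h <;> rw [h]
      · rcases hj with rfl | rfl <;> rfl
      · rfl
    have e4 : a2 (ρ2 (ρ1 2)) = a2 2 := by
      rcases hρ1 with h | h <;> rw [h]
      · show a2 (ρ2 3) = a2 2
        rw [e2 3 (Or.inr rfl), e23]
      · show a2 (ρ2 2) = a2 2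
        rw [e2 2 (Or.inl rfl)]
    rw [e3, e4]
    by_cases h2 : K.c (a2 0) (a2 2) = K.e
    · have h3 : ρ2 = ![1, 0, 2, 3] := by simp only [ρ2, if_pos h2]
      have h4 : ρ2 0 = 1 := by rw [h3]; rfl
      rw [h4]
      intro h5
      rw [K.c_eq] at h2 h5
      rw [h2, h5, K.c_self] at k01
      exact ha k01.symm
    · have h3 : ρ2 = id := by simp only [ρ2, if_neg h2]
      have h4 : ρ2 0 = 0 := by rw [h3]; rfl
      rw [h4]
      exact h2
  have hinv1 : ∀ j, ρ1 (ρ1 j) = j := by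
    intro j
    rcases hρ1 with h | h <;> rw [h]
    · revert j; decide
    · rfl
  have hinv2 : ∀ j, ρ2 (ρ2 j) = j := by
    intro j
    rcases hρ2 with h | h <;> rw [h]
    · revert j; decide
    · rfl
  have hsw : ∀ P : Fin 4 → Fin n → B,
      K.c (f (P (ρ1 (ρ2 0)))) (f (P (ρ1 (ρ2 1)))) = K.c (f (P 0)) (f (P 1)) ∧
      K.c (f (P (ρ1 (ρ2 2)))) (f (P (ρ1 (ρ2 3)))) = K.c (f (P 2)) (f (P 3)) := by
    intro P
    rcases hρ1 with h | h <;> rcases hρ2 with h' | h' <;> rw [h, h']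
    · exact ⟨K.c_symm _ _, K.c_symm _ _⟩
    · exact ⟨rfl, K.c_symm _ _⟩
    · exact ⟨K.c_symm _ _, rfl⟩
    · exact ⟨rfl, rfl⟩
  have hsw' : ∀ P : Fin 4 → B,
      K.c (P (ρ2 (ρ1 0))) (P (ρ2 (ρ1 1))) = K.c (P 0) (P 1) ∧
      K.c (P (ρ2 (ρ1 2))) (P (ρ2 (ρ1 3))) = K.c (P 2) (P 3) := by
    intro P
    rcases hρ1 with h | h <;> rcases hρ2 with h' | h' <;> rw [h, h']
    · exact ⟨K.c_symm _ _, K.c_symm _ _⟩
    · exact ⟨rfl, K.c_symm _ _⟩
    · exact ⟨K.c_symm _ _, rfl⟩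
    · exact ⟨rfl, rfl⟩
  apply K.canon_e_aux hP h1 a ha (fun j => a1 (ρ2 (ρ1 j))) (fun j => a2 (ρ2 (ρ1 j)))
    ((hsw' a1).1.trans h01) ((hsw' a1).2.trans h23) ((hsw' a2).1.trans k01)
    ((hsw' a2).2.trans k23) hq hr f hf
  intro P hP'
  have h2 := htool n f hf (fun j => P (ρ1 (ρ2 j))) (fun i => by
    rcases hP' i with h3 | h3
    · left
      intro p q
      have := h3 (ρ1 (ρ2 p)) (ρ1 (ρ2 q))
      simp only [hinv1, hinv2] at this
      exact this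
    · right
      intro p q
      have := h3 (ρ1 (ρ2 p)) (ρ1 (ρ2 q))
      simp only [hinv1, hinv2] at this
      exact this)
  rw [(hsw P).1, (hsw P).2] at h2
  exact h2

theorem sl_e (K : Core C B) [Finite C] [Countable B] (hP : K.Prim) (h1 : K.OneCyc)
    (hsurj : ∀ a, ∃ x y, K.c x y = a) (hs : K.Solved) (a : C) (ha : a ≠ K.e) : K.SL a K.e := by
  classical
  by_contra hSL
  have hcan := K.canon_e hP h1 a ha hSL
  obtain ⟨x, y, hxy⟩ := hsurj a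
  obtain ⟨f, hf, hmaj⟩ := K.maj_of_solved K.e a ha.symm (hsurj _) ⟨x, y, hxy⟩ hs hcan
    (by
      rintro ⟨f, hf, h⟩
      have h2 := h ![x, x] ![x, y] (Or.inl ⟨K.c_self _, hxy⟩)
      have h3 := h ![x, y] ![y, y] (Or.inr ⟨hxy, K.c_self _⟩)
      rw [K.c_eq] at h2 h3
      obtain ⟨i, hi⟩ := hf ![x, x] ![y, y]
      rw [h2, h3, K.c_self] at hi
      fin_cases i
      · exact ha (hi.trans hxy).symm
      · exact ha (hi.trans hxy).symm)
    hSL
  have m1 := hmaj ![x, x, x] ![x, x, y] (fun i => by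
      fin_cases i
      · exact Or.inl (K.c_self _)
      · exact Or.inl (K.c_self _)
      · exact Or.inr hxy) 0 1 (by decide) rfl
  have m2 := hmaj ![x, x, y] ![x, y, y] (fun i => by
      fin_cases i
      · exact Or.inl (K.c_self _)
      · exact Or.inr hxy
      · exact Or.inl (K.c_self _)) 0 2 (by decide) ((K.c_self _).trans (K.c_self _).symm)
  have m3 := hmaj ![x, x, x] ![x, y, y] (fun i => by
      fin_cases i
      · exact Or.inl (K.c_self _)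
      · exact Or.inr hxy
      · exact Or.inr hxy) 1 2 (by decide) rfl
  have e1 : f ![x, x, x] = f ![x, x, y] := (K.c_eq _ _).1 (m1.trans (K.c_self _))
  have e2 : f ![x, x, y] = f ![x, y, y] := (K.c_eq _ _).1 (m2.trans (K.c_self _))
  rw [e1, e2, K.c_self] at m3
  exact ha (hxy.symm.trans m3.symm)

end Core

end Pool.Agent.H127_SB
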