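import Mathlib
import Pool.Agent.H127_SB.PairE

/-!
Pairs of non-identity colours: semilattice or canonical (helper127).
-/

namespace Pool.Agent.H127_SB

universe u v w

variable {C : Type u} {B : Type v}

namespace Core

/-- Two edges `e`, `e'` lie as `E0`, `E1`. -/
def Tau (K : Core C B) (E0 E1 e e' : Bool → B) : Prop :=
  (∀ s t, K.c (e s) (e t) = K.c (E0 s) (E0 t)) ∧ (∀ s t, K.c (e' s) (e' t) = K.c (E1 s) (E1 t)) ∧
  ∀ s t, K.c (e s) (e' t) = K.c (E0 s) (E1 t)

theorem tau_cycle (K : Core C B) (E0 E1 : Bool → B)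
    (hG : ∀ s t, K.c (E1 s) (E1 t) = K.c (E0 s) (E0 t))
    (hcyc : ∀ s t r, K.T (K.c (E0 s) (E1 t)) (K.c (E0 t) (E1 r)) (K.c (E0 r) (E1 s)))
    (e e' : Bool → B) (h : K.Tau E0 E1 e e') :
    ∃ e'', K.Tau E0 E1 e' e'' ∧ K.Tau E0 E1 e'' e := by
  classical
  let G : Bool → Bool → C := fun s t => K.c (E0 s) (E0 t)
  let M : Bool → Bool → C := fun s t => K.c (E0 s) (E1 t)
  let D : Fin 3 × Bool → Fin 3 × Bool → C := fun x y =>
    if x.1 = y.1 then G x.2 y.2 else if y.1 = x.1 + 1 then M x.2 y.2 else M y.2 x.2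
  have F4 : ∀ s t r, K.T (G s t) (G t r) (G s r) := fun s t r => K.tri _ _ _
  have F2 : ∀ s t r, K.T (G s t) (M t r) (M s r) := fun s t r => K.tri _ _ _
  have F3 : ∀ s t r, K.T (M s t) (G t r) (M s r) := by
    intro s t r
    have := K.tri (E0 s) (E1 t) (E1 r)
    rw [hG] at this
    exact this
  have F1 : ∀ s t r, K.T (M s t) (M t r) (M r s) := hcyc
  have hnet : K.Net D := by
    refine ⟨?_, ?_, ?_⟩
    · rintro ⟨i, s⟩
      simp only [D, if_true, G, K.c_self]
    · rintro ⟨i, s⟩ ⟨j, t⟩
      fin_cases i <;> fin_cases j <;> first | rfl | exact K.c_symm _ _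
    · rintro ⟨i, s⟩ ⟨j, t⟩ ⟨k, r⟩
      fin_cases i <;> fin_cases j <;> fin_cases k <;>
      first
      | exact F4 s t r
      | exact F2 s t r
      | exact K.T_rot (K.T_swap (F3 r s t))
      | exact F3 s t r
      | exact K.T_swap (K.T_rot (F2 t r s))
      | exact K.T_rev (F2 s r t)
      | exact K.T_rot (F3 t s r)
      | exact F1 s t r
      | exact K.T_rot (F1 t s r)
  obtain ⟨φ, hφ0, -, hφ⟩ := K.realize D hnet (fun _ => True) (fun _ _ _ b => ⟨b, trivial, fun _ => rfl⟩)
    (Finset.univ.filter (fun x => x.1 ≠ 2)) (fun x => if x.1 = 0 then e x.2 else e' x.2)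
    (fun _ _ => trivial) (by
      rintro ⟨i, s⟩ hi ⟨j, t⟩ hj
      simp only [Finset.mem_filter, Finset.mem_univ, true_and] at hi hj
      fin_cases i
      · fin_cases j
        · exact h.1 s t
        · exact h.2.2 s t
        · exact absurd rfl hj
      · fin_cases j
        · exact (K.c_symm _ _).trans (h.2.2 t s)
        · exact (h.2.1 s t).trans (hG s t)
        · exact absurd rfl hj
      · exact absurd rfl hi)
  have h0 : ∀ s, φ (0, s) = e s := fun s => hφ0 (0, s) (by simp)
  have h1 : ∀ s, φ (1, s) = e' s := fun s => hφ0 (1, s) (by simp)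
  refine ⟨fun s => φ (2, s), ⟨?_, ?_, ?_⟩, ⟨?_, ?_, ?_⟩⟩
  · intro s t
    rw [h.2.1, hG]
  · intro s t
    rw [hG]
    exact hφ (2, s) (2, t)
  · intro s t
    rw [← h1]
    exact hφ (1, s) (2, t)
  · intro s t
    exact hφ (2, s) (2, t)
  · intro s t
    rw [h.1, hG]
  · intro s t
    show K.c (φ (2, s)) (e t) = _
    rw [← h0]
    exact hφ (2, s) (0, t)

/-- From single coordinate moves to canonicity. -/
theorem canon_of_moves (K : Core C B) [Finite C] (hP : K.Prim) (h1 : K.OneCyc) (a b : C)
    (ha : a ≠ K.e) (hb : b ≠ K.e) {n : ℕ} (f : (Fin n → B) → B) (hf : K.Cons f)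
    (hmove : ∀ g, g = a ∨ g = b → ∃ t, t ≠ K.e ∧ K.T g t g ∧ ∀ X Y : Fin n → B, K.In2 a b X Y →
      ∀ i y, K.c (X i) (Y i) = g → K.c (X i) y = g → K.c (Y i) y = t → K.c (f X) (f Y) = a →
      K.c (f X) (f (Function.update Y i y)) = a) : K.CanonOn a b f := by
  classical
  have hIn2u : ∀ X Y : Fin n → B, K.In2 a b X Y → ∀ i y,
      (K.c (X i) y = a ∨ K.c (X i) y = b) → K.In2 a b X (Function.update Y i y) := by
    intro X Y hXY i y hy j
    by_cases hj : j = i
    · subst hj; rw [Function.update_self]; exact hy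
    · rw [Function.update_of_ne hj]; exact hXY j
  have hIn2s : ∀ X Y : Fin n → B, K.In2 a b X Y → K.In2 a b Y X := by
    intro X Y h i; rw [K.c_symm]; exact h i
  -- second vertex moves
  have s1 : ∀ g, g = a ∨ g = b → ∀ X Y : Fin n → B, K.In2 a b X Y →
      ∀ i y, K.c (X i) (Y i) = g → K.c (X i) y = g → K.c (f X) (f Y) = a →
      K.c (f X) (f (Function.update Y i y)) = a := by
    intro g hg X Y hXY i y hc hy hfa
    obtain ⟨t, ht, htt, hmv⟩ := hmove g hg
    have h2 := K.lp hP h1 g ⟨X i, Y i, hc⟩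
      {t | K.T g t g ∧ ∀ X Y : Fin n → B, K.In2 a b X Y →
      ∀ i y, K.c (X i) (Y i) = g → K.c (X i) y = g → K.c (Y i) y = t → K.c (f X) (f Y) = a →
      K.c (f X) (f (Function.update Y i y)) = a}
      ⟨K.T_pep _, fun X Y _ i y _ _ h3 h4 => by
        rw [K.c_eq] at h3
        subst h3
        rw [Function.update_eq_self]
        exact h4⟩
      (by
        rintro g1 g2 g3 ⟨hg1, hg1'⟩ ⟨hg2, hg2'⟩ hg3 hT
        refine ⟨hg3, fun X Y hXY i y hc hy hyy hfa => ?_⟩
        obtain ⟨z, hz⟩ := K.ep' (ι := Fin 3) ![X i, Y i, y] ![g, g1, g2] (by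
          intro p q
          fin_cases p <;> fin_cases q <;>
          simp only [Fin.zero_eta, Fin.mk_one, Fin.reduceFinMk, Matrix.cons_val_zero,
            Matrix.cons_val_one, Matrix.cons_val, K.c_self]
          · exact K.T_pep _
          · rw [hc]; exact K.T_rot hg1
          · rw [hy]; exact K.T_rot hg2
          · rw [K.c_symm, hc]; exact K.T_rev (K.T_rot hg1)
          · exact K.T_pep _
          · rw [hyy]; exact K.T_rot hT
          · rw [K.c_symm, hy]; exact K.T_rev (K.T_rot hg2)
          · rw [K.c_symm, hyy]; exact K.T_rev (K.T_rot hT)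
          · exact K.T_pep _)
        have z0 : K.c (X i) z = g := by rw [K.c_symm]; exact hz 0
        have z1 : K.c (Y i) z = g1 := by rw [K.c_symm]; exact hz 1
        have z2 : K.c z y = g2 := hz 2
        have h3 := hg1' X Y hXY i z hc z0 z1 hfa
        have h4 := hg2' X (Function.update Y i z) (hIn2u X Y hXY i z (by rw [z0]; exact hg)) i y
          (by rw [Function.update_self]; exact z0) hy (by rw [Function.update_self]; exact z2) h3
        rw [Function.update_idem] at h4
        exact h4)
      t ht ⟨htt, hmv⟩ (K.c (Y i) y) (by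
        have := K.tri (X i) (Y i) y
        rw [hc, hy] at this
        exact this)
    exact h2.2 X Y hXY i y hc hy rfl hfa
  -- first vertex moves
  have s1' : ∀ g, g = a ∨ g = b → ∀ X Y : Fin n → B, K.In2 a b X Y →
      ∀ i x, K.c (X i) (Y i) = g → K.c (Y i) x = g → K.c (f X) (f Y) = a →
      K.c (f (Function.update X i x)) (f Y) = a := by
    intro g hg X Y hXY i x hc hx hfa
    rw [K.c_symm]
    exact s1 g hg Y X (hIn2s X Y hXY) i x (by rw [K.c_symm]; exact hc) hx
      (by rw [K.c_symm]; exact hfa)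
  -- moves along walks
  have s2 : ∀ g, g = a ∨ g = b → ∀ X Y : Fin n → B, K.In2 a b X Y → ∀ i, K.c (X i) (Y i) = g →
      K.c (f X) (f Y) = a → ∀ m z z', K.Walk g m (Y i) z → K.c z z' = g →
      (Even m → K.c (f (Function.update X i z')) (f (Function.update Y i z)) = a) ∧
      (Odd m → K.c (f (Function.update X i z)) (f (Function.update Y i z')) = a) := by
    intro g hg X Y hXY i hc hfa m
    have hIn2uu : ∀ x y, K.c x y = g → K.In2 a b (Function.update X i x) (Function.update Y i y) := by
      intro x y hxy j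
      by_cases hj : j = i
      · subst hj; rw [Function.update_self, Function.update_self, hxy]; exact hg
      · rw [Function.update_of_ne hj, Function.update_of_ne hj]; exact hXY j
    induction m with
    | zero =>
      intro z z' hw hzz
      have hw' : Y i = z := hw
      subst hw'
      refine ⟨fun _ => ?_, fun h => by simp at h⟩
      rw [Function.update_eq_self]
      exact s1' g hg X Y hXY i z' hc hzz hfa
    | succ m ih =>
      rintro z z' ⟨x, hx1, hx2⟩ hzz
      have h3 := ih x z hx1 hx2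
      refine ⟨fun hm => ?_, fun hm => ?_⟩
      · have h4 := h3.2 (by
          rw [Nat.even_add_one] at hm; exact Nat.not_even_iff_odd.1 hm)
        have h5 := s1' g hg _ _ (hIn2uu x z hx2) i z' (by
          rw [Function.update_self, Function.update_self]; exact hx2)
          (by rw [Function.update_self]; exact hzz) h4
        rw [Function.update_idem] at h5
        exact h5
      · have h4 := h3.1 (by
          rw [Nat.odd_add_one] at hm; exact Nat.not_odd_iff_even.1 hm)
        have h5 := s1 g hg _ _ (hIn2uu z x (by rw [K.c_symm]; exact hx2)) i z' (by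
          rw [Function.update_self, Function.update_self, K.c_symm]; exact hx2)
          (by rw [Function.update_self]; exact hzz) h4
        rw [Function.update_idem] at h5
        exact h5
  -- any edge
  have s3 : ∀ X Y : Fin n → B, K.In2 a b X Y → K.c (f X) (f Y) = a → ∀ i x y,
      K.c x y = K.c (X i) (Y i) → K.c (f (Function.update X i x)) (f (Function.update Y i y)) = a := by
    intro X Y hXY hfa i x y hxy
    have hne : K.c (X i) (Y i) ≠ K.e := by
      rcases hXY i with h | h <;> rw [h] <;> assumption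
    obtain ⟨m0, hm0⟩ := K.walk_all hP h1 _ hne
    exact (s2 _ (hXY i) X Y hXY i rfl hfa (2 * m0 + 1) x y (hm0 _ (by omega) _ _) hxy).2
      ⟨m0, rfl⟩
  -- all coordinates
  have s4 : ∀ X Y X' Y' : Fin n → B, K.In2 a b X Y → (∀ i, K.c (X i) (Y i) = K.c (X' i) (Y' i)) →
      K.c (f X) (f Y) = a → K.c (f X') (f Y') = a := by
    intro X Y X' Y' hXY hcc hfa
    have h3 : ∀ F : Finset (Fin n), K.In2 a b (F.piecewise X' X) (F.piecewise Y' Y) ∧
        K.c (f (F.piecewise X' X)) (f (F.piecewise Y' Y)) = a := by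
      intro F
      induction F using Finset.induction_on with
      | empty =>
        simp only [Finset.piecewise_empty]
        exact ⟨hXY, hfa⟩
      | insert j F hj ih =>
        rw [Finset.piecewise_insert, Finset.piecewise_insert]
        have h4 : K.c (X' j) (Y' j) = K.c (F.piecewise X' X j) (F.piecewise Y' Y j) := by
          rw [Finset.piecewise_eq_of_notMem _ _ _ hj, Finset.piecewise_eq_of_notMem _ _ _ hj]
          exact (hcc j).symm
        refine ⟨fun k => ?_, s3 _ _ ih.1 ih.2 j (X' j) (Y' j) h4⟩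
        by_cases hk : k = j
        · subst hk
          rw [Function.update_self, Function.update_self, ← hcc k]
          exact hXY k
        · rw [Function.update_of_ne hk, Function.update_of_ne hk]
          exact ih.1 k
    have h4 := (h3 Finset.univ).2
    rw [Finset.piecewise_univ, Finset.piecewise_univ] at h4
    exact h4
  intro X Y X' Y' hXY hcc
  have hXY' : K.In2 a b X' Y' := fun i => by rw [← hcc i]; exact hXY i
  rcases K.cons_in2 a b f hf X Y hXY with h2 | h2
  · rw [h2]; exact (s4 X Y X' Y' hXY hcc h2).symm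
  · rcases K.cons_in2 a b f hf X' Y' hXY' with h3 | h3
    · rw [h3]; exact s4 X' Y' X Y hXY' (fun i => (hcc i).symm) h3
    · rw [h2, h3]

theorem c_iter (K : Core C B) (lam : B → B) (hl : ∀ x y, K.c (lam x) (lam y) = K.c x y) (j : ℕ) :
    ∀ x y, K.c (lam^[j] x) (lam^[j] y) = K.c x y := by
  induction j with
  | zero => intro x y; rfl
  | succ j ih =>
    intro x y
    rw [Function.iterate_succ_apply, Function.iterate_succ_apply, ih, hl]

/-- The choice of the self-embedding moving the base edge by a kappa step, with a vertex avoided. -/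
theorem chain_data (K : Core C B) [Finite C] [Countable B] (hP : K.Prim) (h1 : K.OneCyc)
    (hB : ∃ x y : B, x ≠ y) (p q : Fin 4 → B)
    (hp0 : K.c (p 0) (p 1) ≠ K.e) (hpp : K.c (p 0) (p 1) ≠ K.c (p 2) (p 3))
    (hpq : K.c (p 2) (p 3) = K.c (q 0) (q 1)) (hq : K.c (q 2) (q 3) = K.c (p 0) (p 1)) :
    ∃ (s0 : Bool) (lam : B → B), (∀ x y, K.c (lam x) (lam y) = K.c x y) ∧
      (∀ i j : Fin 4, K.c ((![p 2, p 3, lam (p 0), lam (p 1)] : Fin 4 → B) i)
        ((![p 2, p 3, lam (p 0), lam (p 1)] : Fin 4 → B) j) = K.c (q i) (q j)) ∧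
      ∀ x, lam x ≠ cond s0 (p 0) (p 1) := by
  classical
  -- a vertex of the base edge not in the second edge
  have hv : ∃ s0 : Bool, cond s0 (p 0) (p 1) ≠ p 2 ∧ cond s0 (p 0) (p 1) ≠ p 3 := by
    by_contra hcon
    push Not at hcon
    have hne : p 0 ≠ p 1 := fun h => hp0 (by rw [h, K.c_self])
    have hc1 := hcon true
    have hc2 := hcon false
    simp only [cond_true, cond_false] at hc1 hc2
    by_cases h3 : p 0 = p 2
    · by_cases h4 : p 1 = p 2
      · exact hne (h3.trans h4.symm)
      · have h5 := hc2 h4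
        exact hpp (by rw [h3, h5])
    · have h4 := hc1 h3
      by_cases h5 : p 1 = p 2
      · exact hpp (by rw [h4, h5, K.c_symm])
      · have h6 := hc2 h5
        exact hne (h4.trans h6.symm)
  obtain ⟨s0, hs0, hs0'⟩ := hv
  obtain ⟨f, hf1, hf2, hf3⟩ := K.emb_avoid hP h1 hB (ι := Bool) (fun i => cond i (q 0) (q 1))
    (fun i => cond i (p 2) (p 3)) (by
      rintro (_ | _) (_ | _)
      · simp [K.c_self]
      · simp only [cond_false, cond_true]; rw [K.c_symm, hpq, K.c_symm]
      · simp only [cond_false, cond_true]; exact hpq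
      · simp [K.c_self]) (cond s0 (p 0) (p 1)) (by
      rintro (_ | _)
      · exact hs0'.symm
      · exact hs0.symm)
  have f0 : f (q 0) = p 2 := hf2 true
  have f1 : f (q 1) = p 3 := hf2 false
  obtain ⟨lam, hl1, hl2, hl3⟩ := K.emb_avoid hP h1 hB (ι := Bool) (fun i => cond i (p 0) (p 1))
    (fun i => cond i (f (q 2)) (f (q 3))) (by
      rintro (_ | _) (_ | _)
      · simp [K.c_self]
      · simp only [cond_false, cond_true]; rw [K.c_symm, hf1, hq, K.c_symm]
      · simp only [cond_false, cond_true]; rw [hf1, hq]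
      · simp [K.c_self]) (cond s0 (p 0) (p 1)) (by
      rintro (_ | _)
      · exact hf3 _
      · exact hf3 _)
  have l0 : lam (p 0) = f (q 2) := hl2 true
  have l1 : lam (p 1) = f (q 3) := hl2 false
  refine ⟨s0, lam, hl1, ?_, hl3⟩
  have : (![p 2, p 3, lam (p 0), lam (p 1)] : Fin 4 → B) = fun i => f (q i) := by
    funext i
    fin_cases i
    · exact f0.symm
    · exact f1.symm
    · exact l0
    · exact l1
  intro i j
  rw [this]
  exact hf1 _ _

theorem schur (D : Type*) [Finite D] (M : ℕ+ → D) :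
    ∃ d1 d2 : ℕ+, M d1 = M d2 ∧ M (d1 + d2) = M d1 := by
  obtain ⟨c, hc, s, hs⟩ := Hindman.exists_FS_of_finite_cover (M := ℕ+)
    (Set.range (fun d : D => {m | M m = d})) (Set.finite_range _) (by
      intro m _
      exact ⟨{m' | M m' = M m}, ⟨M m, rfl⟩, rfl⟩)
  obtain ⟨d, rfl⟩ := hc
  have h1 : M s.head = d := hs (Hindman.FS.head' s)
  have h2 : M s.tail.head = d := hs (Hindman.FS.tail' _ _ (Hindman.FS.head' s.tail))
  have h3 : M (s.head + s.tail.head) = d := hs (Hindman.FS.cons' _ _ (Hindman.FS.head' s.tail))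
  exact ⟨s.head, s.tail.head, h1.trans h2.symm, h3.trans h1.symm⟩

/-- Closure under the long steps. -/
theorem tau_closed (K : Core C B) [Countable B] (a : C) {n : ℕ} (f : (Fin n → B) → B)
    (p q : Bool → Fin 4 → B)
    (hkap : ∀ X Y X1 Y1 X2 Y2 : Fin n → B, (∀ i, ∃ β : Bool,
      (∀ k l, K.c ((![X i, Y i, X1 i, Y1 i] : Fin 4 → B) k)
        ((![X i, Y i, X1 i, Y1 i] : Fin 4 → B) l) = K.c (p β k) (p β l)) ∧
      (∀ k l, K.c ((![X1 i, Y1 i, X2 i, Y2 i] : Fin 4 → B) k)
        ((![X1 i, Y1 i, X2 i, Y2 i] : Fin 4 → B) l) = K.c (q β k) (q β l))) →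
      K.c (f X) (f Y) = a → K.c (f X2) (f Y2) = a)
    (lam : Bool → B → B) (hl : ∀ β x y, K.c (lam β x) (lam β y) = K.c x y)
    (hlq : ∀ β (i j : Fin 4), K.c ((![p β 2, p β 3, lam β (p β 0), lam β (p β 1)] : Fin 4 → B) i)
        ((![p β 2, p β 3, lam β (p β 0), lam β (p β 1)] : Fin 4 → B) j) = K.c (q β i) (q β j))
    (d : ℕ) (E E' : Bool → Fin n → B)
    (hE : ∀ i, ∃ β, K.Tau (fun s => cond s (p β 0) (p β 1))
      (fun s => (lam β)^[d] (cond s (p β 0) (p β 1))) (fun s => E s i) (fun s => E' s i))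
    (hfa : K.c (f (E true)) (f (E false)) = a) : K.c (f (E' true)) (f (E' false)) = a := by
  classical
  choose β hβ using hE
  have hρ : ∀ i, ∃ ρ : B → B, (∀ x y, K.c (ρ x) (ρ y) = K.c x y) ∧
      (∀ s, ρ (cond s (p (β i) 0) (p (β i) 1)) = E s i) ∧
      ∀ s, ρ ((lam (β i))^[d] (cond s (p (β i) 0) (p (β i) 1))) = E' s i := by
    intro i
    obtain ⟨h1, h2, h3⟩ := hβ i
    obtain ⟨ρ, hρ1, hρ2⟩ := K.emb (ι := Bool ⊕ Bool)
      (Sum.elim (fun s => cond s (p (β i) 0) (p (β i) 1))
        (fun s => (lam (β i))^[d] (cond s (p (β i) 0) (p (β i) 1))))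
      (Sum.elim (fun s => E s i) (fun s => E' s i)) (by
        rintro (s | s) (t | t) <;> simp only [Sum.elim_inl, Sum.elim_inr]
        · exact h1 s t
        · exact h3 s t
        · rw [K.c_symm, K.c_symm ((lam (β i))^[d] _)]; exact h3 t s
        · exact h2 s t)
    exact ⟨ρ, hρ1, fun s => hρ2 (Sum.inl s), fun s => hρ2 (Sum.inr s)⟩
  choose ρ hρ1 hρ2 hρ3 using hρ
  have key : ∀ j : ℕ, K.c (f (fun i => ρ i ((lam (β i))^[j] (p (β i) 0))))
      (f (fun i => ρ i ((lam (β i))^[j] (p (β i) 1)))) = a := by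
    intro j
    induction j with
    | zero =>
      have e1 : (fun i => ρ i ((lam (β i))^[0] (p (β i) 0))) = E true :=
        funext fun i => hρ2 i true
      have e2 : (fun i => ρ i ((lam (β i))^[0] (p (β i) 1))) = E false :=
        funext fun i => hρ2 i false
      rw [e1, e2]; exact hfa
    | succ j ih =>
      refine hkap _ _ (fun i => ρ i ((lam (β i))^[j] (p (β i) 2)))
        (fun i => ρ i ((lam (β i))^[j] (p (β i) 3))) _ _ (fun i => ⟨β i, ?_, ?_⟩) ih
      · have : (![ρ i ((lam (β i))^[j] (p (β i) 0)), ρ i ((lam (β i))^[j] (p (β i) 1)),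
            ρ i ((lam (β i))^[j] (p (β i) 2)), ρ i ((lam (β i))^[j] (p (β i) 3))] : Fin 4 → B) =
            fun k => ρ i ((lam (β i))^[j] (p (β i) k)) := by
          funext k; fin_cases k <;> rfl
        intro k l
        simp only [this]
        rw [hρ1, K.c_iter _ (hl _)]
      · have : (![ρ i ((lam (β i))^[j] (p (β i) 2)), ρ i ((lam (β i))^[j] (p (β i) 3)),
            ρ i ((lam (β i))^[j+1] (p (β i) 0)), ρ i ((lam (β i))^[j+1] (p (β i) 1))] : Fin 4 → B) =
            fun k => ρ i ((lam (β i))^[j]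
              ((![p (β i) 2, p (β i) 3, lam (β i) (p (β i) 0), lam (β i) (p (β i) 1)] : Fin 4 → B) k)) := by
          funext k; fin_cases k <;> rfl
        intro k l
        simp only [this]
        rw [hρ1, K.c_iter _ (hl _)]
        exact hlq _ _ _
  have h1 := key d
  have e1 : (fun i => ρ i ((lam (β i))^[d] (p (β i) 0))) = E' true :=
    funext fun i => hρ3 i true
  have e2 : (fun i => ρ i ((lam (β i))^[d] (p (β i) 1))) = E' false :=
    funext fun i => hρ3 i false
  rw [e1, e2] at h1
  exact h1

/-- The one-vertex move. -/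
theorem vertex_move (K : Core C B) [Finite C] (hP : K.Prim) (h1 : K.OneCyc)
    (hB : ∃ x y : B, x ≠ y) (a b : C) (γ : Bool → C)
    (hγ : ∀ g, g = a ∨ g = b ↔ ∃ β, g = γ β) (hγe : ∀ β, γ β ≠ K.e)
    {n : ℕ} (f : (Fin n → B) → B)
    (E0 E1 : Bool → Bool → B) (hE0 : ∀ β, K.c (E0 β true) (E0 β false) = γ β)
    (hG : ∀ β s t, K.c (E1 β s) (E1 β t) = K.c (E0 β s) (E0 β t))
    (hcyc : ∀ β s t r, K.T (K.c (E0 β s) (E1 β t)) (K.c (E0 β t) (E1 β r)) (K.c (E0 β r) (E1 β s)))
    (hcl : ∀ E E' : Bool → Fin n → B, (∀ i, ∃ β, K.Tau (E0 β) (E1 β) (fun s => E s i)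
      (fun s => E' s i)) → K.c (f (E true)) (f (E false)) = a → K.c (f (E' true)) (f (E' false)) = a)
    (s0 : Bool → Bool) (hs0 : ∀ β s, E1 β s ≠ E0 β (s0 β)) (β : Bool) :
    ∃ t, t ≠ K.e ∧ K.T (γ β) t (γ β) ∧ ∀ X Y : Fin n → B, K.In2 a b X Y →
      ∀ i y, K.c (X i) (Y i) = γ β → K.c (X i) y = γ β → K.c (Y i) y = t → K.c (f X) (f Y) = a →
      K.c (f X) (f (Function.update Y i y)) = a := by
  classical
  have hE0' : ∀ β s, K.c (E0 β s) (E0 β (!s)) = γ β := by
    intro β s
    cases s
    · rw [K.c_symm]; exact hE0 β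
    · exact hE0 β
  have hE0e : ∀ β s, K.c (E0 β s) (E0 β s) = K.e := fun β s => K.c_self _
  -- closure under inverse steps
  have hcl' : ∀ E E' : Bool → Fin n → B, (∀ i, ∃ β, K.Tau (E0 β) (E1 β) (fun s => E s i)
      (fun s => E' s i)) → K.c (f (E' true)) (f (E' false)) = a →
      K.c (f (E true)) (f (E false)) = a := by
    intro E E' h h2
    choose β' hβ' using h
    have h3 : ∀ i, ∃ e'' : Bool → B, K.Tau (E0 (β' i)) (E1 (β' i)) (fun s => E' s i) e'' ∧
        K.Tau (E0 (β' i)) (E1 (β' i)) e'' (fun s => E s i) := fun i =>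
      K.tau_cycle _ _ (hG _) (hcyc _) _ _ (hβ' i)
    choose e'' he1 he2 using h3
    have h4 := hcl E' (fun s i => e'' i s) (fun i => ⟨β' i, he1 i⟩) h2
    exact hcl (fun s i => e'' i s) E (fun i => ⟨β' i, he2 i⟩) h4
  -- the new vertex
  obtain ⟨y1, hy1, hy1'⟩ := K.sap hP h1 hB (ι := Option Bool)
    (fun o => o.elim (E0 β (!(s0 β))) (E1 β)) (E0 β (s0 β)) (by
      rintro (_ | s)
      · intro h
        have := hE0' β (s0 β)
        simp only [Option.elim] at h
        rw [← h, K.c_self] at this
        exact hγe β this.symm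
      · exact (hs0 β s).symm)
  have hy2 : K.c y1 (E0 β (!(s0 β))) = K.c (E0 β (s0 β)) (E0 β (!(s0 β))) := hy1' none
  have hy3 : ∀ s, K.c y1 (E1 β s) = K.c (E0 β (s0 β)) (E1 β s) := fun s => hy1' (some s)
  refine ⟨K.c (E0 β (s0 β)) y1, fun h => hy1 ((K.c_eq _ _).1 h).symm, ?_, ?_⟩
  · have := K.tri (E0 β (!(s0 β))) (E0 β (s0 β)) y1
    rw [K.c_symm (E0 β (!(s0 β))) y1, hy2, hE0', K.c_symm (E0 β (!(s0 β))) (E0 β (s0 β)),
      hE0'] at this
    exact this
  · intro X Y hXY i0 y hc hy hyy hfa
    -- the position, indexed by `Bool`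
    let E : Bool → Fin n → B := fun s => if s = s0 β then Y else X
    let E2 : Bool → Fin n → B := fun s => if s = s0 β then Function.update Y i0 y else X
    have hEs : ∀ (F : Bool → Fin n → B), K.c (f (F true)) (f (F false)) =
        K.c (f (F (!(s0 β)))) (f (F (s0 β))) := by
      intro F
      cases s0 β
      · rfl
      · exact K.c_symm _ _
    have hns : (!(s0 β)) ≠ s0 β := by cases s0 β <;> decide
    have hE_a : K.c (f (E true)) (f (E false)) = K.c (f X) (f Y) := by
      rw [hEs]; simp only [E, if_neg hns, if_true]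
    have hE2_a : K.c (f (E2 true)) (f (E2 false)) = K.c (f X) (f (Function.update Y i0 y)) := by
      rw [hEs]; simp only [E2, if_neg hns, if_true]
    -- target of the step
    have hch : ∀ i, ∃ (β' : Bool) (e' : Bool → B),
        K.Tau (E0 β') (E1 β') (fun s => E s i) e' ∧ K.Tau (E0 β') (E1 β') (fun s => E2 s i) e' := by
      intro i
      by_cases hi : i = i0
      · subst hi
        -- five points
        obtain ⟨w', hw1, hw2⟩ := K.fh (V := Option (Bool ⊕ Bool))
          {x | ∀ s, x ≠ some (Sum.inr s)}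
          (fun o => o.elim y1 (Sum.elim (E0 β) (E1 β)))
          (fun o => o.elim y (fun z => Sum.elim (fun s => E s i) (fun _ => y) z)) (by
            have k1 : K.c (E (!(s0 β)) i) (E (s0 β) i) = γ β := by
              simp only [E, if_neg hns, if_true]; exact hc
            have k2 : K.c (E (!(s0 β)) i) y = γ β := by
              simp only [E, if_neg hns]; exact hy
            have k3 : K.c (E (s0 β) i) y = K.c (E0 β (s0 β)) y1 := by
              simp only [E, if_true]; exact hyy
            have k4 : ∀ s : Bool, s = s0 β ∨ s = !(s0 β) := by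
              intro s; cases s <;> cases s0 β <;> decide
            have k5 : ∀ s, K.c y (E s i) = K.c y1 (E0 β s) := by
              intro s
              rcases k4 s with h | h
              · rw [h, K.c_symm, k3, K.c_symm]
              · rw [h, K.c_symm, k2, hy2, hE0']
            have k6 : ∀ s t, K.c (E s i) (E t i) = K.c (E0 β s) (E0 β t) := by
              intro s t
              rcases k4 s with h | h <;> rcases k4 t with h' | h' <;> rw [h, h']
              · rw [K.c_self, K.c_self]
              · rw [K.c_symm, k1, hE0']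
              · rw [k1, K.c_symm, hE0']
              · rw [K.c_self, K.c_self]
            rintro (_ | s | s) hs (_ | t | t) ht
            · simp only [Option.elim, K.c_self]
            · exact k5 t
            · exact absurd rfl (ht t)
            · simp only [Option.elim, Sum.elim_inl]
              rw [K.c_symm, k5, K.c_symm]
            · exact k6 s t
            · exact absurd rfl (ht t)
            · exact absurd rfl (hs s)
            · exact absurd rfl (hs s)
            · exact absurd rfl (hs s))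
        have w1 : w' none = y := hw1 none (by intro s; simp)
        have w2 : ∀ s, w' (some (Sum.inl s)) = E s i := fun s => hw1 (some (Sum.inl s)) (by
          intro s'; simp)
        refine ⟨β, fun s => w' (some (Sum.inr s)), ⟨?_, ?_, ?_⟩, ⟨?_, ?_, ?_⟩⟩
        · intro s t
          show K.c (E s i) (E t i) = _
          rw [← w2, ← w2]
          exact hw2 (some (Sum.inl s)) (some (Sum.inl t))
        · intro s t
          exact hw2 (some (Sum.inr s)) (some (Sum.inr t))
        · intro s t
          show K.c (E s i) _ = _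
          rw [← w2]
          exact hw2 (some (Sum.inl s)) (some (Sum.inr t))
        · have k4 : ∀ s : Bool, s = s0 β ∨ s = !(s0 β) := by
            intro s; cases s <;> cases s0 β <;> decide
          have k7 : E2 (s0 β) i = y := by simp only [E2, if_true, Function.update_self]
          have k8 : E2 (!(s0 β)) i = X i := by simp only [E2, if_neg hns]
          intro s t
          show K.c (E2 s i) (E2 t i) = _
          rcases k4 s with h | h <;> rcases k4 t with h' | h' <;> rw [h, h']
          · rw [K.c_self, K.c_self]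
          · rw [k7, k8, K.c_symm, hy, hE0']
          · rw [k7, k8, hy, K.c_symm, hE0']
          · rw [K.c_self, K.c_self]
        · intro s t
          exact hw2 (some (Sum.inr s)) (some (Sum.inr t))
        · have k4 : ∀ s : Bool, s = s0 β ∨ s = !(s0 β) := by
            intro s; cases s <;> cases s0 β <;> decide
          have k7 : E2 (s0 β) i = y := by simp only [E2, if_true, Function.update_self]
          have k8 : E2 (!(s0 β)) i = E (!(s0 β)) i := by simp only [E2, E, if_neg hns]
          intro s t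
          show K.c (E2 s i) _ = _
          rcases k4 s with h | h <;> rw [h]
          · rw [k7, ← w1, ← hy3]
            exact hw2 none (some (Sum.inr t))
          · rw [k8, ← w2]
            exact hw2 (some (Sum.inl _)) (some (Sum.inr t))
      · -- other coordinates do not move
        obtain ⟨β', hβ'⟩ := (hγ _).1 (hXY i)
        obtain ⟨w', hw1, hw2⟩ := K.fh (V := Bool ⊕ Bool)
          {x | ∀ s, x ≠ Sum.inr s}
          (Sum.elim (E0 β') (E1 β'))
          (fun z => Sum.elim (fun s => E s i) (fun _ => y) z) (by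
            have k1 : K.c (E (!(s0 β)) i) (E (s0 β) i) = γ β' := by
              simp only [E, if_neg hns, if_true]; exact hβ'
            have k4 : ∀ s : Bool, s = s0 β ∨ s = !(s0 β) := by
              intro s; cases s <;> cases s0 β <;> decide
            have k9 : K.c (E0 β' (!(s0 β))) (E0 β' (s0 β)) = γ β' := by
              rw [K.c_symm]; exact hE0' β' _
            have k6 : ∀ s t, K.c (E s i) (E t i) = K.c (E0 β' s) (E0 β' t) := by
              intro s t
              rcases k4 s with h | h <;> rcases k4 t with h' | h' <;> rw [h, h']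
              · rw [K.c_self, K.c_self]
              · rw [K.c_symm, k1, hE0']
              · rw [k1, k9]
              · rw [K.c_self, K.c_self]
            rintro (s | s) hs (t | t) ht
            · exact k6 s t
            · exact absurd rfl (ht t)
            · exact absurd rfl (hs s)
            · exact absurd rfl (hs s))
        have w2 : ∀ s, w' (Sum.inl s) = E s i := fun s => hw1 (Sum.inl s) (by
          intro s'; simp)
        have hEE : ∀ s, E2 s i = E s i := by
          intro s
          simp only [E2, E]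
          split_ifs
          · rw [Function.update_of_ne hi]
          · rfl
        refine ⟨β', fun s => w' (Sum.inr s), ?_⟩
        have hT : K.Tau (E0 β') (E1 β') (fun s => E s i) (fun s => w' (Sum.inr s)) := by
          refine ⟨?_, ?_, ?_⟩
          · intro s t
            show K.c (E s i) (E t i) = _
            rw [← w2, ← w2]
            exact hw2 (Sum.inl s) (Sum.inl t)
          · intro s t
            exact hw2 (Sum.inr s) (Sum.inr t)
          · intro s t
            show K.c (E s i) _ = _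
            rw [← w2]
            exact hw2 (Sum.inl s) (Sum.inr t)
        refine ⟨hT, ?_⟩
        simp only [hEE]
        exact hT
    choose β' e' he1 he2 using hch
    have h4 := hcl E (fun s i => e' i s) (fun i => ⟨β' i, he1 i⟩) (hE_a.trans hfa)
    have h5 := hcl' E2 (fun s i => e' i s) (fun i => ⟨β' i, he2 i⟩) h4
    exact hE2_a.symm.trans h5

theorem canon_ab (K : Core C B) [Finite C] [Countable B] (hP : K.Prim) (h1 : K.OneCyc)
    (hB : ∃ x y : B, x ≠ y)
    (a b : C) (ha : a ≠ K.e) (hb : b ≠ K.e) (hab : a ≠ b)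
    (hSL : ¬ K.SL a b) (hSL' : ¬ K.SL b a) : K.AllCanon a b := by
  classical
  obtain ⟨a1, a2, ha1, ha2, ha3, ha4, htoolA⟩ := K.noSL_tool a b hSL
  obtain ⟨b1, b2, hb1, hb2, hb3, hb4, htoolB⟩ := K.noSL_tool b a hSL'
  let γ : Bool → C := fun β => cond β a b
  let p : Bool → Fin 4 → B := fun β => cond β a2 a1
  let q : Bool → Fin 4 → B := fun β => cond β b2 b1
  have hp01 : ∀ β, K.c (p β 0) (p β 1) = γ β := by
    intro β; cases β
    · exact ha1
    · exact ha3
  have hp23 : ∀ β, K.c (p β 2) (p β 3) = γ (!β) := by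
    intro β; cases β
    · exact ha2
    · exact ha4
  have hq01 : ∀ β, K.c (q β 0) (q β 1) = γ (!β) := by
    intro β; cases β
    · exact hb1
    · exact hb3
  have hq23 : ∀ β, K.c (q β 2) (q β 3) = γ β := by
    intro β; cases β
    · exact hb2
    · exact hb4
  have hγe : ∀ β, γ β ≠ K.e := by
    intro β; cases β
    · exact hb
    · exact ha
  have hγne : ∀ β, γ β ≠ γ (!β) := by
    intro β; cases β
    · exact hab.symm
    · exact hab
  have hdata : ∀ β, ∃ (s0 : Bool) (lam : B → B), (∀ x y, K.c (lam x) (lam y) = K.c x y) ∧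
      (∀ i j : Fin 4, K.c ((![p β 2, p β 3, lam (p β 0), lam (p β 1)] : Fin 4 → B) i)
        ((![p β 2, p β 3, lam (p β 0), lam (p β 1)] : Fin 4 → B) j) = K.c (q β i) (q β j)) ∧
      ∀ x, lam x ≠ cond s0 (p β 0) (p β 1) := by
    intro β
    apply K.chain_data hP h1 hB (p β) (q β)
    · rw [hp01]; exact hγe β
    · rw [hp01, hp23]; exact hγne β
    · rw [hp23, hq01]
    · rw [hq23, hp01]
  choose s0 lam hl hlq hlv using hdata
  -- Schur
  let z : Bool → Bool → B := fun β s => cond s (p β 0) (p β 1)
  obtain ⟨d1, d2, hd1, hd2⟩ := schur (Bool → Bool → Bool → C)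
    (fun d => fun β s t => K.c (z β s) ((lam β)^[(d : ℕ)] (z β t)))
  have hM2 : ∀ β s t, K.c (z β s) ((lam β)^[(d2 : ℕ)] (z β t)) =
      K.c (z β s) ((lam β)^[(d1 : ℕ)] (z β t)) := fun β s t =>
    (congrFun (congrFun (congrFun hd1 β) s) t).symm
  have hM3 : ∀ β s t, K.c (z β s) ((lam β)^[(d1 : ℕ) + (d2 : ℕ)] (z β t)) =
      K.c (z β s) ((lam β)^[(d1 : ℕ)] (z β t)) := fun β s t =>
    congrFun (congrFun (congrFun hd2 β) s) t
  have hchain : ∀ β s t r, K.T (K.c (z β s) ((lam β)^[(d1 : ℕ)] (z β t)))
      (K.c (z β t) ((lam β)^[(d1 : ℕ)] (z β r))) (K.c (z β s) ((lam β)^[(d1 : ℕ)] (z β r))) := by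
    intro β s t r
    have h2 := K.tri (z β s) ((lam β)^[(d1 : ℕ)] (z β t)) ((lam β)^[(d1 : ℕ) + (d2 : ℕ)] (z β r))
    rw [hM3] at h2
    rw [Function.iterate_add_apply, K.c_iter _ (hl β), hM2] at h2
    exact h2
  have hcyc : ∀ β s t r, K.T (K.c (z β s) ((lam β)^[(d1 : ℕ)] (z β t)))
      (K.c (z β t) ((lam β)^[(d1 : ℕ)] (z β r))) (K.c (z β r) ((lam β)^[(d1 : ℕ)] (z β s))) := by
    intro β s t r
    by_cases hst : s = t
    · subst hst
      -- (s, s, r)
      exact K.T_swap (K.T_rot (hchain β s r s))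
    · by_cases htr : t = r
      · subst htr
        have := hchain β t s t
        exact K.T_rot (K.T_swap this)
      · have hsr : s = r := by
          revert hst htr; cases s <;> cases t <;> cases r <;> decide
        subst hsr
        exact hchain β s t s
  intro n f hf
  have hkap : ∀ X Y X1 Y1 X2 Y2 : Fin n → B, (∀ i, ∃ β : Bool,
      (∀ k l, K.c ((![X i, Y i, X1 i, Y1 i] : Fin 4 → B) k)
        ((![X i, Y i, X1 i, Y1 i] : Fin 4 → B) l) = K.c (p β k) (p β l)) ∧
      (∀ k l, K.c ((![X1 i, Y1 i, X2 i, Y2 i] : Fin 4 → B) k)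
        ((![X1 i, Y1 i, X2 i, Y2 i] : Fin 4 → B) l) = K.c (q β k) (q β l))) →
      K.c (f X) (f Y) = a → K.c (f X2) (f Y2) = a := by
    intro X Y X1 Y1 X2 Y2 h hfa
    choose β hβ1 hβ2 using h
    have t1 := htoolA n f hf (fun k i => (![X i, Y i, X1 i, Y1 i] : Fin 4 → B) k) (fun i => by
      have h2 := hβ1 i
      cases hβ : β i
      · rw [hβ] at h2; left; exact h2
      · rw [hβ] at h2; right; exact h2)
    have t2 := htoolB n f hf (fun k i => (![X1 i, Y1 i, X2 i, Y2 i] : Fin 4 → B) k) (fun i => by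
      have h2 := hβ2 i
      cases hβ : β i
      · rw [hβ] at h2; left; exact h2
      · rw [hβ] at h2; right; exact h2)
    have c1 : K.In2 a b X1 Y1 := by
      intro i
      have h2 := hβ1 i 2 3
      rw [hp23] at h2
      have h3 : K.c (X1 i) (Y1 i) = γ (!(β i)) := h2
      rw [h3]
      cases β i
      · left; rfl
      · right; rfl
    have c2 : K.In2 a b X2 Y2 := by
      intro i
      have h2 := hβ2 i 2 3
      rw [hq23] at h2
      have h3 : K.c (X2 i) (Y2 i) = γ (β i) := h2
      rw [h3]
      cases β i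
      · right; rfl
      · left; rfl
    have v1 : K.c (f X1) (f Y1) = b := by
      rcases K.cons_in2 a b f hf X1 Y1 c1 with h2 | h2
      · exact absurd ⟨hfa, h2⟩ t1
      · exact h2
    rcases K.cons_in2 a b f hf X2 Y2 c2 with h2 | h2
    · exact h2
    · exact absurd ⟨v1, h2⟩ t2
  have hcl := K.tau_closed a f p q hkap lam hl hlq (d1 : ℕ)
  have hγ : ∀ g, g = a ∨ g = b ↔ ∃ β, g = γ β := by
    intro g
    constructor
    · rintro (rfl | rfl)
      · exact ⟨true, rfl⟩
      · exact ⟨false, rfl⟩
    · rintro ⟨β, rfl⟩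
      cases β
      · right; rfl
      · left; rfl
  apply K.canon_of_moves hP h1 a b ha hb f hf
  intro g hg
  obtain ⟨β, rfl⟩ := (hγ g).1 hg
  exact K.vertex_move hP h1 hB a b γ hγ hγe f z (fun β s => (lam β)^[(d1 : ℕ)] (z β s))
    hp01 (fun β s t => K.c_iter _ (hl β) _ _ _) hcyc hcl s0 (by
      intro β s
      obtain ⟨k, hk⟩ : ∃ k, (d1 : ℕ) = k + 1 := ⟨(d1 : ℕ) - 1, by have := d1.pos; omega⟩
      simp only [hk, Function.iterate_succ_apply']
      exact hlv β _) β

end Core

end Pool.Agent.H127_SB
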