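import Mathlib
import Pool.Agent.H127_SB.PairAB

/-!
Assembling the binary and the ternary operation (helper127).
-/

namespace Pool.Agent.H127_SB

universe u v w

variable {C : Type u} {B : Type v}

namespace Core

/-- `{a, b}` is a semilattice pair. -/
def IsSL (K : Core C B) (a b : C) : Prop := K.SL a b ∨ K.SL b a

theorem IsSL_symm (K : Core C B) {a b : C} (h : K.IsSL a b) : K.IsSL b a := h.symm

/-- One improvement at a time, then compactness. -/
theorem improve (K : Core C B) [Finite C] [Countable B] {n : ℕ}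
    (L0 L1 : (Fin n → B) → (Fin n → B) → Set C)
    (f0 : (Fin n → B) → B) (hf0 : ∀ X Y, K.c (f0 X) (f0 Y) ∈ L0 X Y)
    (h : ∀ f : (Fin n → B) → B, (∀ X Y, K.c (f X) (f Y) ∈ L0 X Y) → ∀ X0 Y0,
      ∃ f' : (Fin n → B) → B, (∀ X Y, K.c (f' X) (f' Y) ∈ L0 X Y) ∧
        K.c (f' X0) (f' Y0) ∈ L1 X0 Y0 ∧
        ∀ X Y, K.c (f X) (f Y) ∈ L1 X Y → K.c (f' X) (f' Y) ∈ L1 X Y) :
    ∃ f : (Fin n → B) → B, ∀ X Y, K.c (f X) (f Y) ∈ L0 X Y ∧ K.c (f X) (f Y) ∈ L1 X Y := by
  classical
  have h1 : ∀ S : Finset ((Fin n → B) × (Fin n → B)), ∃ f : (Fin n → B) → B,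
      (∀ X Y, K.c (f X) (f Y) ∈ L0 X Y) ∧ ∀ p ∈ S, K.c (f p.1) (f p.2) ∈ L1 p.1 p.2 := by
    intro S
    induction S using Finset.induction_on with
    | empty => exact ⟨f0, hf0, by simp⟩
    | insert p S hp ih =>
      obtain ⟨f, hf1, hf2⟩ := ih
      obtain ⟨f', h2, h3, h4⟩ := h f hf1 p.1 p.2
      refine ⟨f', h2, fun r hr => ?_⟩
      rcases Finset.mem_insert.1 hr with rfl | hr
      · exact h3
      · exact h4 _ _ (hf2 r hr)
  obtain ⟨f, hf, _⟩ := K.sat_of_finite (W := Fin n → B) (fun X Y => L0 X Y ∩ L1 X Y) ∅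
    (fun _ => True) (fun _ _ _ _ => trivial) (fun F _ => by
      obtain ⟨f, hf1, hf2⟩ := h1 (F ×ˢ F)
      exact ⟨f, fun X hX Y hY => ⟨hf1 X Y, hf2 (X, Y) (Finset.mem_product.2 ⟨hX, hY⟩)⟩, trivial⟩)
  exact ⟨f, fun X Y => hf X Y⟩

/-- Colour preserving self-map moving one pair to another of the same colour. -/
theorem emb2 (K : Core C B) [Countable B] (x y x' y' : B) (h : K.c x y = K.c x' y') :
    ∃ f : B → B, (∀ u v, K.c (f u) (f v) = K.c u v) ∧ f x = x' ∧ f y = y' := by
  obtain ⟨f, hf1, hf2⟩ := K.emb (ι := Bool) (fun i => cond i x y) (fun i => cond i x' y') (by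
    rintro (_ | _) (_ | _)
    · simp [K.c_self]
    · simp only [cond_false, cond_true]; rw [K.c_symm, ← h, K.c_symm]
    · simp only [cond_false, cond_true]; exact h.symm
    · simp [K.c_self])
  exact ⟨f, hf1, hf2 true, hf2 false⟩

/-- `f` is a semilattice operation on `{s, t}` with top `s`. -/
def SLat (K : Core C B) (s t : C) (f : (Fin 2 → B) → B) : Prop :=
  ∀ X Y : Fin 2 → B, ((K.c (X 0) (Y 0) = s ∧ K.c (X 1) (Y 1) = t) ∨
    (K.c (X 0) (Y 0) = t ∧ K.c (X 1) (Y 1) = s)) → K.c (f X) (f Y) = s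

theorem cons2 (K : Core C B) (f : (Fin 2 → B) → B) (hf : K.Cons f) (X Y : Fin 2 → B) :
    K.c (f X) (f Y) = K.c (X 0) (Y 0) ∨ K.c (f X) (f Y) = K.c (X 1) (Y 1) := by
  obtain ⟨i, hi⟩ := hf X Y
  fin_cases i
  · exact Or.inl hi
  · exact Or.inr hi

theorem sl_step_aux (K : Core C B) [Finite C] [Countable B] (g h : (Fin 2 → B) → B)
    (hg : K.Cons g) (hh : K.Cons h) (tops : Set (C × C)) (hgt : ∀ p ∈ tops, K.SLat p.1 p.2 g)
    (s t : C) (hhs : K.SLat s t h) (P P' : Fin 2 → B) (hP0 : K.c (P 0) (P' 0) = t)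
    (hP1 : K.c (P 1) (P' 1) = s) (hgP : K.c (g P) (g P') = s) :
    ∃ k, K.Cons k ∧ (∀ p ∈ tops, K.SLat p.1 p.2 k) ∧ K.SLat s t k := by
  classical
  let pat : C × C → (Fin 2 → B) → (Fin 2 → B) → Prop := fun p X Y =>
    ((K.c (X 0) (Y 0) = p.1 ∧ K.c (X 1) (Y 1) = p.2) ∨
    (K.c (X 0) (Y 0) = p.2 ∧ K.c (X 1) (Y 1) = p.1))
  obtain ⟨k, hk⟩ := K.improve
    (fun X Y => {γ | (γ = K.c (X 0) (Y 0) ∨ γ = K.c (X 1) (Y 1)) ∧
      ∀ p ∈ tops, pat p X Y → γ = p.1})
    (fun X Y => {γ | pat (s, t) X Y → γ = s}) g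
    (fun X Y => ⟨K.cons2 g hg X Y, fun p hp hpat => hgt p hp X Y hpat⟩)
    (by
      intro f hf X0 Y0
      by_cases hbad : pat (s, t) X0 Y0 ∧ K.c (f X0) (f Y0) ≠ s
      · -- improve
        have hft : K.c (f X0) (f Y0) = t := by
          rcases hbad.1 with h1 | h1 <;> rcases (hf X0 Y0).1 with h2 | h2
          · exact absurd (h2.trans h1.1) hbad.2
          · exact h2.trans h1.2
          · exact h2.trans h1.1
          · exact absurd (h2.trans h1.2) hbad.2
        obtain ⟨lam, hl1, hl2, hl3⟩ := K.emb2 (f X0) (f Y0) (P 0) (P' 0) (by rw [hft, hP0])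
        obtain ⟨mu, hm1, hm2, hm3⟩ := K.emb2 (h X0) (h Y0) (P 1) (P' 1) (by
          rw [hhs X0 Y0 hbad.1, hP1])
        have hcomp : ∀ X Y, K.c (g ![lam (f X), mu (h X)]) (g ![lam (f Y), mu (h Y)]) =
            K.c (f X) (f Y) ∨ K.c (g ![lam (f X), mu (h X)]) (g ![lam (f Y), mu (h Y)]) =
            K.c (h X) (h Y) := by
          intro X Y
          rcases K.cons2 g hg ![lam (f X), mu (h X)] ![lam (f Y), mu (h Y)] with h2 | h2
          · left; rw [h2]; exact hl1 _ _
          · right; rw [h2]; exact hm1 _ _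
        have c0 : ∀ X Y, K.c ((![lam (f X), mu (h X)] : Fin 2 → B) 0)
            ((![lam (f Y), mu (h Y)] : Fin 2 → B) 0) = K.c (f X) (f Y) := fun X Y => hl1 _ _
        have c1 : ∀ X Y, K.c ((![lam (f X), mu (h X)] : Fin 2 → B) 1)
            ((![lam (f Y), mu (h Y)] : Fin 2 → B) 1) = K.c (h X) (h Y) := fun X Y => hm1 _ _
        refine ⟨fun X => g ![lam (f X), mu (h X)], fun X Y => ⟨?_, fun p hp hpat => ?_⟩, ?_, ?_⟩
        · rcases hcomp X Y with h2 | h2
          · rw [h2]; exact (hf X Y).1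
          · rw [h2]; exact K.cons2 h hh X Y
        · have h2 : K.c (f X) (f Y) = p.1 := (hf X Y).2 p hp hpat
          have h3 : K.c (h X) (h Y) = p.1 ∨ K.c (h X) (h Y) = p.2 := by
            rcases hpat with h4 | h4 <;> rcases K.cons2 h hh X Y with h5 | h5
            · left; exact h5.trans h4.1
            · right; exact h5.trans h4.2
            · right; exact h5.trans h4.1
            · left; exact h5.trans h4.2
          rcases h3 with h3 | h3
          · rcases hcomp X Y with h4 | h4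
            · rw [h4, h2]
            · rw [h4, h3]
          · apply hgt p hp
            left
            rw [c0, c1]
            exact ⟨h2, h3⟩
        · intro _
          show K.c (g ![lam (f X0), mu (h X0)]) (g ![lam (f Y0), mu (h Y0)]) = s
          have e1 : (![lam (f X0), mu (h X0)] : Fin 2 → B) = P := by
            funext i; fin_cases i
            · exact hl2
            · exact hm2
          have e2 : (![lam (f Y0), mu (h Y0)] : Fin 2 → B) = P' := by
            funext i; fin_cases i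
            · exact hl3
            · exact hm3
          rw [e1, e2]; exact hgP
        · intro X Y hX hpat
          have h2 : K.c (f X) (f Y) = s := hX hpat
          have h3 : K.c (h X) (h Y) = s := hhs X Y hpat
          rcases hcomp X Y with h4 | h4
          · exact h4.trans h2
          · exact h4.trans h3
      · refine ⟨f, hf, fun hpat => ?_, fun X Y hX => hX⟩
        by_contra hne
        exact hbad ⟨hpat, hne⟩)
  refine ⟨k, fun X Y => ?_, fun p hp X Y hpat => (hk X Y).1.2 p hp hpat,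
    fun X Y hpat => (hk X Y).2 hpat⟩
  rcases (hk X Y).1.1 with h1 | h1
  · exact ⟨0, h1⟩
  · exact ⟨1, h1⟩

theorem swap_eq (X : Fin 2 → B) : ∃ X' : Fin 2 → B, X' = ![X 1, X 0] := ⟨_, rfl⟩

theorem sl_step (K : Core C B) [Finite C] [Countable B] (g h : (Fin 2 → B) → B)
    (hg : K.Cons g) (hh : K.Cons h) (tops : Set (C × C)) (hgt : ∀ p ∈ tops, K.SLat p.1 p.2 g)
    (s t : C) (hhs : K.SLat s t h) (hn : ¬ K.SLat t s g) :
    ∃ k, K.Cons k ∧ (∀ p ∈ tops, K.SLat p.1 p.2 k) ∧ K.SLat s t k := by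
  classical
  unfold SLat at hn
  push Not at hn
  obtain ⟨X, Y, hpat, hne⟩ := hn
  rcases hpat with hpat | hpat
  · -- pattern (t, s)
    have h1 : K.c (g X) (g Y) = s := by
      rcases K.cons2 g hg X Y with h2 | h2
      · exact absurd (h2.trans hpat.1) hne
      · exact h2.trans hpat.2
    exact K.sl_step_aux g h hg hh tops hgt s t hhs X Y hpat.1 hpat.2 h1
  · -- pattern (s, t): swap the arguments of `g`
    have h1 : K.c (g X) (g Y) = s := by
      rcases K.cons2 g hg X Y with h2 | h2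
      · exact h2.trans hpat.1
      · exact absurd (h2.trans hpat.2) hne
    have hsw : ∀ X : Fin 2 → B, (![(![X 1, X 0] : Fin 2 → B) 1, (![X 1, X 0] : Fin 2 → B) 0] :
        Fin 2 → B) = X := by
      intro X; funext i; fin_cases i <;> rfl
    refine K.sl_step_aux (fun X => g ![X 1, X 0]) h ?_ hh tops ?_ s t hhs ![X 1, X 0] ![Y 1, Y 0]
      hpat.2 hpat.1 ?_
    · intro X Y
      rcases K.cons2 g hg ![X 1, X 0] ![Y 1, Y 0] with h2 | h2
      · exact ⟨1, h2⟩
      · exact ⟨0, h2⟩
    · intro p hp X Y hpt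
      apply hgt p hp ![X 1, X 0] ![Y 1, Y 0]
      rcases hpt with h2 | h2
      · right; exact ⟨h2.2, h2.1⟩
      · left; exact ⟨h2.2, h2.1⟩
    · show K.c (g ![(![X 1, X 0] : Fin 2 → B) 1, (![X 1, X 0] : Fin 2 → B) 0]) (g ![(![Y 1, Y 0] : Fin 2 → B) 1, (![Y 1, Y 0] : Fin 2 → B) 0]) = s
      rw [hsw X, hsw Y]
      exact h1

/-- One binary polymorphism which is a semilattice operation on all semilattice pairs. -/
theorem exists_g (K : Core C B) [Finite C] [Countable B] :
    ∃ g : (Fin 2 → B) → B, K.Cons g ∧ ∀ s t, K.IsSL s t → K.SLat s t g ∨ K.SLat t s g := by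
  classical
  cases nonempty_fintype C
  have h1 : ∀ Q : Finset (C × C), ∃ g : (Fin 2 → B) → B, K.Cons g ∧
      ∀ p ∈ Q, K.IsSL p.1 p.2 → K.SLat p.1 p.2 g ∨ K.SLat p.2 p.1 g := by
    intro Q
    induction Q using Finset.induction_on with
    | empty => exact ⟨fun X => X 0, K.cons_proj 0, by simp⟩
    | insert p Q hp ih =>
      obtain ⟨g, hg, hgQ⟩ := ih
      have key : ∀ s t, (∃ h : (Fin 2 → B) → B, K.Cons h ∧ K.SLat s t h) →
          ¬ K.SLat t s g → ∃ k, K.Cons k ∧ K.SLat s t k ∧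
            ∀ p ∈ Q, K.IsSL p.1 p.2 → K.SLat p.1 p.2 k ∨ K.SLat p.2 p.1 k := by
        rintro s t ⟨h, hh, hhs⟩ hn
        obtain ⟨k, hk1, hk2, hk3⟩ := K.sl_step g h hg hh {p | K.SLat p.1 p.2 g} (fun p hp => hp)
          s t hhs hn
        refine ⟨k, hk1, hk3, fun p hp hsl => ?_⟩
        rcases hgQ p hp hsl with h2 | h2
        · left; exact hk2 p h2
        · right; exact hk2 (p.2, p.1) h2
      by_cases hsl : K.IsSL p.1 p.2
      · by_cases ha : K.SLat p.1 p.2 g ∨ K.SLat p.2 p.1 g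
        · refine ⟨g, hg, fun r hr hrs => ?_⟩
          rcases Finset.mem_insert.1 hr with rfl | hr
          · exact ha
          · exact hgQ r hr hrs
        · push Not at ha
          rcases hsl with hsl | hsl
          · obtain ⟨k, hk1, hk2, hk3⟩ := key p.1 p.2 hsl ha.2
            refine ⟨k, hk1, fun r hr hrs => ?_⟩
            rcases Finset.mem_insert.1 hr with rfl | hr
            · exact Or.inl hk2
            · exact hk3 r hr hrs
          · obtain ⟨k, hk1, hk2, hk3⟩ := key p.2 p.1 hsl ha.1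
            refine ⟨k, hk1, fun r hr hrs => ?_⟩
            rcases Finset.mem_insert.1 hr with rfl | hr
            · exact Or.inr hk2
            · exact hk3 r hr hrs
      · refine ⟨g, hg, fun r hr hrs => ?_⟩
        rcases Finset.mem_insert.1 hr with rfl | hr
        · exact absurd hrs hsl
        · exact hgQ r hr hrs
  obtain ⟨g, hg, hg'⟩ := h1 Finset.univ
  exact ⟨g, hg, fun s t hst => hg' (s, t) (Finset.mem_univ _) hst⟩

/-- Triangles are realised. -/
theorem tri_exists (K : Core C B) (hsurj : ∀ a, ∃ x y, K.c x y = a) (p q r : C) (h : K.T p q r) :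
    ∃ x y z, K.c x y = p ∧ K.c y z = q ∧ K.c x z = r := by
  obtain ⟨x, z, hxz⟩ := hsurj r
  obtain ⟨y, h1, h2⟩ := K.third x z p q (by rw [hxz]; exact h)
  exact ⟨x, y, z, h1, h2, hxz⟩

theorem exists_P (K : Core C B) [Finite C] [Countable B]
    (hsurj : ∀ a, ∃ x y, K.c x y = a)
    (hcan : ∀ a b, a ≠ b → ¬ K.IsSL a b → K.AllCanon a b) :
    ∃ P : C → C → C,
      (∀ p q r p' q' r', K.T p q r → K.T p' q' r' → K.T (P p p') (P q q') (P r r')) ∧
      (∀ a, P a a = a) ∧
      (∀ a b, K.IsSL a b → P a b = P b a ∧ (P a b = a ∨ P a b = b)) ∧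
      (∀ a b, ¬ K.IsSL a b → P a b = a) := by
  classical
  obtain ⟨g, hg, hgsl⟩ := K.exists_g
  let p : (Fin 2 → B) → B := fun X => g ![g X, g ![X 1, X 0]]
  have hswc : K.Cons (fun X : Fin 2 → B => g ![X 1, X 0]) := by
    intro X Y
    rcases K.cons2 g hg ![X 1, X 0] ![Y 1, Y 0] with h2 | h2
    · exact ⟨1, h2⟩
    · exact ⟨0, h2⟩
  have hpX : ∀ X Y : Fin 2 → B, K.c (p X) (p Y) = K.c (g X) (g Y) ∨
      K.c (p X) (p Y) = K.c (g ![X 1, X 0]) (g ![Y 1, Y 0]) := by
    intro X Y
    exact K.cons2 g hg ![g X, g ![X 1, X 0]] ![g Y, g ![Y 1, Y 0]]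
  -- values of `p`
  have hv1 : ∀ s t, K.SLat s t g → ∀ X Y : Fin 2 → B,
      ((K.c (X 0) (Y 0) = s ∧ K.c (X 1) (Y 1) = t) ∨
      (K.c (X 0) (Y 0) = t ∧ K.c (X 1) (Y 1) = s)) → K.c (p X) (p Y) = s := by
    intro s t hst X Y hpat
    have h1 := hst X Y hpat
    have h2 := hst ![X 1, X 0] ![Y 1, Y 0] (by
      rcases hpat with h2 | h2
      · right; exact ⟨h2.2, h2.1⟩
      · left; exact ⟨h2.2, h2.1⟩)
    rcases hpX X Y with h3 | h3
    · exact h3.trans h1
    · exact h3.trans h2
  have hv2 : ∀ a b, ¬ K.IsSL a b → ∀ X Y : Fin 2 → B,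
      K.c (X 0) (Y 0) = a → K.c (X 1) (Y 1) = b → K.c (p X) (p Y) = a := by
    intro a b hab X Y h0 h1
    have hne : a ≠ b := by
      rintro rfl
      apply hab
      left
      exact ⟨fun X => X 0, K.cons_proj 0, fun X Y h => by
        rcases h with h | h
        · exact h.1
        · exact h.1⟩
    have hc := hcan a b hne hab 2 g hg
    have i1 : ∀ X Y : Fin 2 → B, K.c (X 0) (Y 0) = a → K.c (X 1) (Y 1) = b → K.In2 a b X Y := by
      intro X Y h2 h3 i
      fin_cases i
      · exact Or.inl h2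
      · exact Or.inr h3
    have i2 : ∀ X Y : Fin 2 → B, K.c (X 0) (Y 0) = b → K.c (X 1) (Y 1) = a → K.In2 a b X Y := by
      intro X Y h2 h3 i
      fin_cases i
      · exact Or.inr h2
      · exact Or.inl h3
    have cn1 : ∀ X Y X' Y' : Fin 2 → B, K.c (X 0) (Y 0) = a → K.c (X 1) (Y 1) = b →
        K.c (X' 0) (Y' 0) = a → K.c (X' 1) (Y' 1) = b → K.c (g X) (g Y) = K.c (g X') (g Y') := by
      intro X Y X' Y' h2 h3 h4 h5
      apply hc _ _ _ _ (i1 X Y h2 h3)
      intro i
      fin_cases i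
      · exact h2.trans h4.symm
      · exact h3.trans h5.symm
    have cn2 : ∀ X Y X' Y' : Fin 2 → B, K.c (X 0) (Y 0) = b → K.c (X 1) (Y 1) = a →
        K.c (X' 0) (Y' 0) = b → K.c (X' 1) (Y' 1) = a → K.c (g X) (g Y) = K.c (g X') (g Y') := by
      intro X Y X' Y' h2 h3 h4 h5
      apply hc _ _ _ _ (i2 X Y h2 h3)
      intro i
      fin_cases i
      · exact h2.trans h4.symm
      · exact h3.trans h5.symm
    have u1 : K.c (g X) (g Y) = a ∨ K.c (g X) (g Y) = b := by
      rcases K.cons2 g hg X Y with h2 | h2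
      · left; exact h2.trans h0
      · right; exact h2.trans h1
    have u2 : K.c (g ![X 1, X 0]) (g ![Y 1, Y 0]) = a ∨ K.c (g ![X 1, X 0]) (g ![Y 1, Y 0]) = b := by
      rcases K.cons2 g hg ![X 1, X 0] ![Y 1, Y 0] with h2 | h2
      · right; exact h2.trans h1
      · left; exact h2.trans h0
    rcases u1 with u1 | u1 <;> rcases u2 with u2 | u2
    · exfalso
      apply hab; left
      refine ⟨g, hg, fun X' Y' h => ?_⟩
      rcases h with h | h
      · rw [← cn1 X Y X' Y' h0 h1 h.1 h.2]; exact u1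
      · rw [← cn2 ![X 1, X 0] ![Y 1, Y 0] X' Y' h1 h0 h.1 h.2]; exact u2
    · -- first projection
      show K.c (g ![g X, g ![X 1, X 0]]) (g ![g Y, g ![Y 1, Y 0]]) = a
      rw [← cn1 X Y ![g X, g ![X 1, X 0]] ![g Y, g ![Y 1, Y 0]] h0 h1 u1 u2]; exact u1
    · show K.c (g ![g X, g ![X 1, X 0]]) (g ![g Y, g ![Y 1, Y 0]]) = a
      rw [← cn2 ![X 1, X 0] ![Y 1, Y 0] ![g X, g ![X 1, X 0]] ![g Y, g ![Y 1, Y 0]] h1 h0 u1 u2]
      exact u2
    · exfalso
      apply hab; right
      refine ⟨g, hg, fun X' Y' h => ?_⟩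
      rcases h with h | h
      · rw [← cn2 ![X 1, X 0] ![Y 1, Y 0] X' Y' h1 h0 h.1 h.2]; exact u2
      · rw [← cn1 X Y X' Y' h0 h1 h.1 h.2]; exact u1
  have hv : ∀ a b, ∃ γ, (∀ X Y : Fin 2 → B, K.c (X 0) (Y 0) = a → K.c (X 1) (Y 1) = b →
      K.c (p X) (p Y) = γ) ∧ (K.SLat a b g → γ = a) ∧ (K.SLat b a g → γ = b) ∧
      (¬ K.IsSL a b → γ = a) := by
    intro a b
    obtain ⟨x, y, hxy⟩ := hsurj a
    obtain ⟨x', y', hxy'⟩ := hsurj b
    by_cases hsl : K.IsSL a b
    · by_cases hab : K.SLat a b g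
      · refine ⟨a, fun X Y h1 h2 => hv1 a b hab X Y (Or.inl ⟨h1, h2⟩), fun _ => rfl, fun hba => ?_,
          fun _ => rfl⟩
        have e1 := hv1 a b hab ![x, x'] ![y, y'] (Or.inl ⟨hxy, hxy'⟩)
        have e2 := hv1 b a hba ![x, x'] ![y, y'] (Or.inr ⟨hxy, hxy'⟩)
        exact e1.symm.trans e2
      · have hba := (hgsl a b hsl).resolve_left hab
        exact ⟨b, fun X Y h1 h2 => hv1 b a hba X Y (Or.inr ⟨h1, h2⟩), fun h => absurd h hab,
          fun _ => rfl, fun h => absurd hsl h⟩
    · refine ⟨a, fun X Y h1 h2 => hv2 a b hsl X Y h1 h2, fun _ => rfl, fun hba => ?_, fun _ => rfl⟩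
      exact absurd (Or.inr ⟨g, hg, hba⟩) hsl
  choose P hP1 hP2 hP3 hP4 using hv
  refine ⟨P, ?_, ?_, ?_, hP4⟩
  · intro q1 q2 q3 q1' q2' q3' h h'
    obtain ⟨x, y, z, e1, e2, e3⟩ := K.tri_exists hsurj _ _ _ h
    obtain ⟨x', y', z', e1', e2', e3'⟩ := K.tri_exists hsurj _ _ _ h'
    have t1 := hP1 q1 q1' ![x, x'] ![y, y'] e1 e1'
    have t2 := hP1 q2 q2' ![y, y'] ![z, z'] e2 e2'
    have t3 := hP1 q3 q3' ![x, x'] ![z, z'] e3 e3'
    have := K.tri (p ![x, x']) (p ![y, y']) (p ![z, z'])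
    rw [t1, t2, t3] at this
    exact this
  · intro a
    by_cases h : K.SLat a a g
    · exact hP2 a a h
    · exact absurd ((hgsl a a (Or.inl ⟨fun X => X 0, K.cons_proj 0, fun X Y h => by
        rcases h with h | h
        · exact h.1
        · exact h.1⟩)).elim id id) h
  · intro a b hab
    rcases hgsl a b hab with h | h
    · rw [hP2 a b h, hP3 b a h]
      exact ⟨rfl, Or.inl rfl⟩
    · rw [hP3 a b h, hP2 b a h]
      exact ⟨rfl, Or.inr rfl⟩

/-- No two distinct entries of `u` form a semilattice pair. -/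
def Free (K : Core C B) (u : Fin 3 → C) : Prop := ∀ i j, u i ≠ u j → ¬ K.IsSL (u i) (u j)

/-- Colour vector of a position. -/
def vec (K : Core C B) {ι : Type*} (X Y : ι → B) : ι → C := fun i => K.c (X i) (Y i)

theorem Free_of (K : Core C B) (u u' : Fin 3 → C) (h : ∀ i, ∃ j, u' i = u j) (hu : K.Free u) :
    K.Free u' := by
  intro i j hij
  obtain ⟨i', hi'⟩ := h i
  obtain ⟨j', hj'⟩ := h j
  rw [hi', hj'] at hij ⊢
  exact hu i' j' hij

/-- Majority on all free vectors. -/
def GMaj (K : Core C B) (m : (Fin 3 → B) → B) : Prop := ∀ X Y : Fin 3 → B, K.Free (K.vec X Y) →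
  ∀ i j, i ≠ j → K.vec X Y i = K.vec X Y j → K.c (m X) (m Y) = K.vec X Y i

theorem third_index : ∀ i j : Fin 3, i ≠ j → ∃ k : Fin 3, k ≠ i ∧ k ≠ j ∧
    ∀ l, l = i ∨ l = j ∨ l = k := by
  decide

theorem two_others : ∀ k : Fin 3, ∃ i j : Fin 3, i ≠ j ∧ i ≠ k ∧ j ≠ k := by
  decide

/-- Combination of two ternary majority operations. -/
theorem maj_step (K : Core C B) (s t : C) (hsl : ¬ K.IsSL s t)
    (m1 : (Fin 3 → B) → B) (hm1 : K.Cons m1) (hc : K.CanonOn s t m1) (hnm : ¬ K.MajOn s t m1) :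
    ∃ k : Fin 3, ∀ X' Y' : Fin 3 → B, K.In2 s t X' Y' → (∀ l l', l ≠ k → l' ≠ k →
          K.c (X' l) (Y' l) = K.c (X' l') (Y' l')) → K.c (m1 X') (m1 Y') = K.c (X' k) (Y' k) := by
  classical
  unfold MajOn at hnm
  push Not at hnm
  obtain ⟨X, Y, hXY, i, j, hij, heq, hne⟩ := hnm
  obtain ⟨k, hki, hkj, hk⟩ := third_index i j hij
  refine ⟨k, ?_⟩
  have hval : K.c (m1 X) (m1 Y) = K.c (X k) (Y k) := by
    obtain ⟨l, hl⟩ := hm1 X Y
    rcases hk l with rfl | rfl | rfl
    · exact absurd hl hne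
    · exact absurd (hl.trans heq.symm) hne
    · exact hl
  have hoff : ∀ l, l ≠ k → K.c (X l) (Y l) = K.c (X i) (Y i) := by
    intro l hl
    rcases hk l with rfl | rfl | rfl
    · rfl
    · exact heq.symm
    · exact absurd rfl hl
  obtain ⟨x, hx⟩ : ∃ x, x = K.c (X i) (Y i) := ⟨_, rfl⟩
  obtain ⟨y, hy⟩ : ∃ y, y = K.c (X k) (Y k) := ⟨_, rfl⟩
  have hxy : x ≠ y := by
    intro h
    apply hne
    rw [hval, ← hy, ← h, hx]
  have hxm : x = s ∨ x = t := by rw [hx]; exact hXY i
  have hym : y = s ∨ y = t := by rw [hy]; exact hXY k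
  have hset : ∀ γ, (γ = s ∨ γ = t) ↔ (γ = x ∨ γ = y) := by
    intro γ
    rcases hxm with h1 | h1 <;> rcases hym with h2 | h2
    · exact absurd (h1.trans h2.symm) hxy
    · rw [h1, h2]
    · rw [h1, h2]; exact Or.comm
    · exact absurd (h1.trans h2.symm) hxy
  have hslxy : ¬ K.SL y x := by
    intro h
    apply hsl
    rcases hxm with h1 | h1 <;> rcases hym with h2 | h2
    · exact absurd (h1.trans h2.symm) hxy
    · right; rw [← h1, ← h2]; exact h
    · left; rw [← h1, ← h2]; exact h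
    · exact absurd (h1.trans h2.symm) hxy
  intro X' Y' hXY' hoff'
  have hx' : K.c (X' i) (Y' i) = x ∨ K.c (X' i) (Y' i) = y := (hset _).1 (hXY' i)
  have hy' : K.c (X' k) (Y' k) = x ∨ K.c (X' k) (Y' k) = y := (hset _).1 (hXY' k)
  have hoff2 : ∀ l, l ≠ k → K.c (X' l) (Y' l) = K.c (X' i) (Y' i) := fun l hl =>
    hoff' l i hl hki.symm
  have hcons : K.c (m1 X') (m1 Y') = K.c (X' i) (Y' i) ∨
      K.c (m1 X') (m1 Y') = K.c (X' k) (Y' k) := by
    obtain ⟨l, hl⟩ := hm1 X' Y'
    by_cases hlk : l = k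
    · right; rw [hl, hlk]
    · left; rw [hl]; exact hoff2 l hlk
  rcases hx' with hx' | hx' <;> rcases hy' with hy' | hy'
  · rcases hcons with h | h
    · rw [h, hx', hy']
    · exact h
  · rw [hy', ← hc X Y X' Y' hXY (fun l => by
      by_cases hlk : l = k
      · rw [hlk, hy', hy]
      · rw [hoff l hlk, hoff2 l hlk, hx', hx]), hval, hy]
  · rcases hcons with h | h
    · exfalso
      apply hslxy
      refine ⟨fun Z => m1 (fun l => if l = k then Z 1 else Z 0), ?_, fun Z Z' hZ => ?_⟩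
      · intro Z Z'
        obtain ⟨l, hl⟩ := hm1 (fun l => if l = k then Z 1 else Z 0)
          (fun l => if l = k then Z' 1 else Z' 0)
        by_cases hlk : l = k
        · refine ⟨1, hl.trans ?_⟩
          simp only [if_pos hlk]
        · refine ⟨0, hl.trans ?_⟩
          simp only [if_neg hlk]
      · rcases hZ with ⟨h1, h2⟩ | ⟨h1, h2⟩
        · -- colours (y, x): as the primed position
          rw [← hc X' Y' _ _ hXY' (fun l => by
            by_cases hlk : l = k
            · simp only [if_pos hlk]; rw [hlk, h2, hy']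
            · simp only [if_neg hlk]; rw [h1, hoff2 l hlk, hx']), h, hx']
        · rw [← hc X Y _ _ hXY (fun l => by
            by_cases hlk : l = k
            · simp only [if_pos hlk]; rw [hlk, h2, hy]
            · simp only [if_neg hlk]; rw [h1, hoff l hlk, hx]), hval, hy]
    · exact h
  · rcases hcons with h | h
    · rw [h, hx', hy']
    · exact h

theorem exists_maj (K : Core C B) [Finite C]
    (hcan : ∀ a b, a ≠ b → ¬ K.IsSL a b → K.AllCanon a b)
    (hmaj : ∀ a b, a ≠ b → ¬ K.IsSL a b → ∃ f : (Fin 3 → B) → B, K.Cons f ∧ K.MajOn a b f) :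
    ∃ m : (Fin 3 → B) → B, K.Cons m ∧ ∀ a b, a ≠ b → ¬ K.IsSL a b → K.MajOn a b m := by
  classical
  cases nonempty_fintype C
  have h1 : ∀ Q : Finset (C × C), ∃ m : (Fin 3 → B) → B, K.Cons m ∧
      ∀ p ∈ Q, p.1 ≠ p.2 → ¬ K.IsSL p.1 p.2 → K.MajOn p.1 p.2 m := by
    intro Q
    induction Q using Finset.induction_on with
    | empty => exact ⟨fun X => X 0, K.cons_proj 0, by simp⟩
    | insert p Q hp ih =>
      obtain ⟨m1, hm1, hm1Q⟩ := ih
      obtain ⟨s, t⟩ := p
      by_cases hcase : s ≠ t ∧ ¬ K.IsSL s t ∧ ¬ K.MajOn s t m1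
      swap
      · refine ⟨m1, hm1, fun r hr h2 h3 => ?_⟩
        rcases Finset.mem_insert.1 hr with rfl | hr
        · by_contra h4
          exact hcase ⟨h2, h3, h4⟩
        · exact hm1Q r hr h2 h3
      obtain ⟨hst, hsl, hnm⟩ := hcase
      obtain ⟨m2, hm2, hm2'⟩ := hmaj s t hst hsl
      have hc := hcan s t hst hsl 3 m1 hm1
      obtain ⟨k, hk⟩ := K.maj_step s t hsl m1 hm1 hc hnm
      have hcol : ∀ X Y l, K.c ((fun l => if l = k then m2 X else m1 X) l)
          ((fun l => if l = k then m2 Y else m1 Y) l) =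
          if l = k then K.c (m2 X) (m2 Y) else K.c (m1 X) (m1 Y) := by
        intro X Y l
        by_cases hlk : l = k
        · simp only [if_pos hlk]
        · simp only [if_neg hlk]
      refine ⟨fun X => m1 (fun l => if l = k then m2 X else m1 X), ?_, fun r hr h2 h3 => ?_⟩
      · intro X Y
        obtain ⟨l, hl⟩ := hm1 (fun l => if l = k then m2 X else m1 X)
          (fun l => if l = k then m2 Y else m1 Y)
        rw [hcol] at hl
        by_cases hlk : l = k
        · rw [if_pos hlk] at hl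
          obtain ⟨i, hi⟩ := hm2 X Y
          exact ⟨i, hl.trans hi⟩
        · rw [if_neg hlk] at hl
          obtain ⟨i, hi⟩ := hm1 X Y
          exact ⟨i, hl.trans hi⟩
      · rcases Finset.mem_insert.1 hr with rfl | hr
        · intro X Y hXY i j hij heq
          have e1 : K.c (m1 (fun l => if l = k then m2 X else m1 X))
              (m1 (fun l => if l = k then m2 Y else m1 Y)) = K.c (m2 X) (m2 Y) := by
            have := hk (fun l => if l = k then m2 X else m1 X)
              (fun l => if l = k then m2 Y else m1 Y) (fun l => by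
                rw [hcol]
                by_cases hlk : l = k
                · rw [if_pos hlk]; exact K.cons_in2 s t m2 hm2 X Y hXY
                · rw [if_neg hlk]; exact K.cons_in2 s t m1 hm1 X Y hXY)
              (fun l l' h4 h5 => by rw [hcol, hcol, if_neg h4, if_neg h5])
            rw [this, hcol, if_pos rfl]
          rw [e1]
          exact hm2' X Y hXY i j hij heq
        · intro X Y hXY i j hij heq
          have hM := hm1Q r hr h2 h3
          obtain ⟨l1, l2, hl12, hl1, hl2⟩ := two_others k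
          have e1 := hM (fun l => if l = k then m2 X else m1 X)
            (fun l => if l = k then m2 Y else m1 Y) (fun l => by
              rw [hcol]
              by_cases hlk : l = k
              · rw [if_pos hlk]; exact K.cons_in2 r.1 r.2 m2 hm2 X Y hXY
              · rw [if_neg hlk]; exact K.cons_in2 r.1 r.2 m1 hm1 X Y hXY) l1 l2 hl12 (by
              rw [hcol, hcol, if_neg hl1, if_neg hl2])
          rw [hcol, if_neg hl1] at e1
          rw [e1]
          exact hM X Y hXY i j hij heq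
  obtain ⟨m, hm, hm'⟩ := h1 Finset.univ
  exact ⟨m, hm, fun a b h2 h3 => hm' (a, b) (Finset.mem_univ _) h2 h3⟩

theorem gmaj_of_maj (K : Core C B) (m : (Fin 3 → B) → B) (hm : K.Cons m)
    (h : ∀ a b, a ≠ b → ¬ K.IsSL a b → K.MajOn a b m) : K.GMaj m := by
  intro X Y hfree i j hij heq
  obtain ⟨k, hki, hkj, hk⟩ := third_index i j hij
  by_cases hkk : K.vec X Y i = K.vec X Y k
  · obtain ⟨l, hl⟩ := hm X Y
    rcases hk l with rfl | rfl | rfl
    · exact hl
    · exact hl.trans heq.symm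
    · exact hl.trans hkk.symm
  · have h1 := hfree i k hkk
    exact h _ _ hkk h1 X Y (fun l => by
      rcases hk l with rfl | rfl | rfl
      · exact Or.inl rfl
      · exact Or.inl heq.symm
      · exact Or.inr rfl) i j hij heq

/-- The sweep at coordinate `j`. -/
theorem sweep (K : Core C B) [Finite C] [Countable B] (m : (Fin 3 → B) → B) (hm : K.Cons m)
    (hM : K.GMaj m) (j : Fin 3) :
    ∃ m' : (Fin 3 → B) → B, K.Cons m' ∧ K.GMaj m' ∧
      ∀ X Y, K.Free (K.vec X Y) → Function.Injective (K.vec X Y) →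
        (∃ X' Y', K.vec X' Y' = K.vec X Y ∧ K.c (m' X) (m' Y) = K.c (m X') (m Y')) ∧
        ((∃ X' Y', K.vec X' Y' = K.vec X Y ∧ K.c (m X') (m Y') ≠ K.vec X Y j) →
          K.c (m' X) (m' Y) ≠ K.vec X Y j) := by
  classical
  obtain ⟨m', hm'⟩ := K.improve
    (fun X Y => {γ | (∃ i, γ = K.c (X i) (Y i)) ∧
      (K.Free (K.vec X Y) → ∀ i k, i ≠ k → K.vec X Y i = K.vec X Y k → γ = K.vec X Y i) ∧
      (K.Free (K.vec X Y) → Function.Injective (K.vec X Y) →
        ∃ X' Y', K.vec X' Y' = K.vec X Y ∧ γ = K.c (m X') (m Y'))})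
    (fun X Y => {γ | K.Free (K.vec X Y) → Function.Injective (K.vec X Y) →
      (∃ X' Y', K.vec X' Y' = K.vec X Y ∧ K.c (m X') (m Y') ≠ K.vec X Y j) → γ ≠ K.vec X Y j})
    m (fun X Y => ⟨hm X Y, fun hf i k hik he => hM X Y hf i k hik he,
      fun _ _ => ⟨X, Y, rfl, rfl⟩⟩)
    (by
      intro t ht X0 Y0
      by_cases hbad : K.Free (K.vec X0 Y0) ∧ Function.Injective (K.vec X0 Y0) ∧
        (∃ X' Y', K.vec X' Y' = K.vec X0 Y0 ∧ K.c (m X') (m Y') ≠ K.vec X0 Y0 j) ∧
        K.c (t X0) (t Y0) = K.vec X0 Y0 j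
      swap
      · refine ⟨t, ht, ?_, fun X Y hX => hX⟩
        intro h1 h2 h3 h4
        exact hbad ⟨h1, h2, h3, h4⟩
      obtain ⟨hfr, hinj, ⟨Xs, Ys, hs1, hs2⟩, htj⟩ := hbad
      -- the colour preserving maps
      have hal : ∀ i : Fin 3, ∃ al : B → B, (∀ x y, K.c (al x) (al y) = K.c x y) ∧
          al (if i = j then t X0 else X0 i) = Xs i ∧ al (if i = j then t Y0 else Y0 i) = Ys i := by
        intro i
        apply K.emb2
        have h1 : K.c (Xs i) (Ys i) = K.vec X0 Y0 i := congrFun hs1 i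
        rw [h1]
        by_cases hij : i = j
        · rw [if_pos hij, if_pos hij, htj, hij]
        · rw [if_neg hij, if_neg hij]; rfl
      choose al hal1 hal2 hal3 using hal
      let t' : (Fin 3 → B) → B := fun Z => m (fun i => al i (if i = j then t Z else Z i))
      have hvec : ∀ X Y i, K.vec (fun i => al i (if i = j then t X else X i))
          (fun i => al i (if i = j then t Y else Y i)) i =
          if i = j then K.c (t X) (t Y) else K.c (X i) (Y i) := by
        intro X Y i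
        show K.c _ _ = _
        rw [hal1]
        by_cases hij : i = j
        · simp only [if_pos hij]
        · simp only [if_neg hij]
      have hcons : ∀ X Y, ∃ i, K.c (t' X) (t' Y) = K.c (X i) (Y i) := by
        intro X Y
        obtain ⟨i, hi⟩ := hm (fun i => al i (if i = j then t X else X i))
          (fun i => al i (if i = j then t Y else Y i))
        have h1 := hvec X Y i
        have h2 : K.c (t' X) (t' Y) = if i = j then K.c (t X) (t Y) else K.c (X i) (Y i) :=
          hi.trans h1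
        by_cases hij : i = j
        · rw [if_pos hij] at h2
          obtain ⟨i', hi'⟩ := (ht X Y).1
          exact ⟨i', h2.trans hi'⟩
        · rw [if_neg hij] at h2
          exact ⟨i, h2⟩
      have hfree : ∀ X Y, K.Free (K.vec X Y) → K.Free (K.vec
          (fun i => al i (if i = j then t X else X i))
          (fun i => al i (if i = j then t Y else Y i))) := by
        intro X Y hf
        apply K.Free_of (K.vec X Y) _ _ hf
        intro i
        rw [hvec]
        by_cases hij : i = j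
        · rw [if_pos hij]
          obtain ⟨i', hi'⟩ := (ht X Y).1
          exact ⟨i', hi'⟩
        · rw [if_neg hij]; exact ⟨i, rfl⟩
      -- if `t` takes the colour of a coordinate `i ≠ j`, then so does `t'`
      have hstab : ∀ X Y, K.Free (K.vec X Y) → ∀ i, i ≠ j → K.c (t X) (t Y) = K.vec X Y i →
          K.c (t' X) (t' Y) = K.vec X Y i := by
        intro X Y hf i hij hti
        have h1 := hM _ _ (hfree X Y hf) i j hij (by
          rw [hvec, hvec, if_neg hij, if_pos rfl, hti]; rfl)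
        rw [hvec, if_neg hij] at h1
        exact h1
      refine ⟨t', fun X Y => ⟨hcons X Y, ?_, ?_⟩, ?_, ?_⟩
      · intro hf i k hik he
        have hti : K.c (t X) (t Y) = K.vec X Y i := (ht X Y).2.1 hf i k hik he
        by_cases hij : i = j
        · have hkj : k ≠ j := by rw [← hij]; exact hik.symm
          have := hstab X Y hf k hkj (hti.trans he)
          exact this.trans he.symm
        · exact hstab X Y hf i hij hti
      · intro hf hi
        by_cases htj' : K.c (t X) (t Y) = K.vec X Y j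
        · refine ⟨_, _, ?_, rfl⟩
          funext i
          rw [hvec]
          by_cases hij : i = j
          · rw [if_pos hij, htj', hij]
          · rw [if_neg hij]; rfl
        · obtain ⟨i, hi'⟩ := (ht X Y).1
          have hij : i ≠ j := by rintro rfl; exact htj' hi'
          obtain ⟨X', Y', h1, h2⟩ := (ht X Y).2.2 hf hi
          refine ⟨X', Y', h1, ?_⟩
          rw [← h2, hi']
          exact hstab X Y hf i hij hi'
      · intro _ _ _
        show K.c (t' X0) (t' Y0) ≠ _
        have e1 : (fun i => al i (if i = j then t X0 else X0 i)) = Xs := funext fun i => hal2 i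
        have e2 : (fun i => al i (if i = j then t Y0 else Y0 i)) = Ys := funext fun i => hal3 i
        simp only [t']
        rw [e1, e2]
        exact hs2
      · intro X Y hX hf hi hex
        have h1 : K.c (t X) (t Y) ≠ K.vec X Y j := hX hf hi hex
        obtain ⟨i, hi'⟩ := (ht X Y).1
        have hij : i ≠ j := by rintro rfl; exact h1 hi'
        show K.c (t' X) (t' Y) ≠ _
        rw [hstab X Y hf i hij hi']
        intro h2
        exact hij (hi h2))
  refine ⟨m', fun X Y => (hm' X Y).1.1, fun X Y hf i k hik he => (hm' X Y).1.2.1 hf i k hik he,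
    fun X Y hf hi => ⟨(hm' X Y).1.2.2 hf hi, (hm' X Y).2 hf hi⟩⟩

theorem exists_M (K : Core C B) [Finite C] [Countable B]
    (hsurj : ∀ a, ∃ x y, K.c x y = a)
    (hcan : ∀ a b, a ≠ b → ¬ K.IsSL a b → K.AllCanon a b)
    (hmaj : ∀ a b, a ≠ b → ¬ K.IsSL a b → ∃ f : (Fin 3 → B) → B, K.Cons f ∧ K.MajOn a b f) :
    ∃ M : (Fin 3 → C) → C,
      (∀ u v w, K.Free u → K.Free v → K.Free w → (∀ i, K.T (u i) (v i) (w i)) →
        K.T (M u) (M v) (M w)) ∧
      (∀ u, K.Free u → ∃ i, M u = u i) ∧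
      (∀ u, K.Free u → ∀ i j, i ≠ j → u i = u j → M u = u i) := by
  classical
  obtain ⟨m0, hm0, hm0'⟩ := K.exists_maj hcan hmaj
  have hM0 := K.gmaj_of_maj m0 hm0 hm0'
  obtain ⟨m1, hm1, hM1, hs1⟩ := K.sweep m0 hm0 hM0 2
  obtain ⟨m2, hm2, hM2, hs2⟩ := K.sweep m1 hm1 hM1 0
  -- `m2` is canonical on free vectors
  have hcanon : ∀ X Y X' Y', K.Free (K.vec X Y) → K.vec X Y = K.vec X' Y' →
      K.c (m2 X) (m2 Y) = K.c (m2 X') (m2 Y') := by
    intro X Y X' Y' hf hv
    by_cases hinj : Function.Injective (K.vec X Y)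
    · by_contra hne
      have hf' : K.Free (K.vec X' Y') := by rw [← hv]; exact hf
      have hinj' : Function.Injective (K.vec X' Y') := by rw [← hv]; exact hinj
      obtain ⟨i, hi⟩ := hm2 X Y
      obtain ⟨k, hk⟩ := hm2 X' Y'
      have hi' : K.c (m2 X) (m2 Y) = K.vec X Y i := hi
      have hk' : K.c (m2 X') (m2 Y') = K.vec X Y k := by rw [hv]; exact hk
      have hik : i ≠ k := by
        rintro rfl; exact hne (hi'.trans hk'.symm)
      -- values of m1
      obtain ⟨X1, Y1, hv1, hc1⟩ := (hs2 X Y hf hinj).1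
      obtain ⟨X2, Y2, hv2, hc2⟩ := (hs2 X' Y' hf' hinj').1
      have hf1 : K.Free (K.vec X1 Y1) := by rw [hv1]; exact hf
      have hinj1 : Function.Injective (K.vec X1 Y1) := by rw [hv1]; exact hinj
      have hf2 : K.Free (K.vec X2 Y2) := by rw [hv2]; exact hf'
      have hinj2 : Function.Injective (K.vec X2 Y2) := by rw [hv2]; exact hinj'
      have w1 : K.c (m1 X1) (m1 Y1) = K.vec X Y i := hc1.symm.trans hi'
      have w2 : K.c (m1 X2) (m1 Y2) = K.vec X Y k := hc2.symm.trans hk'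
      -- values of m0
      obtain ⟨X3, Y3, hv3, hc3⟩ := (hs1 X1 Y1 hf1 hinj1).1
      obtain ⟨X4, Y4, hv4, hc4⟩ := (hs1 X2 Y2 hf2 hinj2).1
      have w3 : K.c (m0 X3) (m0 Y3) = K.vec X Y i := hc3.symm.trans w1
      have w4 : K.c (m0 X4) (m0 Y4) = K.vec X Y k := hc4.symm.trans w2
      -- some value of m0 is not the colour at 2
      have hnot2 : ∃ Xs Ys, K.vec Xs Ys = K.vec X Y ∧ K.c (m0 Xs) (m0 Ys) ≠ K.vec X Y 2 := by
        by_cases hi2 : i = 2
        · refine ⟨X4, Y4, hv4.trans (hv2.trans hv.symm), ?_⟩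
          rw [w4]
          intro h; exact hik (hi2.trans (hinj h).symm)
        · refine ⟨X3, Y3, hv3.trans hv1, ?_⟩
          rw [w3]
          intro h; exact hi2 (hinj h)
      have hi2 : i ≠ 2 := by
        rintro rfl
        have := (hs1 X1 Y1 hf1 hinj1).2 (by rw [hv1]; exact hnot2)
        rw [hv1] at this
        exact this w1
      have hk2 : k ≠ 2 := by
        rintro rfl
        have := (hs1 X2 Y2 hf2 hinj2).2 (by rw [hv2, ← hv]; exact hnot2)
        rw [hv2, ← hv] at this
        exact this w2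
      -- so one of the two is 0 and the other 1
      have hnot0 : ∃ Xs Ys, K.vec Xs Ys = K.vec X Y ∧ K.c (m1 Xs) (m1 Ys) ≠ K.vec X Y 0 := by
        by_cases hi0 : i = 0
        · refine ⟨X2, Y2, hv2.trans hv.symm, ?_⟩
          rw [w2]
          intro h; exact hik (hi0.trans (hinj h).symm)
        · refine ⟨X1, Y1, hv1, ?_⟩
          rw [w1]
          intro h; exact hi0 (hinj h)
      have hi0 : i ≠ 0 := by
        rintro rfl
        exact (hs2 X Y hf hinj).2 hnot0 hi'
      have hk0 : k ≠ 0 := by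
        rintro rfl
        have := (hs2 X' Y' hf' hinj').2 (by rw [← hv]; exact hnot0)
        rw [← hv] at this
        exact this hk'
      have hfin : ∀ l : Fin 3, l ≠ 0 → l ≠ 2 → l = 1 := by decide
      exact hik ((hfin i hi0 hi2).trans (hfin k hk0 hk2).symm)
    · rw [Function.Injective] at hinj
      push Not at hinj
      obtain ⟨i, j, heq, hij⟩ := hinj
      rw [hM2 X Y hf i j hij heq, hM2 X' Y' (by rw [← hv]; exact hf) i j hij (by
        rw [← hv]; exact heq), hv]
  choose xs ys hxy using hsurj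
  refine ⟨fun u => K.c (m2 (fun i => xs (u i))) (m2 (fun i => ys (u i))), ?_, ?_, ?_⟩
  · intro u v w hu hv hw hT
    have hpt : ∀ i, ∃ x y z, K.c x y = u i ∧ K.c y z = v i ∧ K.c x z = w i := fun i =>
      K.tri_exists (fun a => ⟨xs a, ys a, hxy a⟩) _ _ _ (hT i)
    choose X Y Z h1 h2 h3 using hpt
    have e0 : ∀ u : Fin 3 → C, K.vec (fun i => xs (u i)) (fun i => ys (u i)) = u := fun u =>
      funext fun i => hxy _
    have e1 := hcanon (fun i => xs (u i)) (fun i => ys (u i)) X Y (by rw [e0]; exact hu) (by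
      rw [e0]; funext i; exact (h1 i).symm)
    have e2 := hcanon (fun i => xs (v i)) (fun i => ys (v i)) Y Z (by rw [e0]; exact hv) (by
      rw [e0]; funext i; exact (h2 i).symm)
    have e3 := hcanon (fun i => xs (w i)) (fun i => ys (w i)) X Z (by rw [e0]; exact hw) (by
      rw [e0]; funext i; exact (h3 i).symm)
    show K.T (K.c _ _) (K.c _ _) (K.c _ _)
    rw [e1, e2, e3]
    exact K.tri _ _ _
  · intro u hu
    obtain ⟨i, hi⟩ := hm2 (fun i => xs (u i)) (fun i => ys (u i))
    exact ⟨i, hi.trans (hxy _)⟩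
  · intro u hu i j hij heq
    have e0 : K.vec (fun i => xs (u i)) (fun i => ys (u i)) = u := funext fun i => hxy _
    have := hM2 (fun i => xs (u i)) (fun i => ys (u i)) (by rw [e0]; exact hu) i j hij (by
      rw [e0]; exact heq)
    rw [e0] at this
    exact this

end Core

end Pool.Agent.H127_SB
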