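import Mathlib

/-!
Relation algebras, normal representations, the constraint satisfaction problem of a representation, the
`(k, l)`-consistency procedure and Siggers behaviours (helper127).

All definitions used in the statement about MP_9348f6_lc are in this file.
-/

namespace Pool.Agent.H127_SB

universe u v

/-- A relation algebra (Tarski's axioms): a Boolean algebra with composition `comp`, converse `conv` and
identity `ident`. -/
class RelAlg (A : Type u) extends BooleanAlgebra A where
  /-- composition -/
  comp : A → A → A
  /-- converse -/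
  conv : A → A
  /-- the identity element -/
  ident : A
  comp_assoc : ∀ a b c : A, comp (comp a b) c = comp a (comp b c)
  comp_ident : ∀ a : A, comp a ident = a
  sup_comp : ∀ a b c : A, comp (a ⊔ b) c = comp a c ⊔ comp b c
  conv_conv : ∀ a : A, conv (conv a) = a
  conv_sup : ∀ a b : A, conv (a ⊔ b) = conv a ⊔ conv b
  conv_comp : ∀ a b : A, conv (comp a b) = comp (conv b) (conv a)
  tarski : ∀ a b : A, comp (conv a) (comp a b)ᶜ ≤ bᶜ

/-- The algebra is symmetric: every element is its own converse. -/
def IsSymmetric (A : Type u) [RelAlg A] : Prop := ∀ a : A, RelAlg.conv a = a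

/-- The set of atoms, as a type. -/
abbrev Atoms (A : Type u) [RelAlg A] : Type u := {a : A // IsAtom a}

/-- The triple of atoms `(a, b, c)` is allowed: `c ≤ a ∘ b`. -/
def Allowed {A : Type u} [RelAlg A] (a b c : Atoms A) : Prop := c.1 ≤ RelAlg.comp a.1 b.1

/-- `A` admits a Siggers behaviour: an operation of arity six on the atoms which preserves the set of
allowed triples coordinatewise, always returns one of its arguments, and satisfies
`s(x,x,y,y,z,z) = s(y,z,x,z,x,y)`. -/
def AdmitsSiggers (A : Type u) [RelAlg A] : Prop :=
  ∃ s : (Fin 6 → Atoms A) → Atoms A,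
    (∀ x y z : Fin 6 → Atoms A, (∀ i, Allowed (x i) (y i) (z i)) → Allowed (s x) (s y) (s z)) ∧
    (∀ x : Fin 6 → Atoms A, ∃ i, s x = x i) ∧
    (∀ x y z : Atoms A, s ![x, x, y, y, z, z] = s ![y, z, x, z, x, y])

/-- A square representation of `A` with domain `B`: an isomorphism from `A` onto an algebra of binary
relations on `B` whose top element is `B × B`. -/
structure SqRep (A : Type u) [RelAlg A] (B : Type v) where
  /-- the relation of `B` denoted by an element of `A` -/
  rel : A → B → B → Prop
  rel_top : ∀ x y, rel ⊤ x y
  rel_compl : ∀ a x y, rel aᶜ x y ↔ ¬ rel a x y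
  rel_sup : ∀ a b x y, rel (a ⊔ b) x y ↔ rel a x y ∨ rel b x y
  rel_ident : ∀ x y, rel RelAlg.ident x y ↔ x = y
  rel_conv : ∀ a x y, rel (RelAlg.conv a) x y ↔ rel a y x
  rel_comp : ∀ a b x y, rel (RelAlg.comp a b) x y ↔ ∃ z, rel a x z ∧ rel b z y
  faithful : ∀ a b, (∀ x y, rel a x y ↔ rel b x y) → a = b

/-- The `A`-network `f` on the nodes `0, ..., n - 1` is atomic and closed. -/
structure AtomicClosed {A : Type u} [RelAlg A] {n : ℕ} (f : Fin n → Fin n → A) : Prop where
  atomic : ∀ x y, IsAtom (f x y)
  diagonal : ∀ x, f x x ≤ RelAlg.ident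
  reversal : ∀ x y, f y x = RelAlg.conv (f x y)
  triangle : ∀ x y z, f x z ≤ RelAlg.comp (f x y) (f y z)

namespace SqRep

variable {A : Type u} [RelAlg A] {B : Type v} (R : SqRep A B)

/-- `α` is an automorphism of the representation. -/
def IsAut (α : Equiv.Perm B) : Prop := ∀ a x y, R.rel a (α x) (α y) ↔ R.rel a x y

/-- Every isomorphism between finite substructures extends to an automorphism. -/
def Homogeneous : Prop :=
  ∀ (S T : Finset B) (f : {x // x ∈ S} ≃ {x // x ∈ T}),
    (∀ (a : A) (x y : {x // x ∈ S}), R.rel a (f x).1 (f y).1 ↔ R.rel a x.1 y.1) →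
    ∃ α : Equiv.Perm B, R.IsAut α ∧ ∀ x : {x // x ∈ S}, α x.1 = (f x).1

/-- Every atomic closed network is satisfiable in the representation. -/
def FullyUniversal : Prop :=
  ∀ (n : ℕ) (f : Fin n → Fin n → A), AtomicClosed f →
    ∃ s : Fin n → B, ∀ x y, R.rel (f x y) (s x) (s y)

/-- The square representation is normal. -/
def Normal : Prop := R.Homogeneous ∧ R.FullyUniversal

/-- The automorphism group is primitive: it preserves no equivalence relation on `B` other than
equality and `B × B`. -/
def Primitive : Prop :=
  ∀ E : Setoid B, (∀ α, R.IsAut α → ∀ x y, E.r x y → E.r (α x) (α y)) → E = ⊥ ∨ E = ⊤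

/-- The instance `I` (a structure in the signature `A` with domain `X`) has a homomorphism to the
representation. -/
def Satisfiable {X : Type} (I : A → X → X → Prop) : Prop :=
  ∃ h : X → B, ∀ a x y, I a x y → R.rel a (h x) (h y)

/-- The maps `W → B` that are homomorphisms from the substructure of the instance `I` induced on the set
`W` of variables. -/
def HomsOn {X : Type} (I : A → X → X → Prop) (W : Finset X) : Set ({x // x ∈ W} → B) :=
  {h | ∀ a x y, I a x.1 y.1 → R.rel a (h x) (h y)}

/-- One round of the `(k, l)`-consistency procedure, applied to a family `F` which gives for each set `W` of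
variables a set of maps `W → B`. A map `h` on `W` is removed if for some set `W'` of at most `l` variables
and some `U ⊆ W ∩ W'` with at most `k` elements no map in `F W'` agrees with `h` on `U` up to an
automorphism. -/
def Round (k l : ℕ) {X : Type} (F : (W : Finset X) → Set ({x // x ∈ W} → B)) :
    (W : Finset X) → Set ({x // x ∈ W} → B) := fun W =>
  {h | h ∈ F W ∧ ∀ W' U : Finset X, W'.card ≤ l → U.card ≤ k → ∀ (hU : U ⊆ W) (hU' : U ⊆ W'),
    ∃ h' ∈ F W', ∃ α, R.IsAut α ∧ ∀ x (hx : x ∈ U), h' ⟨x, hU' hx⟩ = α (h ⟨x, hU hx⟩)}

/-- The maps that are left after `n` rounds of the `(k, l)`-consistency procedure on the instance `I`, which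
starts with all homomorphisms `W → B` from the substructures of `I`. -/
def Left (k l : ℕ) {X : Type} (I : A → X → X → Prop) (n : ℕ) :
    (W : Finset X) → Set ({x // x ∈ W} → B) :=
  (R.Round k l)^[n] (R.HomsOn I)

/-- The `(k, l)`-consistency procedure rejects the instance `I`: after some number of rounds no map is left
on some set of at most `l` variables. -/
def Rejects (k l : ℕ) {X : Type} (I : A → X → X → Prop) : Prop :=
  ∃ (n : ℕ) (W : Finset X), W.card ≤ l ∧ R.Left k l I n W = ∅

/-- For some `k ≤ l` the `(k, l)`-consistency procedure rejects exactly the unsatisfiable finite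
instances. -/
def SolvedByConsistency : Prop :=
  ∃ k l : ℕ, k ≤ l ∧ ∀ (X : Type) [Finite X] (I : A → X → X → Prop),
    R.Rejects k l I ↔ ¬ R.Satisfiable I

end SqRep

end Pool.Agent.H127_SB
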