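import Mathlib

/-!
The Siggers operation from the binary and the ternary operation (helper127).
-/

namespace Pool.Agent.H127_SB

universe u

/-- Replace each entry by its product with the entry at the partner index. -/
def stp {C : Type u} {ι : Type*} (P : C → C → C) (τ : ι → ι) (x : ι → C) : ι → C :=
  fun i => P (x i) (x (τ i))

/-- Preservation of the triangle relation. -/
def Pres {C : Type u} {ι : Type*} (T : C → C → C → Prop) (F : (ι → C) → C) : Prop :=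
  ∀ x y z : ι → C, (∀ i, T (x i) (y i) (z i)) → T (F x) (F y) (F z)

/-- Free vectors. -/
def Fr {C : Type u} (S : C → C → Prop) (x : Fin 3 → C) : Prop :=
  ∀ i j, x i ≠ x j → ¬ S (x i) (x j)

theorem fr_of {C : Type u} (S : C → C → Prop) (hsymm : ∀ a b, S a b → S b a) (x : Fin 3 → C)
    (h01 : x 0 ≠ x 1 → ¬ S (x 0) (x 1)) (h12 : x 1 ≠ x 2 → ¬ S (x 1) (x 2))
    (h02 : x 0 ≠ x 2 → ¬ S (x 0) (x 2)) : Fr S x := by
  intro i j hij
  fin_cases i <;> fin_cases j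
  · exact absurd rfl hij
  · exact h01 hij
  · exact h02 hij
  · exact fun h => h01 (Ne.symm hij) (hsymm _ _ h)
  · exact absurd rfl hij
  · exact h12 hij
  · exact fun h => h02 (Ne.symm hij) (hsymm _ _ h)
  · exact fun h => h12 (Ne.symm hij) (hsymm _ _ h)
  · exact absurd rfl hij

theorem free_word {C : Type u} (S : C → C → Prop) (hsymm : ∀ a b, S a b → S b a)
    (P : C → C → C) (hP2 : ∀ a, P a a = a)
    (hP3 : ∀ a b, S a b → P a b = P b a ∧ (P a b = a ∨ P a b = b))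
    (hP4 : ∀ a b, ¬ S a b → P a b = a) (x : Fin 3 → C) :
    Fr S (stp P ![1, 0, 2] (stp P ![2, 1, 0] (stp P ![0, 2, 1] (stp P ![1, 0, 2] x)))) := by
  have H : ∀ a b, ((a ≠ b → ¬ S a b) ∧ P a b = a ∧ P b a = b) ∨ (P a b = a ∧ P b a = a) ∨
      (P a b = b ∧ P b a = b) := by
    intro a b
    by_cases hab : a = b
    · subst hab
      left
      exact ⟨fun h => absurd rfl h, hP2 a, hP2 a⟩
    · by_cases hs : S a b
      · obtain ⟨h1, h2 | h2⟩ := hP3 a b hs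
        · right; left; exact ⟨h2, h1.symm.trans h2⟩
        · right; right; exact ⟨h2, h1.symm.trans h2⟩
      · left
        exact ⟨fun _ => hs, hP4 a b hs, hP4 b a (fun h => hs (hsymm _ _ h))⟩
  have hs' : ∀ a b, (a ≠ b → ¬ S a b) → (b ≠ a → ¬ S b a) :=
    fun a b h hne hs => h hne.symm (hsymm _ _ hs)
  have hr : ∀ a, a ≠ a → ¬ S a a := fun a h => absurd rfl h
  have e : ∀ (τ : Fin 3 → Fin 3) (u : Fin 3 → C) (i : Fin 3), stp P τ u i = P (u i) (u (τ i)) :=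
    fun _ _ _ => rfl
  apply fr_of S hsymm <;>
  simp only [e, Matrix.cons_val_zero, Matrix.cons_val_one, Matrix.cons_val] <;>
  generalize x 0 = a <;> generalize x 1 = b <;> generalize x 2 = c <;>
  rcases H a b with ⟨h1, h2, h3⟩ | ⟨h2, h3⟩ | ⟨h2, h3⟩ <;>
  rcases H b c with ⟨k1, k2, k3⟩ | ⟨k2, k3⟩ | ⟨k2, k3⟩ <;>
  rcases H a c with ⟨l1, l2, l3⟩ | ⟨l2, l3⟩ | ⟨l2, l3⟩ <;>
  simp only [h2, h3, k2, k3, l2, l3, hP2] <;>
  first
  | assumption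
  | exact hr _
  | exact hs' _ _ (by assumption)

theorem stp_free {C : Type u} (S : C → C → Prop) (P : C → C → C) (hP2 : ∀ a, P a a = a)
    (hP4 : ∀ a b, ¬ S a b → P a b = a) (τ : Fin 3 → Fin 3) (x : Fin 3 → C) (hx : Fr S x) :
    stp P τ x = x := by
  funext i
  show P (x i) (x (τ i)) = x i
  by_cases h : x i = x (τ i)
  · rw [← h]; exact hP2 _
  · exact hP4 _ _ (hx _ _ h)

theorem stp_comp {C : Type u} (P : C → C → C) {ι κ : Type*} (σ : ι → ι) (τ : κ → κ) (l : ι → κ)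
    (h : ∀ i, l (σ i) = τ (l i)) (x : κ → C) :
    stp P σ (fun i => x (l i)) = fun i => stp P τ x (l i) := by
  funext i
  show P (x (l i)) (x (l (σ i))) = P (x (l i)) (x (τ (l i)))
  rw [h]

theorem siggers_of_PM {C : Type u} (T : C → C → C → Prop) (S : C → C → Prop)
    (hsymm : ∀ a b, S a b → S b a)
    (P : C → C → C)
    (hP1 : ∀ p q r p' q' r', T p q r → T p' q' r' → T (P p p') (P q q') (P r r'))
    (hP2 : ∀ a, P a a = a)
    (hP3 : ∀ a b, S a b → P a b = P b a ∧ (P a b = a ∨ P a b = b))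
    (hP4 : ∀ a b, ¬ S a b → P a b = a)
    (M : (Fin 3 → C) → C)
    (hM1 : ∀ u v w : Fin 3 → C, Fr S u → Fr S v → Fr S w →
      (∀ i, T (u i) (v i) (w i)) → T (M u) (M v) (M w))
    (hM2 : ∀ u : Fin 3 → C, Fr S u → ∃ i, M u = u i)
    (hM3 : ∀ u : Fin 3 → C, Fr S u → ∀ i j, i ≠ j → u i = u j → M u = u i) :
    ∃ s : (Fin 6 → C) → C,
      (∀ x y z : Fin 6 → C, (∀ i, T (x i) (y i) (z i)) → T (s x) (s y) (s z)) ∧
      (∀ x, ∃ i, s x = x i) ∧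
      (∀ x y z : C, s ![x, x, y, y, z, z] = s ![y, z, x, z, x, y]) := by
  classical
  have hPc : ∀ a b, P a b = a ∨ P a b = b := by
    intro a b
    by_cases h : S a b
    · exact (hP3 a b h).2
    · left; exact hP4 a b h
  -- steps are conservative and preserve `T`
  have stpT : ∀ {ι : Type} (τ : ι → ι) (x y z : ι → C), (∀ i, T (x i) (y i) (z i)) →
      ∀ i, T (stp P τ x i) (stp P τ y i) (stp P τ z i) :=
    fun τ x y z h i => hP1 _ _ _ _ _ _ (h i) (h (τ i))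
  have stpc : ∀ {ι : Type} (τ : ι → ι) (x : ι → C) (i : ι), ∃ j, stp P τ x i = x j := by
    intro ι τ x i
    rcases hPc (x i) (x (τ i)) with h | h
    · exact ⟨i, h⟩
    · exact ⟨τ i, h⟩
  let Ψ : (Fin 3 → C) → (Fin 3 → C) := fun x =>
    stp P ![1, 0, 2] (stp P ![2, 1, 0] (stp P ![0, 2, 1] (stp P ![1, 0, 2] x)))
  have hΨfree : ∀ x, Fr S (Ψ x) := fun x => free_word S hsymm P hP2 hP3 hP4 x
  have hΨT : ∀ x y z : Fin 3 → C, (∀ i, T (x i) (y i) (z i)) →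
      ∀ i, T (Ψ x i) (Ψ y i) (Ψ z i) := fun x y z h =>
    stpT _ _ _ _ (stpT _ _ _ _ (stpT _ _ _ _ (stpT _ _ _ _ h)))
  have hΨc : ∀ x i, ∃ j, Ψ x i = x j := by
    intro x i
    obtain ⟨j1, h1⟩ := stpc ![1, 0, 2]
      (stp P ![2, 1, 0] (stp P ![0, 2, 1] (stp P ![1, 0, 2] x))) i
    obtain ⟨j2, h2⟩ := stpc ![2, 1, 0] (stp P ![0, 2, 1] (stp P ![1, 0, 2] x)) j1
    obtain ⟨j3, h3⟩ := stpc ![0, 2, 1] (stp P ![1, 0, 2] x) j2
    obtain ⟨j4, h4⟩ := stpc ![1, 0, 2] x j3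
    exact ⟨j4, h1.trans (h2.trans (h3.trans h4))⟩
  have hΨid : ∀ x, Fr S x → Ψ x = x := by
    intro x hx
    simp only [Ψ]
    rw [stp_free S P hP2 hP4 ![1, 0, 2] x hx, stp_free S P hP2 hP4 ![0, 2, 1] x hx,
      stp_free S P hP2 hP4 ![2, 1, 0] x hx, stp_free S P hP2 hP4 ![1, 0, 2] x hx]
  let Mh : (Fin 3 → C) → C := fun x => M (Ψ x)
  have hMhT : ∀ x y z : Fin 3 → C, (∀ i, T (x i) (y i) (z i)) → T (Mh x) (Mh y) (Mh z) :=
    fun x y z h => hM1 _ _ _ (hΨfree x) (hΨfree y) (hΨfree z) (hΨT x y z h)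
  have hMhc : ∀ x, ∃ i, Mh x = x i := by
    intro x
    obtain ⟨i, hi⟩ := hM2 _ (hΨfree x)
    obtain ⟨j, hj⟩ := hΨc x i
    exact ⟨j, hi.trans hj⟩
  have hMhm : ∀ x, Fr S x → ∀ i j, i ≠ j → x i = x j → Mh x = x i := by
    intro x hx i j hij he
    show M (Ψ x) = x i
    rw [hΨid x hx]
    exact hM3 x hx i j hij he
  -- the term `s0`
  let s0 : (Fin 6 → C) → C := fun x =>
    Mh ![Mh ![x 2, x 0, x 1], Mh ![x 2, x 0, x 3], Mh ![x 4, x 5, x 1]]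
  have v3T : ∀ a b c a' b' c' a'' b'' c'' : C, T a a' a'' → T b b' b'' → T c c' c'' →
      ∀ i, T ((![a, b, c] : Fin 3 → C) i) ((![a', b', c'] : Fin 3 → C) i)
        ((![a'', b'', c''] : Fin 3 → C) i) := by
    intro a b c a' b' c' a'' b'' c'' h1 h2 h3 i
    fin_cases i
    · exact h1
    · exact h2
    · exact h3
  have hs0T : ∀ x y z : Fin 6 → C, (∀ i, T (x i) (y i) (z i)) → T (s0 x) (s0 y) (s0 z) := by
    intro x y z h
    exact hMhT _ _ _ (v3T _ _ _ _ _ _ _ _ _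
      (hMhT _ _ _ (v3T _ _ _ _ _ _ _ _ _ (h 2) (h 0) (h 1)))
      (hMhT _ _ _ (v3T _ _ _ _ _ _ _ _ _ (h 2) (h 0) (h 3)))
      (hMhT _ _ _ (v3T _ _ _ _ _ _ _ _ _ (h 4) (h 5) (h 1))))
  have v3c : ∀ (x : Fin 6 → C) (a b c : Fin 6), ∃ i, Mh ![x a, x b, x c] = x i := by
    intro x a b c
    obtain ⟨i, hi⟩ := hMhc ![x a, x b, x c]
    fin_cases i
    · exact ⟨a, hi⟩
    · exact ⟨b, hi⟩
    · exact ⟨c, hi⟩
  have hs0c : ∀ x, ∃ i, s0 x = x i := by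
    intro x
    obtain ⟨i1, h1⟩ := v3c x 2 0 1
    obtain ⟨i2, h2⟩ := v3c x 2 0 3
    obtain ⟨i3, h3⟩ := v3c x 4 5 1
    obtain ⟨i, hi⟩ := v3c x i1 i2 i3
    refine ⟨i, ?_⟩
    show Mh ![Mh ![x 2, x 0, x 1], Mh ![x 2, x 0, x 3], Mh ![x 4, x 5, x 1]] = x i
    rw [h1, h2, h3]
    exact hi
  -- the two sides
  let l : Fin 6 → Fin 3 := ![0, 0, 1, 1, 2, 2]
  let r : Fin 6 → Fin 3 := ![1, 2, 0, 2, 0, 1]
  have hperm : ∀ x : Fin 3 → C, Fr S x → ∀ a b c : Fin 3, Fr S ![x a, x b, x c] := by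
    intro x hx a b c i j hij
    have h1 : ∀ i, ∃ k, (![x a, x b, x c] : Fin 3 → C) i = x k := by
      intro i
      fin_cases i
      · exact ⟨a, rfl⟩
      · exact ⟨b, rfl⟩
      · exact ⟨c, rfl⟩
    obtain ⟨k1, hk1⟩ := h1 i
    obtain ⟨k2, hk2⟩ := h1 j
    rw [hk1, hk2] at hij ⊢
    exact hx _ _ hij
  have hLR : ∀ x : Fin 3 → C, Fr S x → s0 (fun i => x (l i)) = s0 (fun i => x (r i)) := by
    intro x hx
    show Mh ![Mh ![x 1, x 0, x 0], Mh ![x 1, x 0, x 1], Mh ![x 2, x 2, x 0]] =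
      Mh ![Mh ![x 0, x 1, x 2], Mh ![x 0, x 1, x 2], Mh ![x 0, x 1, x 2]]
    have a1 : Mh ![x 1, x 0, x 0] = x 0 := hMhm _ (hperm x hx 1 0 0) 1 2 (by decide) rfl
    have a2 : Mh ![x 1, x 0, x 1] = x 1 := hMhm _ (hperm x hx 1 0 1) 0 2 (by decide) rfl
    have a3 : Mh ![x 2, x 2, x 0] = x 2 := hMhm _ (hperm x hx 2 2 0) 0 1 (by decide) rfl
    rw [a1, a2, a3]
    have a4 : Mh ![Mh ![x 0, x 1, x 2], Mh ![x 0, x 1, x 2], Mh ![x 0, x 1, x 2]] =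
        Mh ![x 0, x 1, x 2] := by
      obtain ⟨i, hi⟩ := hMhc ![Mh ![x 0, x 1, x 2], Mh ![x 0, x 1, x 2], Mh ![x 0, x 1, x 2]]
      fin_cases i <;> exact hi
    rw [a4]
  let Φ : (Fin 6 → C) → (Fin 6 → C) := fun x =>
    stp P ![2, 3, 0, 1, 5, 4] (stp P ![5, 4, 3, 2, 1, 0] (stp P ![1, 0, 4, 5, 2, 3]
      (stp P ![2, 3, 0, 1, 5, 4] x)))
  have hΦl : ∀ x : Fin 3 → C, Φ (fun i => x (l i)) = fun i => Ψ x (l i) := by
    intro x
    simp only [Φ, Ψ]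
    rw [stp_comp P ![2, 3, 0, 1, 5, 4] ![1, 0, 2] l (by decide) x,
      stp_comp P ![1, 0, 4, 5, 2, 3] ![0, 2, 1] l (by decide) _,
      stp_comp P ![5, 4, 3, 2, 1, 0] ![2, 1, 0] l (by decide) _,
      stp_comp P ![2, 3, 0, 1, 5, 4] ![1, 0, 2] l (by decide) _]
  have hΦr : ∀ x : Fin 3 → C, Φ (fun i => x (r i)) = fun i => Ψ x (r i) := by
    intro x
    simp only [Φ, Ψ]
    rw [stp_comp P ![2, 3, 0, 1, 5, 4] ![1, 0, 2] r (by decide) x,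
      stp_comp P ![1, 0, 4, 5, 2, 3] ![0, 2, 1] r (by decide) _,
      stp_comp P ![5, 4, 3, 2, 1, 0] ![2, 1, 0] r (by decide) _,
      stp_comp P ![2, 3, 0, 1, 5, 4] ![1, 0, 2] r (by decide) _]
  refine ⟨fun x => s0 (Φ x), ?_, ?_, ?_⟩
  · intro x y z h
    exact hs0T _ _ _ (stpT _ _ _ _ (stpT _ _ _ _ (stpT _ _ _ _ (stpT _ _ _ _ h))))
  · intro x
    obtain ⟨i, hi⟩ := hs0c (Φ x)
    obtain ⟨j1, h1⟩ := stpc ![2, 3, 0, 1, 5, 4] (stp P ![5, 4, 3, 2, 1, 0]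
      (stp P ![1, 0, 4, 5, 2, 3] (stp P ![2, 3, 0, 1, 5, 4] x))) i
    obtain ⟨j2, h2⟩ := stpc ![5, 4, 3, 2, 1, 0]
      (stp P ![1, 0, 4, 5, 2, 3] (stp P ![2, 3, 0, 1, 5, 4] x)) j1
    obtain ⟨j3, h3⟩ := stpc ![1, 0, 4, 5, 2, 3] (stp P ![2, 3, 0, 1, 5, 4] x) j2
    obtain ⟨j4, h4⟩ := stpc ![2, 3, 0, 1, 5, 4] x j3
    exact ⟨j4, hi.trans (h1.trans (h2.trans (h3.trans h4)))⟩
  · intro x y z
    have e1 : (![x, x, y, y, z, z] : Fin 6 → C) = fun i => (![x, y, z] : Fin 3 → C) (l i) := by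
      funext i; fin_cases i <;> rfl
    have e2 : (![y, z, x, z, x, y] : Fin 6 → C) = fun i => (![x, y, z] : Fin 3 → C) (r i) := by
      funext i; fin_cases i <;> rfl
    show s0 (Φ _) = s0 (Φ _)
    rw [e1, e2, hΦl, hΦr]
    exact hLR _ (hΨfree _)

end Pool.Agent.H127_SB
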