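import Mathlib
import Pool.Agent.H127_SB.Assemble
import Pool.Agent.H127_SB.Sigg

/-!
The core theorem for a countable domain (helper127).
-/

namespace Pool.Agent.H127_SB

universe u v w

variable {C : Type u} {B : Type v}

namespace Core

theorem core_main (K : Core C B) [Finite C] [Countable B] (hP : K.Prim)
    (hsurj : ∀ a, ∃ x y, K.c x y = a)
    (hB : ∃ x y z : B, x ≠ y ∧ y ≠ z ∧ x ≠ z) (hs : K.Solved) :
    ∃ s : (Fin 6 → C) → C,
      (∀ x y z : Fin 6 → C, (∀ i, K.T (x i) (y i) (z i)) → K.T (s x) (s y) (s z)) ∧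
      (∀ x, ∃ i, s x = x i) ∧
      (∀ x y z : C, s ![x, x, y, y, z, z] = s ![y, z, x, z, x, y]) := by
  have h1 := K.oneCyc_of_solved hP hsurj hB hs
  have hB2 : ∃ x y : B, x ≠ y := by
    obtain ⟨x, y, _, h, _⟩ := hB
    exact ⟨x, y, h⟩
  have hcan : ∀ a b, a ≠ b → ¬ K.IsSL a b → K.AllCanon a b := by
    intro a b hab hsl
    have ha : a ≠ K.e := by
      rintro rfl
      exact hsl (Or.inr (K.sl_e hP h1 hsurj hs b hab.symm))
    have hb : b ≠ K.e := by
      rintro rfl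
      exact hsl (Or.inl (K.sl_e hP h1 hsurj hs a hab))
    exact K.canon_ab hP h1 hB2 a b ha hb hab (fun h => hsl (Or.inl h)) (fun h => hsl (Or.inr h))
  have hmaj : ∀ a b, a ≠ b → ¬ K.IsSL a b → ∃ f : (Fin 3 → B) → B, K.Cons f ∧ K.MajOn a b f := by
    intro a b hab hsl
    exact K.maj_of_solved a b hab (hsurj a) (hsurj b) hs (hcan a b hab hsl)
      (fun h => hsl (Or.inl h)) (fun h => hsl (Or.inr h))
  obtain ⟨P, hP1, hP2, hP3, hP4⟩ := K.exists_P hsurj hcan
  obtain ⟨M, hM1, hM2, hM3⟩ := K.exists_M hsurj hcan hmaj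
  exact siggers_of_PM K.T K.IsSL (fun a b h => K.IsSL_symm h) P hP1 hP2 hP3 hP4 M hM1 hM2 hM3

end Core

end Pool.Agent.H127_SB
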