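import Mathlib
import Pool.Agent.H127_SB.Main

/-!
Passing to a countable subset of the domain (helper127).
-/

namespace Pool.Agent.H127_SB

universe u v w

variable {C : Type u} {B : Type v}

namespace Core

/-- A countable set closed under the extension property. -/
theorem countable_closed (K : Core C B) [Finite C] (S0 : Set B) (hS0 : S0.Countable) :
    ∃ S : Set B, S.Countable ∧ S0 ⊆ S ∧ ∀ (n : ℕ) (w : Fin n → B) (q : Fin n → C),
      (∀ i, w i ∈ S) → (∀ i j, K.T (q i) (K.c (w i) (w j)) (q j)) →
      ∃ b ∈ S, ∀ i, K.c b (w i) = q i := by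
  classical
  have := K.nonempty
  -- a choice of extensions
  have hext : ∀ (n : ℕ) (w : Fin n → B) (q : Fin n → C), ∃ b,
      (∀ i j, K.T (q i) (K.c (w i) (w j)) (q j)) → ∀ i, K.c b (w i) = q i := by
    intro n w q
    by_cases h : ∀ i j, K.T (q i) (K.c (w i) (w j)) (q j)
    · obtain ⟨b, hb⟩ := K.EP n w q h
      exact ⟨b, fun _ => hb⟩
    · exact ⟨Classical.arbitrary B, fun h' => absurd h' h⟩
  choose ext hext using hext
  let step : Set B → Set B := fun S =>
    S ∪ ⋃ n : ℕ, Set.range (fun p : (Fin n → S) × (Fin n → C) => ext n (fun i => (p.1 i).1) p.2)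
  have hstep : ∀ S : Set B, S.Countable → (step S).Countable := by
    intro S hS
    have : Countable S := hS.to_subtype
    apply hS.union
    apply Set.countable_iUnion
    intro n
    exact Set.countable_range _
  let F : ℕ → Set B := fun k => step^[k] S0
  have hF : ∀ k, (F k).Countable := by
    intro k
    induction k with
    | zero => exact hS0
    | succ k ih =>
      show (step^[k + 1] S0).Countable
      rw [Function.iterate_succ_apply']
      exact hstep _ ih
  have hmono : ∀ k, F k ⊆ F (k + 1) := by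
    intro k
    show step^[k] S0 ⊆ step^[k + 1] S0
    rw [Function.iterate_succ_apply']
    exact Set.subset_union_left
  have hmono' : Monotone F := monotone_nat_of_le_succ hmono
  refine ⟨⋃ k, F k, Set.countable_iUnion hF, ?_, ?_⟩
  · exact Set.subset_iUnion F 0
  · intro n w q hw hT
    have hw' : ∀ i, ∃ k, w i ∈ F k := fun i => Set.mem_iUnion.1 (hw i)
    choose k hk using hw'
    obtain ⟨N, hN⟩ := (Set.finite_range k).bddAbove
    have hwN : ∀ i, w i ∈ F N := fun i => hmono' (hN ⟨i, rfl⟩) (hk i)
    refine ⟨ext n w q, ?_, hext n w q hT⟩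
    apply Set.mem_iUnion.2
    refine ⟨N + 1, ?_⟩
    show _ ∈ step^[N + 1] S0
    rw [Function.iterate_succ_apply']
    right
    apply Set.mem_iUnion.2
    exact ⟨n, (fun i => ⟨w i, hwN i⟩, q), rfl⟩

/-- Restriction to a closed subset. -/
def restrict (K : Core C B) (S : Set B)
    (hS : ∀ (n : ℕ) (w : Fin n → B) (q : Fin n → C),
      (∀ i, w i ∈ S) → (∀ i j, K.T (q i) (K.c (w i) (w j)) (q j)) →
      ∃ b ∈ S, ∀ i, K.c b (w i) = q i) : Core C {x // x ∈ S} where
  e := K.e
  T := K.T
  c := fun x y => K.c x.1 y.1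
  c_eq := fun x y => (K.c_eq _ _).trans Subtype.ext_iff.symm
  c_symm := fun x y => K.c_symm _ _
  tri := fun x y z => K.tri _ _ _
  T_swap := K.T_swap
  T_rot := K.T_rot
  T_e := K.T_e
  T_refl := K.T_refl
  EP := fun n w q h => by
    obtain ⟨b, hb, hb'⟩ := hS n (fun i => (w i).1) q (fun i => (w i).2) h
    exact ⟨⟨b, hb⟩, hb'⟩

/-- The Siggers operation on the colours, for any domain. -/
def HasSiggers (K : Core C B) : Prop :=
  ∃ s : (Fin 6 → C) → C,
      (∀ x y z : Fin 6 → C, (∀ i, K.T (x i) (y i) (z i)) → K.T (s x) (s y) (s z)) ∧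
      (∀ x, ∃ i, s x = x i) ∧
      (∀ x y z : C, s ![x, x, y, y, z, z] = s ![y, z, x, z, x, y])

theorem siggers_two (K : Core C B) (hsurj : ∀ a, ∃ x y, K.c x y = a)
    (hB : ¬ ∃ x y z : B, x ≠ y ∧ y ≠ z ∧ x ≠ z) : K.HasSiggers := by
  classical
  push Not at hB
  by_cases h2 : ∃ p q : B, p ≠ q
  swap
  · push Not at h2
    have hC : ∀ a b : C, a = b := by
      intro a b
      obtain ⟨x, y, rfl⟩ := hsurj a
      obtain ⟨x', y', rfl⟩ := hsurj b
      rw [h2 x x', h2 y y']
    exact ⟨fun x => x 0, fun x y z h => h 0, fun x => ⟨0, rfl⟩, fun x y z => hC _ _⟩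
  obtain ⟨p, q, hpq⟩ := h2
  have hall : ∀ x, x = p ∨ x = q := by
    intro x
    by_contra hx
    push Not at hx
    exact hpq (hB p x q hx.1.symm hx.2)
  obtain ⟨a, ha⟩ : ∃ a, a = K.c p q := ⟨_, rfl⟩
  have hae : a ≠ K.e := by
    intro h; rw [ha, K.c_eq] at h; exact hpq h
  have hcol : ∀ γ, γ = K.e ∨ γ = a := by
    intro γ
    obtain ⟨x, y, rfl⟩ := hsurj γ
    rcases hall x with rfl | rfl <;> rcases hall y with rfl | rfl
    · left; exact K.c_self _
    · right; exact ha.symm
    · right; rw [K.c_symm]; exact ha.symm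
    · left; exact K.c_self _
  have hna : ¬ K.T a a a := by
    intro h
    obtain ⟨z, h3, h4⟩ := K.third p q a a (by rw [← ha]; exact h)
    rcases hall z with rfl | rfl
    · rw [K.c_self] at h3; exact hae h3.symm
    · rw [K.c_self] at h4; exact hae h4.symm
  let f : C → Bool := fun γ => decide (γ = a)
  let g : Bool → C := fun b => cond b a K.e
  have hfg : ∀ b, f (g b) = b := by
    intro b
    cases b
    · exact decide_eq_false (Ne.symm hae)
    · exact decide_eq_true rfl
  have hgf : ∀ γ, g (f γ) = γ := by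
    intro γ
    rcases hcol γ with h | h
    · have : f γ = false := decide_eq_false (by rw [h]; exact Ne.symm hae)
      rw [this]; exact h.symm
    · have : f γ = true := decide_eq_true h
      rw [this]; exact h.symm
  have hfe : f K.e = false := decide_eq_false (Ne.symm hae)
  have hfa : f a = true := decide_eq_true rfl
  have hT : ∀ u v w, K.T u v w ↔ xor (f u) (f v) = f w := by
    intro u v w
    rcases hcol u with hu | hu <;> rcases hcol v with hv | hv <;> rcases hcol w with hw | hw <;>
    rw [hu, hv, hw]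
    all_goals simp only [hfe, hfa]
    · simp only [Bool.xor_false, iff_true]; exact K.T_refl _
    · simp only [Bool.xor_false, Bool.false_eq_true, iff_false]
      intro h; exact hae (K.T_e h).symm
    · simp only [Bool.false_bne, Bool.true_eq_false, iff_false]
      intro h; exact hae (K.T_e h)
    · simp only [Bool.false_bne, iff_true]; exact K.T_refl _
    · simp only [Bool.xor_false, Bool.true_eq_false, iff_false]
      intro h; exact hae (K.T_e (K.T_swap h))
    · simp only [Bool.xor_false, iff_true]; exact K.T_pep _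
    · simp only [Bool.xor_self, iff_true]; exact K.T_ppe _
    · simp only [Bool.xor_self, Bool.false_eq_true, iff_false]; exact hna
  refine ⟨fun x => g (xor (f (x 0)) (xor (f (x 3)) (f (x 4)))), ?_, ?_, ?_⟩
  · intro x y z h
    rw [hT, hfg, hfg, hfg, ← (hT _ _ _).1 (h 0), ← (hT _ _ _).1 (h 3), ← (hT _ _ _).1 (h 4)]
    generalize f (x 0) = a0
    generalize f (y 0) = b0
    generalize f (x 3) = a3
    generalize f (y 3) = b3
    generalize f (x 4) = a4
    generalize f (y 4) = b4
    revert a0 b0 a3 b3 a4 b4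
    decide
  · intro x
    have h1 : ∀ b0 b3 b4 : Bool, xor b0 (xor b3 b4) = b0 ∨ xor b0 (xor b3 b4) = b3 ∨
        xor b0 (xor b3 b4) = b4 := by decide
    rcases h1 (f (x 0)) (f (x 3)) (f (x 4)) with h | h | h
    · exact ⟨0, by simp only [h, hgf]⟩
    · exact ⟨3, by simp only [h, hgf]⟩
    · exact ⟨4, by simp only [h, hgf]⟩
  · intro x y z
    show g (xor (f x) (xor (f y) (f z))) = g (xor (f y) (xor (f z) (f x)))
    congr 1
    generalize f x = a0
    generalize f y = b0
    generalize f z = c0
    revert a0 b0 c0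
    decide

end Core

end Pool.Agent.H127_SB
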