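import Mathlib
import Pool.Agent.H127_SB.RelAlg
import Pool.Agent.H127_SB.Sub

/-!
From normal representations to the combinatorial core (helper127).
-/

namespace Pool.Agent.H127_SB

universe u v

namespace SqRep

variable {A : Type u} [RelAlg A] {B : Type v} (R : SqRep A B)

theorem rel_bot (x y : B) : ¬ R.rel ⊥ x y := by
  have h1 := R.rel_compl ⊤ x y
  rw [compl_top] at h1
  intro h
  exact h1.1 h (R.rel_top x y)

theorem rel_mono {a b : A} (hab : a ≤ b) {x y : B} (h : R.rel a x y) : R.rel b x y := by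
  have h1 := (R.rel_sup a b x y).2 (Or.inl h)
  rwa [sup_eq_right.2 hab] at h1

theorem rel_inf (a b : A) (x y : B) : R.rel (a ⊓ b) x y ↔ R.rel a x y ∧ R.rel b x y := by
  have h1 : a ⊓ b = (aᶜ ⊔ bᶜ)ᶜ := by rw [compl_sup, compl_compl, compl_compl]
  rw [h1, R.rel_compl, R.rel_sup, R.rel_compl, R.rel_compl]
  tauto

theorem atom_le {a b : A} (ha : IsAtom a) {x y : B} (h1 : R.rel a x y) (h2 : R.rel b x y) :
    a ≤ b := by
  have h3 : R.rel (a ⊓ b) x y := (R.rel_inf a b x y).2 ⟨h1, h2⟩
  have h4 : a ⊓ b ≠ ⊥ := by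
    intro h; rw [h] at h3; exact R.rel_bot x y h3
  rcases ha.le_iff.1 (inf_le_left : a ⊓ b ≤ a) with h5 | h5
  · exact absurd h5 h4
  · exact inf_eq_left.1 h5

theorem atom_unique {a b : A} (ha : IsAtom a) (hb : IsAtom b) {x y : B} (h1 : R.rel a x y)
    (h2 : R.rel b x y) : a = b :=
  le_antisymm (R.atom_le ha h1 h2) (R.atom_le hb h2 h1)

theorem exists_atom [Finite A] (x y : B) : ∃ a : Atoms A, R.rel a.1 x y := by
  obtain ⟨a0, ha0⟩ : ∃ a0, Minimal (fun a => R.rel a x y) a0 := by
    obtain ⟨a0, -, ha0⟩ := exists_minimal_le_of_wellFoundedLT (fun a => R.rel a x y) ⊤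
      (R.rel_top x y)
    exact ⟨a0, ha0⟩
  refine ⟨⟨a0, ?_, ?_⟩, ha0.prop⟩
  · intro h
    have h1 := ha0.prop
    rw [h] at h1
    exact R.rel_bot x y h1
  · intro b hb
    have hb1 : b ≤ a0 := le_of_lt hb
    have h1 : ¬ R.rel b x y := fun h => not_le_of_gt hb (ha0.le_of_le h hb1)
    have h2 : R.rel (b ⊔ a0 \ b) x y := by
      rw [sup_sdiff_cancel_right hb1]; exact ha0.prop
    have h3 : R.rel (a0 \ b) x y := by
      rcases (R.rel_sup _ _ x y).1 h2 with h3 | h3
      · exact absurd h3 h1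
      · exact h3
    have h4 : a0 ≤ a0 \ b := ha0.le_of_le h3 sdiff_le
    have h5 : b ≤ a0 \ b := hb1.trans h4
    have h6 : Disjoint (a0 \ b) b := disjoint_sdiff_self_left
    exact (h6.mono_left h5).eq_bot_of_self

/-- The colour of a pair. -/
noncomputable def col [Finite A] (x y : B) : Atoms A := (R.exists_atom x y).choose

theorem col_spec [Finite A] (x y : B) : R.rel (R.col x y).1 x y := (R.exists_atom x y).choose_spec

theorem col_eq [Finite A] {x y : B} {a : Atoms A} (h : R.rel a.1 x y) : R.col x y = a :=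
  Subtype.ext (R.atom_unique (R.col x y).2 a.2 (R.col_spec x y) h)

theorem col_iff [Finite A] {x y : B} {a : Atoms A} : R.col x y = a ↔ R.rel a.1 x y :=
  ⟨fun h => h ▸ R.col_spec x y, R.col_eq⟩

theorem rel_iff_col [Finite A] (a : A) (x y : B) : R.rel a x y ↔ (R.col x y).1 ≤ a :=
  ⟨fun h => R.atom_le (R.col x y).2 (R.col_spec x y) h, fun h => R.rel_mono h (R.col_spec x y)⟩

theorem col_surj [Finite A] (a : Atoms A) : ∃ x y, R.col x y = a := by
  by_contra hcon
  push Not at hcon
  apply a.2.1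
  apply R.faithful
  intro x y
  constructor
  · intro h; exact absurd (R.col_eq h) (hcon x y)
  · intro h; exact absurd h (R.rel_bot x y)

theorem col_symm [Finite A] (hs : IsSymmetric A) (x y : B) : R.col x y = R.col y x := by
  apply R.col_eq
  have h1 := (R.rel_conv (R.col y x).1 x y).2 (R.col_spec y x)
  rwa [hs] at h1

theorem allowed_iff [Finite A] (p q r : Atoms A) :
    Allowed p q r ↔ ∃ x y z, R.col x y = p ∧ R.col y z = q ∧ R.col x z = r := by
  constructor
  · intro h
    obtain ⟨x, z, hxz⟩ := R.col_surj r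
    have h1 : R.rel r.1 x z := R.col_iff.1 hxz
    have h2 := R.rel_mono h h1
    obtain ⟨y, h3, h4⟩ := (R.rel_comp _ _ x z).1 h2
    exact ⟨x, y, z, R.col_eq h3, R.col_eq h4, hxz⟩
  · rintro ⟨x, y, z, h1, h2, h3⟩
    exact R.atom_le r.2 (R.col_iff.1 h3) ((R.rel_comp _ _ x z).2
      ⟨y, R.col_iff.1 h1, R.col_iff.1 h2⟩)

theorem col_self [Finite A] (hs : IsSymmetric A) (x y : B) : R.col x x = R.col y y := by
  have h1 : R.rel (RelAlg.comp (R.col x x).1 ⊤) x y :=
    (R.rel_comp _ _ x y).2 ⟨x, R.col_spec x x, R.rel_top x y⟩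
  have h2 : R.rel (RelAlg.comp (R.col x x).1 ⊤) y x := by
    have h3 := (R.rel_conv (RelAlg.comp (R.col x x).1 ⊤) y x).2 h1
    rwa [hs] at h3
  obtain ⟨z, h4, _⟩ := (R.rel_comp _ _ y x).1 h2
  have h5 : (R.col x x).1 ≤ RelAlg.ident :=
    R.atom_le (R.col x x).2 (R.col_spec x x) ((R.rel_ident x x).2 rfl)
  have h6 : y = z := (R.rel_ident y z).1 (R.rel_mono h5 h4)
  rw [← h6] at h4
  exact (R.col_eq h4).symm

theorem col_eq_self [Finite A] (hs : IsSymmetric A) (x0 x y : B) :
    R.col x y = R.col x0 x0 ↔ x = y := by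
  constructor
  · intro h
    have h1 : (R.col x0 x0).1 ≤ RelAlg.ident :=
      R.atom_le (R.col x0 x0).2 (R.col_spec x0 x0) ((R.rel_ident x0 x0).2 rfl)
    have h2 : R.rel (R.col x0 x0).1 x y := R.col_iff.1 h
    exact (R.rel_ident x y).1 (R.rel_mono h1 h2)
  · rintro rfl
    exact R.col_self hs x x0

/-- Homogeneity for indexed families. -/
theorem hom_family [Finite A] (hH : R.Homogeneous) {n : ℕ} (w w' : Fin n → B)
    (h : ∀ i j, R.col (w i) (w j) = R.col (w' i) (w' j)) :
    ∃ α : Equiv.Perm B, R.IsAut α ∧ ∀ i, α (w i) = w' i := by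
  classical
  have hrel : ∀ a i j, R.rel a (w i) (w j) ↔ R.rel a (w' i) (w' j) := by
    intro a i j
    rw [R.rel_iff_col, R.rel_iff_col, h]
  have heq : ∀ i j, w i = w j ↔ w' i = w' j := by
    intro i j
    rw [← R.rel_ident, ← R.rel_ident]; exact hrel _ i j
  let S : Finset B := Finset.univ.image w
  let T : Finset B := Finset.univ.image w'
  have hS : ∀ x : {x // x ∈ S}, ∃ i, w i = x.1 := by
    rintro ⟨x, hx⟩
    obtain ⟨i, -, hi⟩ := Finset.mem_image.1 hx
    exact ⟨i, hi⟩
  have hT : ∀ x : {x // x ∈ T}, ∃ i, w' i = x.1 := by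
    rintro ⟨x, hx⟩
    obtain ⟨i, -, hi⟩ := Finset.mem_image.1 hx
    exact ⟨i, hi⟩
  choose iS hiS using hS
  choose iT hiT using hT
  have memS : ∀ i, w i ∈ S := fun i => Finset.mem_image_of_mem _ (Finset.mem_univ i)
  have memT : ∀ i, w' i ∈ T := fun i => Finset.mem_image_of_mem _ (Finset.mem_univ i)
  let f : {x // x ∈ S} ≃ {x // x ∈ T} :=
    { toFun := fun x => ⟨w' (iS x), memT _⟩
      invFun := fun y => ⟨w (iT y), memS _⟩
      left_inv := by
        intro x
        apply Subtype.ext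
        show w (iT ⟨w' (iS x), memT _⟩) = x.1
        rw [← hiS x, heq]
        exact hiT ⟨w' (iS x), memT _⟩
      right_inv := by
        intro y
        apply Subtype.ext
        show w' (iS ⟨w (iT y), memS _⟩) = y.1
        rw [← hiT y, ← heq]
        exact hiS ⟨w (iT y), memS _⟩ }
  obtain ⟨α, hα, hα'⟩ := hH S T f (by
    intro a x y
    show R.rel a (w' (iS x)) (w' (iS y)) ↔ _
    rw [← hrel, hiS, hiS])
  refine ⟨α, hα, fun i => ?_⟩
  have h1 := hα' ⟨w i, memS i⟩
  rw [h1]
  show w' (iS ⟨w i, memS i⟩) = w' i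
  rw [← heq]
  exact hiS ⟨w i, memS i⟩

/-- The extension property. -/
theorem ext_prop [Finite A] (hs : IsSymmetric A) (hN : R.Normal) (x0 : B) (n : ℕ) (w : Fin n → B)
    (q : Fin n → Atoms A) (h : ∀ i j, Allowed (q i) (R.col (w i) (w j)) (q j)) :
    ∃ b, ∀ i, R.col b (w i) = q i := by
  classical
  obtain ⟨hH, hU⟩ := hN
  -- symmetry of the allowed triples
  have swap : ∀ {p q r : Atoms A}, Allowed p q r → Allowed q p r := by
    intro p q r hpq
    obtain ⟨x, y, z, h1, h2, h3⟩ := (R.allowed_iff _ _ _).1 hpq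
    exact (R.allowed_iff _ _ _).2 ⟨z, y, x, (R.col_symm hs _ _).trans h2,
      (R.col_symm hs _ _).trans h1, (R.col_symm hs _ _).trans h3⟩
  have rot : ∀ {p q r : Atoms A}, Allowed p q r → Allowed p r q := by
    intro p q r hpq
    obtain ⟨x, y, z, h1, h2, h3⟩ := (R.allowed_iff _ _ _).1 hpq
    exact (R.allowed_iff _ _ _).2 ⟨y, x, z, (R.col_symm hs _ _).trans h1, h3, h2⟩
  let e : Atoms A := R.col x0 x0
  have he : ∀ p, Allowed e p p := by
    intro p
    obtain ⟨x, y, hxy⟩ := R.col_surj p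
    exact (R.allowed_iff _ _ _).2 ⟨x, x, y, R.col_self hs x x0, hxy, hxy⟩
  have heid : e.1 ≤ RelAlg.ident :=
    R.atom_le e.2 (R.col_spec x0 x0) ((R.rel_ident x0 x0).2 rfl)
  -- the network on `n + 1` nodes
  let g : Fin (n + 1) → Fin (n + 1) → Atoms A := fun i j =>
    Fin.cases (Fin.cases e q j) (fun i' => Fin.cases (q i') (fun j' => R.col (w i') (w j')) j) i
  have g00 : g 0 0 = e := rfl
  have g0s : ∀ j, g 0 (Fin.succ j) = q j := fun _ => rfl
  have gs0 : ∀ i, g (Fin.succ i) 0 = q i := fun _ => rfl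
  have gss : ∀ i j, g (Fin.succ i) (Fin.succ j) = R.col (w i) (w j) := fun _ _ => rfl
  have htri : ∀ x y z, Allowed (g x y) (g y z) (g x z) := by
    intro x y z
    refine Fin.cases ?_ (fun x => ?_) x <;> refine Fin.cases ?_ (fun y => ?_) y <;>
    refine Fin.cases ?_ (fun z => ?_) z
    · simp only [g00]; exact he e
    · simp only [g00, g0s]; exact he _
    · simp only [g00, g0s, gs0]; exact rot (swap (he _))
    · simp only [g0s, gss]; exact h y z
    · simp only [g00, gs0]; exact swap (he _)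
    · simp only [g0s, gss, gs0]; exact rot (h x z)
    · simp only [gs0, gss]
      have h1 := h y x
      rw [R.col_symm hs (w y) (w x)] at h1
      exact swap h1
    · simp only [gss]
      exact (R.allowed_iff _ _ _).2 ⟨w x, w y, w z, rfl, rfl, rfl⟩
  obtain ⟨s, hs'⟩ := hU (n + 1) (fun i j => (g i j).1) (by
    refine ⟨fun x y => (g x y).2, ?_, ?_, fun x y z => htri x y z⟩
    · intro x
      refine Fin.cases ?_ (fun x => ?_) x
      · exact heid
      · simp only [gss]
        rw [R.col_self hs (w x) x0]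
        exact heid
    · intro x y
      rw [hs]
      congr 1
      refine Fin.cases ?_ (fun x => ?_) x <;> refine Fin.cases ?_ (fun y => ?_) y
      · rfl
      · rfl
      · rfl
      · simp only [gss]; exact R.col_symm hs _ _)
  have hcs : ∀ x y, R.col (s x) (s y) = g x y := fun x y => R.col_eq (hs' x y)
  obtain ⟨α, hα, hα'⟩ := R.hom_family hH (fun i => s (Fin.succ i)) w (by
    intro i j
    rw [hcs, gss])
  refine ⟨α (s 0), fun i => ?_⟩
  apply R.col_eq
  rw [← hα' i, hα, ← R.col_iff, hcs, g0s]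

/-- The core of a normal representation. -/
noncomputable def core [Finite A] (hs : IsSymmetric A) (hN : R.Normal) (x0 : B) :
    Core (Atoms A) B where
  e := R.col x0 x0
  T := Allowed
  c := R.col
  c_eq := R.col_eq_self hs x0
  c_symm := R.col_symm hs
  tri := fun x y z => (R.allowed_iff _ _ _).2 ⟨x, y, z, rfl, rfl, rfl⟩
  T_swap := by
    intro p q r hpq
    obtain ⟨x, y, z, h1, h2, h3⟩ := (R.allowed_iff _ _ _).1 hpq
    exact (R.allowed_iff _ _ _).2 ⟨z, y, x, (R.col_symm hs _ _).trans h2,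
      (R.col_symm hs _ _).trans h1, (R.col_symm hs _ _).trans h3⟩
  T_rot := by
    intro p q r hpq
    obtain ⟨x, y, z, h1, h2, h3⟩ := (R.allowed_iff _ _ _).1 hpq
    exact (R.allowed_iff _ _ _).2 ⟨y, x, z, (R.col_symm hs _ _).trans h1, h3, h2⟩
  T_e := by
    intro p q hpq
    obtain ⟨x, y, z, h1, h2, h3⟩ := (R.allowed_iff _ _ _).1 hpq
    rw [R.col_eq_self hs x0] at h1
    rw [h1] at h3
    exact h2.symm.trans h3
  T_refl := by
    intro p
    obtain ⟨x, y, hxy⟩ := R.col_surj p
    exact (R.allowed_iff _ _ _).2 ⟨x, x, y, R.col_self hs x x0, hxy, hxy⟩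
  EP := R.ext_prop hs hN x0

theorem core_prim [Finite A] (hs : IsSymmetric A) (hN : R.Normal) (x0 : B) (hP : R.Primitive) :
    (R.core hs hN x0).Prim := by
  intro E he hE
  let K := R.core hs hN x0
  let S : Setoid B :=
    { r := fun x y => R.col x y ∈ E
      iseqv := by
        refine ⟨fun x => ?_, fun {x y} h => ?_, fun {x y z} h1 h2 => ?_⟩
        · have : R.col x x = K.e := K.c_self x
          rw [this]; exact he
        · rw [R.col_symm hs]; exact h
        · exact hE _ _ _ h1 h2 (K.tri x y z) }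
  rcases hP S (fun α hα x y h => by
    have h1 : R.col (α x) (α y) = R.col x y := R.col_eq ((hα _ x y).2 (R.col_spec x y))
    show R.col (α x) (α y) ∈ E
    rw [h1]; exact h) with h | h
  · left
    intro p hp
    obtain ⟨x, y, hxy⟩ := R.col_surj p
    have h1 : S.r x y := by show R.col x y ∈ E; rw [hxy]; exact hp
    rw [h] at h1
    have h2 : x = y := h1
    rw [← hxy, h2]
    exact K.c_self y
  · right
    intro p
    obtain ⟨x, y, hxy⟩ := R.col_surj p
    have h1 : S.r x y := by rw [h]; trivial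
    rw [← hxy]; exact h1

theorem rel_finset_sup [Finite A] (s : Finset (Atoms A)) (x y : B) :
    R.rel (s.sup (fun γ => γ.1)) x y ↔ ∃ γ ∈ s, R.rel γ.1 x y := by
  classical
  induction s using Finset.induction_on with
  | empty =>
    simp only [Finset.sup_empty, Finset.notMem_empty, false_and, exists_false, iff_false]
    exact R.rel_bot x y
  | insert a s ha ih =>
    rw [Finset.sup_insert, R.rel_sup, ih]
    simp only [Finset.mem_insert, exists_eq_or_imp]

/-- Solvability passes to the restriction of the core. -/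
theorem solved_restrict [Finite A] (hs : IsSymmetric A) (hN : R.Normal) (x0 : B)
    (hk : R.SolvedByConsistency) (S : Set B)
    (hS : ∀ (n : ℕ) (w : Fin n → B) (q : Fin n → Atoms A),
      (∀ i, w i ∈ S) → (∀ i j, (R.core hs hN x0).T (q i) ((R.core hs hN x0).c (w i) (w j)) (q j)) →
      ∃ b ∈ S, ∀ i, (R.core hs hN x0).c b (w i) = q i) :
    ((R.core hs hN x0).restrict S hS).Solved := by
  classical
  obtain ⟨k, l, hkl, hsol⟩ := hk
  refine ⟨k, l, hkl, ?_⟩
  intro X _ _ L H hne hlist hagree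
  let I : A → X → X → Prop := fun a x y => ∀ γ : Atoms A, γ ∈ L x y → γ.1 ≤ a
  -- members of `H` survive
  have hsurv : ∀ (n : ℕ) (W : Finset X), W.card ≤ l → ∀ h ∈ H W,
      (fun x : {x // x ∈ W} => (h x.1).1) ∈ R.Left k l I n W := by
    intro n
    induction n with
    | zero =>
      intro W hW h hh a x y hI
      have h1 := hlist W hW h hh x.1 x.2 y.1 y.2
      exact (R.rel_iff_col _ _ _).2 (hI _ h1)
    | succ n ih =>
      intro W hW h hh
      show _ ∈ (R.Round k l)^[n + 1] (R.HomsOn I) W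
      rw [Function.iterate_succ_apply']
      refine ⟨ih W hW h hh, ?_⟩
      intro W' U hW' hU hUW hUW'
      obtain ⟨h', hh', hag⟩ := hagree W W' U hW hW' hUW hUW' hU h hh
      refine ⟨_, ih W' hW' h' hh', Equiv.refl B, fun a x y => Iff.rfl, ?_⟩
      intro x hx
      show (h' x).1 = (h x).1
      rw [hag x hx]
  have hnr : ¬ R.Rejects k l I := by
    rintro ⟨n, W, hW, hemp⟩
    obtain ⟨h, hh⟩ := hne W hW
    have h1 := hsurv n W hW h hh
    rw [hemp] at h1
    exact h1
  have hsat : R.Satisfiable I := by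
    by_contra hcon
    exact hnr ((hsol X I).2 hcon)
  obtain ⟨ψ, hψ⟩ := hsat
  have hψL : ∀ x y, R.col (ψ x) (ψ y) ∈ L x y := by
    intro x y
    cases nonempty_fintype (Atoms A)
    let s : Finset (Atoms A) := Finset.univ.filter (fun γ => γ ∈ L x y)
    have h1 : I (s.sup (fun γ => γ.1)) x y := by
      intro γ hγ
      exact Finset.le_sup (f := fun γ : Atoms A => γ.1) (Finset.mem_filter.2 ⟨Finset.mem_univ _, hγ⟩)
    obtain ⟨γ, hγ, hγ'⟩ := (R.rel_finset_sup s _ _).1 (hψ _ x y h1)
    rw [R.col_eq hγ']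
    exact (Finset.mem_filter.1 hγ).2
  -- realise in the subset
  let K0 := (R.core hs hN x0).restrict S hS
  have := K0.nonempty
  obtain ⟨φ, -, -, hφ⟩ := K0.realize (W := X) (fun x y => R.col (ψ x) (ψ y))
    ⟨fun x => (R.core hs hN x0).c_self _, fun x y => R.col_symm hs _ _,
      fun x y z => (R.core hs hN x0).tri _ _ _⟩ (fun _ => True)
    (fun _ _ _ b => ⟨b, trivial, fun _ => rfl⟩) ∅ (fun _ => Classical.arbitrary _)
    (by simp) (by simp)
  exact ⟨φ, fun x y => by rw [hφ]; exact hψL x y⟩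

theorem main [Finite A] (hs : IsSymmetric A) (hN : R.Normal) (hP : R.Primitive)
    (hk : R.SolvedByConsistency) : AdmitsSiggers A := by
  classical
  rcases isEmpty_or_nonempty B with hB | ⟨⟨x0⟩⟩
  · -- trivial algebra
    have hC : IsEmpty (Atoms A) := ⟨fun a => by
      obtain ⟨x, _, _⟩ := R.col_surj a
      exact hB.false x⟩
    exact ⟨fun x => x 0, fun x => (hC.false (x 0)).elim, fun x => (hC.false (x 0)).elim,
      fun x => (hC.false x).elim⟩
  let K := R.core hs hN x0
  by_cases h3 : ∃ x y z : B, x ≠ y ∧ y ≠ z ∧ x ≠ z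
  · obtain ⟨x, y, z, hxy, hyz, hxz⟩ := h3
    choose xs ys hxys using R.col_surj
    obtain ⟨S, hSc, hS0, hS⟩ := K.countable_closed ({x, y, z} ∪ Set.range xs ∪ Set.range ys)
      (((Set.toFinite _).countable.union (Set.finite_range _).countable).union
        (Set.finite_range _).countable)
    have hmem : ∀ u ∈ ({x, y, z} : Set B), u ∈ S := fun u hu => hS0 (Or.inl (Or.inl hu))
    have hxs : ∀ a, xs a ∈ S := fun a => hS0 (Or.inl (Or.inr ⟨a, rfl⟩))
    have hys : ∀ a, ys a ∈ S := fun a => hS0 (Or.inr ⟨a, rfl⟩)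
    have : Countable {x // x ∈ S} := hSc.to_subtype
    have hprim : (K.restrict S hS).Prim := R.core_prim hs hN x0 hP
    have hsol := R.solved_restrict hs hN x0 hk S hS
    exact (K.restrict S hS).core_main hprim
      (fun a => ⟨⟨xs a, hxs a⟩, ⟨ys a, hys a⟩, hxys a⟩)
      ⟨⟨x, hmem x (by simp)⟩, ⟨y, hmem y (by simp)⟩, ⟨z, hmem z (by simp)⟩,
        fun h => hxy (Subtype.ext_iff.1 h), fun h => hyz (Subtype.ext_iff.1 h),
        fun h => hxz (Subtype.ext_iff.1 h)⟩ hsol
  · exact K.siggers_two R.col_surj h3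

end SqRep

end Pool.Agent.H127_SB
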